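import Pool.Agent.LibKom92.Defs

/-!
Task A1. Probability instances, averages `avg`.  `avg_conv` is `Measure.lintegral_conv` and
`add_assoc`.
-/

set_option autoImplicit false

open MeasureTheory ProbabilityTheory Set
open scoped ENNReal NNReal

namespace Kom92

instance instLin {N : ℕ} (v : ℝ≥0) (w : E N) : IsProbabilityMeasure (lin v w) := by
  unfold lin
  apply Measure.isProbabilityMeasure_map
  apply Measurable.aemeasurable
  fun_prop

instance instMu {N : ℕ} (W : List (ℝ≥0 × E N)) : IsProbabilityMeasure (mu W) := by
  induction W with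
  | nil =>
    unfold mu
    infer_instance
  | cons p W ih =>
    unfold mu
    have := ih
    infer_instance

theorem measurable_avg {N : ℕ} {μ : Measure (E N)} [SFinite μ] {f : E N → ℝ≥0∞}
    (hf : Measurable f) : Measurable (avg μ f) := by
  unfold avg
  have h : Measurable (fun p : E N × E N => f (p.1 + p.2)) :=
    hf.comp (measurable_fst.add measurable_snd)
  exact h.lintegral_prod_right'

theorem avg_conv {N : ℕ} (μ ν : Measure (E N)) [SFinite μ] [SFinite ν] {f : E N → ℝ≥0∞}
    (hf : Measurable f) (x : E N) : avg (μ ∗ ν) f x = avg μ (avg ν f) x := by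
  unfold avg
  have h : Measurable (fun z : E N => f (x + z)) := hf.comp (measurable_const.add measurable_id)
  rw [Measure.lintegral_conv h]
  simp only [add_assoc]

theorem avg_le {N : ℕ} {μ : Measure (E N)} [IsProbabilityMeasure μ] {f : E N → ℝ≥0∞} {M : ℝ≥0∞}
    (h : ∀ x, f x ≤ M) (x : E N) : avg μ f x ≤ M := by
  unfold avg
  calc ∫⁻ z, f (x + z) ∂μ ≤ ∫⁻ _, M ∂μ := lintegral_mono fun z => h (x + z)
    _ = M := by rw [lintegral_const, measure_univ, mul_one]

theorem avg_mono {N : ℕ} {μ : Measure (E N)} {f g : E N → ℝ≥0∞}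
    (h : ∀ x, f x ≤ g x) (x : E N) : avg μ f x ≤ avg μ g x := by
  unfold avg
  exact lintegral_mono fun z => h (x + z)

theorem avg_add {N : ℕ} {μ : Measure (E N)} {f g : E N → ℝ≥0∞} (hf : Measurable f)
    (x : E N) : avg μ (fun y => f y + g y) x = avg μ f x + avg μ g x := by
  unfold avg
  exact lintegral_add_left (hf.comp (measurable_const.add measurable_id)) _

theorem avg_const_mul {N : ℕ} {μ : Measure (E N)} {f : E N → ℝ≥0∞} (c : ℝ≥0∞)
    (hf : Measurable f) (x : E N) : avg μ (fun y => c * f y) x = c * avg μ f x := by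
  unfold avg
  exact lintegral_const_mul c (hf.comp (measurable_const.add measurable_id))

theorem avg_dirac {N : ℕ} {f : E N → ℝ≥0∞} (hf : Measurable f) (x : E N) :
    avg (Measure.dirac 0) f x = f x := by
  unfold avg
  have h : Measurable (fun z : E N => f (x + z)) := hf.comp (measurable_const.add measurable_id)
  rw [lintegral_dirac' _ h, add_zero]

/-- average of the translate is the translate of the average. -/
theorem avg_translate {N : ℕ} {μ : Measure (E N)} (f : E N → ℝ≥0∞) (x y : E N) :
    avg μ (fun p => f (p + y)) x = avg μ f (x + y) := by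
  unfold avg
  have h : ∀ z : E N, x + z + y = x + y + z := fun z => by abel
  simp only [h]

end Kom92
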