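import Pool.Agent.LibKom92.A1

/-!
Task A2. Algebra of the Gaussian measures `mu W` (recursion on the list; `Measure.conv_assoc`,
`Measure.conv_comm`, `gaussianReal_conv_gaussianReal`, `Measure.map_conv_continuousLinearMap` or
`map_conv_addMonoidHom`).
-/

set_option autoImplicit false

open MeasureTheory ProbabilityTheory Set
open scoped ENNReal NNReal

namespace Kom92

private theorem A2_meas {N : ℕ} (w : E N) : Measurable (fun s : ℝ => s • w) :=
  measurable_id.smul_const w

theorem lin_add {N : ℕ} (v v' : ℝ≥0) (w : E N) : lin (v + v') w = lin v w ∗ lin v' w := by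
  have h1 : gaussianReal 0 (v + v') = (gaussianReal 0 v) ∗ (gaussianReal 0 v') := by
    rw [gaussianReal_conv_gaussianReal, add_zero]
  unfold lin
  rw [h1]
  have h2 : Measurable ((LinearMap.toSpanSingleton ℝ (E N) w).toAddMonoidHom) := A2_meas w
  exact Measure.map_conv_addMonoidHom (LinearMap.toSpanSingleton ℝ (E N) w).toAddMonoidHom h2

theorem lin_zero {N : ℕ} (w : E N) : lin 0 w = Measure.dirac 0 := by
  unfold lin
  rw [gaussianReal_zero_var, Measure.map_dirac' (A2_meas w), zero_smul]

theorem lin_neg {N : ℕ} (v : ℝ≥0) (w : E N) : (lin v w).map (fun x => -x) = lin v w := by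
  unfold lin
  rw [Measure.map_map measurable_neg (A2_meas w)]
  have h1 : ((fun x : E N => -x) ∘ fun s : ℝ => s • w) = (fun s : ℝ => s • w) ∘ fun s => -s := by
    funext s
    simp
  rw [h1, ← Measure.map_map (A2_meas w) measurable_neg, gaussianReal_map_neg, neg_zero]

theorem mu_append {N : ℕ} (A B : List (ℝ≥0 × E N)) : mu (A ++ B) = mu A ∗ mu B := by
  induction A with
  | nil =>
    change mu B = Measure.dirac 0 ∗ mu B
    rw [Measure.dirac_zero_conv]
  | cons p A ih =>
    change lin p.1 p.2 ∗ mu (A ++ B) = (lin p.1 p.2 ∗ mu A) ∗ mu B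
    rw [ih, Measure.conv_assoc]

theorem mu_scale_add {N : ℕ} (s t : ℝ≥0) (W : List (ℝ≥0 × E N)) :
    mu (scale (s + t) W) = mu (scale s W) ∗ mu (scale t W) := by
  induction W with
  | nil =>
    change Measure.dirac 0 = Measure.dirac 0 ∗ Measure.dirac 0
    rw [Measure.dirac_zero_conv]
  | cons p W ih =>
    change lin ((s + t) * p.1) p.2 ∗ mu (scale (s + t) W) =
      (lin (s * p.1) p.2 ∗ mu (scale s W)) ∗ (lin (t * p.1) p.2 ∗ mu (scale t W))
    rw [ih, add_mul, lin_add, Measure.conv_assoc, Measure.conv_assoc]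
    congr 1
    rw [← Measure.conv_assoc, Measure.conv_comm (lin (t * p.1) p.2), Measure.conv_assoc]

theorem mu_scale_zero {N : ℕ} (W : List (ℝ≥0 × E N)) : mu (scale 0 W) = Measure.dirac 0 := by
  induction W with
  | nil => rfl
  | cons p W ih =>
    change lin (0 * p.1) p.2 ∗ mu (scale 0 W) = Measure.dirac 0
    rw [ih, zero_mul, lin_zero, Measure.dirac_zero_conv]

theorem scale_one {N : ℕ} (W : List (ℝ≥0 × E N)) : scale 1 W = W := by
  unfold scale
  simp

theorem scale_scale {N : ℕ} (s t : ℝ≥0) (W : List (ℝ≥0 × E N)) :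
    scale s (scale t W) = scale (s * t) W := by
  unfold scale
  rw [List.map_map]
  congr 1
  funext p
  simp [mul_assoc]

theorem mu_neg {N : ℕ} (W : List (ℝ≥0 × E N)) : (mu W).map (fun x => -x) = mu W := by
  induction W with
  | nil =>
    change (Measure.dirac (0 : E N)).map (fun x => -x) = Measure.dirac 0
    rw [Measure.map_dirac' measurable_neg, neg_zero]
  | cons p W ih =>
    change (lin p.1 p.2 ∗ mu W).map (fun x => -x) = lin p.1 p.2 ∗ mu W
    have h1 := Measure.map_conv_addMonoidHom (μ := lin p.1 p.2) (ν := mu W)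
      (negAddMonoidHom : E N →+ E N) measurable_neg
    have h2 : ⇑(negAddMonoidHom : E N →+ E N) = fun x => -x := rfl
    rw [h2] at h1
    rw [h1, lin_neg, ih]

theorem q_append {N : ℕ} (A B : List (ℝ≥0 × E N)) : q (A ++ B) = q A + q B := by
  induction A with
  | nil =>
    change q B = 0 + q B
    rw [zero_add]
  | cons p A ih =>
    change (p.1 : ℝ) * nsq p.2 + q (A ++ B) = (p.1 : ℝ) * nsq p.2 + q A + q B
    rw [ih, add_assoc]

theorem q_scale {N : ℕ} (t : ℝ≥0) (W : List (ℝ≥0 × E N)) : q (scale t W) = t * q W := by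
  induction W with
  | nil =>
    change (0 : ℝ) = t * 0
    rw [mul_zero]
  | cons p W ih =>
    change ((t * p.1 : ℝ≥0) : ℝ) * nsq p.2 + q (scale t W) = t * ((p.1 : ℝ) * nsq p.2 + q W)
    rw [ih, NNReal.coe_mul]
    ring

theorem q_nonneg {N : ℕ} (W : List (ℝ≥0 × E N)) : 0 ≤ q W := by
  induction W with
  | nil => exact le_refl _
  | cons p W ih =>
    change 0 ≤ (p.1 : ℝ) * nsq p.2 + q W
    exact add_nonneg (mul_nonneg p.1.2 (Finset.sum_nonneg fun i _ => sq_nonneg _)) ih

end Kom92
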