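import Pool.Agent.LibKom92.A1

/-!
Task A3. Test functions.
-/

set_option autoImplicit false

open MeasureTheory ProbabilityTheory Set
open scoped ENNReal NNReal

namespace Kom92

theorem Test.mono {N : ℕ} {C D : Set (E N)} {f : E N → ℝ≥0∞} (h : Test C f) (hCD : C ⊆ D) :
    Test D f :=
  ⟨h.meas, fun x hx => h.supp x fun hxC => hx (hCD hxC), h.bdd⟩

theorem Test.min {N : ℕ} {C D : Set (E N)} {f g : E N → ℝ≥0∞} (hf : Test C f) (hg : Test D g) :
    Test (C ∩ D) (fun x => min (f x) (g x)) := by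
  refine ⟨hf.meas.min hg.meas, fun x hx => ?_, ?_⟩
  · by_cases h : x ∈ C
    · have h2 : x ∉ D := fun h2 => hx ⟨h, h2⟩
      rw [hg.supp x h2]
      exact min_eq_right zero_le
    · rw [hf.supp x h]
      exact min_eq_left zero_le
  · obtain ⟨M, hM⟩ := hf.bdd
    exact ⟨M, fun x => (min_le_left _ _).trans (hM x)⟩

theorem Test.max {N : ℕ} {C D : Set (E N)} {f g : E N → ℝ≥0∞} (hf : Test C f) (hg : Test D g) :
    Test (C ∪ D) (fun x => max (f x) (g x)) := by
  refine ⟨hf.meas.max hg.meas, fun x hx => ?_, ?_⟩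
  · rw [hf.supp x fun h => hx (Or.inl h), hg.supp x fun h => hx (Or.inr h)]
    exact max_self _
  · obtain ⟨M, hM⟩ := hf.bdd
    obtain ⟨M', hM'⟩ := hg.bdd
    refine ⟨Max.max M M', fun x => max_le ?_ ?_⟩
    · exact (hM x).trans (by exact_mod_cast le_max_left M M')
    · exact (hM' x).trans (by exact_mod_cast le_max_right M M')

theorem Test.translate {N : ℕ} {C : Set (E N)} {f : E N → ℝ≥0∞} (hf : Test C f) (y : E N) :
    Test {p | p + y ∈ C} (fun x => f (x + y)) := by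
  refine ⟨hf.meas.comp (measurable_add_const y), fun x hx => hf.supp _ hx, ?_⟩
  obtain ⟨M, hM⟩ := hf.bdd
  exact ⟨M, fun x => hM _⟩

theorem Test.add {N : ℕ} {C : Set (E N)} {f g : E N → ℝ≥0∞} (hf : Test C f) (hg : Test C g) :
    Test C (fun x => f x + g x) := by
  refine ⟨hf.meas.add hg.meas, fun x hx => ?_, ?_⟩
  · rw [hf.supp x hx, hg.supp x hx, add_zero]
  · obtain ⟨M, hM⟩ := hf.bdd
    obtain ⟨M', hM'⟩ := hg.bdd
    refine ⟨M + M', fun x => ?_⟩
    rw [ENNReal.coe_add]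
    exact add_le_add (hM x) (hM' x)

theorem Test.const_mul {N : ℕ} {C : Set (E N)} {f : E N → ℝ≥0∞} (c : ℝ≥0) (hf : Test C f) :
    Test C (fun x => (c : ℝ≥0∞) * f x) := by
  refine ⟨hf.meas.const_mul _, fun x hx => ?_, ?_⟩
  · rw [hf.supp x hx, mul_zero]
  · obtain ⟨M, hM⟩ := hf.bdd
    refine ⟨c * M, fun x => ?_⟩
    rw [ENNReal.coe_mul]
    exact mul_le_mul_right (hM x) _

theorem Test.top {N : ℕ} {C D : Set (E N)} {f : E N → ℝ≥0∞} {μ : Measure (E N)}
    [IsProbabilityMeasure μ] (hC : MeasurableSet C) (hf : Test D f) : Test C (Top μ C f) := by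
  refine ⟨(measurable_avg hf.meas).indicator hC, fun x hx => Set.indicator_of_notMem hx _, ?_⟩
  obtain ⟨M, hM⟩ := hf.bdd
  refine ⟨M, fun x => ?_⟩
  unfold Top
  refine (Set.indicator_le_self' (fun _ _ => zero_le) x).trans ?_
  exact avg_le hM x

theorem Test.one {N : ℕ} {C : Set (E N)} (hC : MeasurableSet C) :
    Test C (C.indicator (fun _ => (1 : ℝ≥0∞))) := by
  refine ⟨measurable_const.indicator hC, fun x hx => Set.indicator_of_notMem hx _, 1, fun x => ?_⟩
  exact Set.indicator_le_self' (fun _ _ => zero_le) x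

theorem sqn_lt_top {N : ℕ} {C : Set (E N)} (hC : Bornology.IsBounded C) {f : E N → ℝ≥0∞}
    (hf : Test C f) : sqn f < ∞ := by
  obtain ⟨M, hM⟩ := hf.bdd
  obtain ⟨R, hR⟩ := hC.subset_closedBall 0
  have hB : (volume : Measure (E N)) (Metric.closedBall 0 R) < ∞ := measure_closedBall_lt_top
  unfold sqn
  calc ∫⁻ x, f x ^ 2 ≤ ∫⁻ x, (Metric.closedBall (0 : E N) R).indicator (fun _ => (M : ℝ≥0∞) ^ 2) x := by
        refine lintegral_mono fun x => ?_
        by_cases hx : x ∈ C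
        · rw [Set.indicator_of_mem (hR hx)]
          exact pow_le_pow_left₀ zero_le (hM x) 2
        · rw [hf.supp x hx]
          simp
    _ = (M : ℝ≥0∞) ^ 2 * volume (Metric.closedBall (0 : E N) R) := by
        rw [lintegral_indicator measurableSet_closedBall, setLIntegral_const]
    _ < ∞ := ENNReal.mul_lt_top (by finiteness) hB

theorem sqn_translate {N : ℕ} (f : E N → ℝ≥0∞) (y : E N) :
    sqn (fun x => f (x + y)) = sqn f :=
  lintegral_add_right_eq_self (μ := (volume : Measure (E N))) (fun x => f x ^ 2) y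

theorem sqn_const_mul {N : ℕ} {f : E N → ℝ≥0∞} (hf : Measurable f) (c : ℝ≥0∞) :
    sqn (fun x => c * f x) = c ^ 2 * sqn f := by
  unfold sqn
  rw [← lintegral_const_mul _ (hf.pow_const 2)]
  simp only [mul_pow]

theorem P_const_mul {N : ℕ} {μ : Measure (E N)} [SFinite μ] {f g : E N → ℝ≥0∞}
    (hf : Measurable f) (hg : Measurable g) (c d : ℝ≥0∞) :
    P μ (fun x => c * f x) (fun x => d * g x) = c * d * P μ f g := by
  unfold P
  have h1 : Measurable (fun x => f x * avg μ g x) := hf.mul (measurable_avg hg)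
  rw [← lintegral_const_mul _ h1]
  refine lintegral_congr fun x => ?_
  rw [avg_const_mul d hg x]
  ring

/-- Normalisation: multiply by `(sqn f)^(-1/2)`. -/
theorem normalize {N : ℕ} {C : Set (E N)} {f : E N → ℝ≥0∞} (hf : Test C f) (h0 : sqn f ≠ 0)
    (h1 : sqn f ≠ ∞) : ∃ g, Test C g ∧ sqn g = 1 ∧
      ∀ μ : Measure (E N), SFinite μ →
        (P μ g g).toReal * (sqn f).toReal = (P μ f f).toReal := by
  obtain ⟨s, hs⟩ : ∃ s : ℝ≥0, (s : ℝ≥0∞) = sqn f := ⟨(sqn f).toNNReal, ENNReal.coe_toNNReal h1⟩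
  have hs0 : s ≠ 0 := by
    rintro rfl
    exact h0 (by rw [← hs]; rfl)
  set c : ℝ≥0 := NNReal.sqrt s⁻¹ with hc
  have hc2 : c * c * s = 1 := by
    rw [hc, NNReal.mul_self_sqrt]
    exact inv_mul_cancel₀ hs0
  have hc3 : ((c : ℝ≥0∞) * c) * sqn f = 1 := by
    rw [← hs, ← ENNReal.coe_mul, ← ENNReal.coe_mul, hc2, ENNReal.coe_one]
  refine ⟨fun x => (c : ℝ≥0∞) * f x, hf.const_mul c, ?_, ?_⟩
  · rw [sqn_const_mul hf.meas, pow_two]
    exact hc3
  · intro μ hμ
    rw [P_const_mul hf.meas hf.meas, ENNReal.toReal_mul, mul_right_comm, ← ENNReal.toReal_mul, hc3,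
      ENNReal.toReal_one, one_mul]

end Kom92
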