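import Pool.Agent.LibKom92.A2
import Pool.Agent.LibKom92.A3

/-!
Task A4. The bilinear form `P`.  `P_conv`: Tonelli (three integrals), the translation
`x ↦ x - z` (`lintegral_add_right_eq_self`) and the symmetry of `α`.
`P_comm` is `P_conv` with `β = dirac 0` (or direct).
`P_le_sqn`: `f x * f (x+z) ≤ (f x ^ 2 + f (x+z) ^ 2) / 2` (write it as `2ab ≤ a²+b²` in `ℝ≥0∞`),
Tonelli, translation invariance.
-/

set_option autoImplicit false

open MeasureTheory ProbabilityTheory Set
open scoped ENNReal NNReal

namespace Kom92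

/-- `2ab ≤ a² + b²` in `ℝ≥0∞`. -/
theorem two_mul_le (a b : ℝ≥0∞) : 2 * (a * b) ≤ a ^ 2 + b ^ 2 := by
  rcases le_total a b with h | h
  · obtain ⟨c, rfl⟩ := exists_add_of_le h
    have : a ^ 2 + (a + c) ^ 2 = 2 * (a * (a + c)) + c ^ 2 := by ring
    rw [this]
    exact le_self_add
  · obtain ⟨c, rfl⟩ := exists_add_of_le h
    have : (b + c) ^ 2 + b ^ 2 = 2 * ((b + c) * b) + c ^ 2 := by ring
    rw [this]
    exact le_self_add

/-- The average with respect to a symmetric measure can be moved to the other factor. -/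
theorem A4_swap {N : ℕ} {μ : Measure (E N)} [IsProbabilityMeasure μ]
    (hμ : μ.map (fun x => -x) = μ) {f g : E N → ℝ≥0∞} (hf : Measurable f) (hg : Measurable g) :
    ∫⁻ x, f x * avg μ g x = ∫⁻ x, avg μ f x * g x := by
  have h1 : ∀ x, avg μ f x = ∫⁻ z, f (x - z) ∂μ := by
    intro x
    have hm : Measurable fun z : E N => f (x + z) := by fun_prop
    have hn : Measurable fun z : E N => -z := by fun_prop
    have h := lintegral_map (μ := μ) hm hn
    rw [hμ] at h
    unfold avg
    rw [h]
    simp only [sub_eq_add_neg]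
  have h2 : ∀ x, f x * avg μ g x = ∫⁻ z, f x * g (x + z) ∂μ := by
    intro x
    have hm : Measurable fun z : E N => g (x + z) := by fun_prop
    unfold avg
    rw [lintegral_const_mul _ hm]
  have h3 : ∀ x, avg μ f x * g x = ∫⁻ z, f (x - z) * g x ∂μ := by
    intro x
    have hm : Measurable fun z : E N => f (x - z) := by fun_prop
    rw [h1, lintegral_mul_const _ hm]
  have h4 : ∫⁻ x, ∫⁻ z, f x * g (x + z) ∂μ = ∫⁻ z, (∫⁻ x, f x * g (x + z)) ∂μ := by
    refine lintegral_lintegral_swap (μ := volume) (ν := μ) (f := fun x z => f x * g (x + z))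
      (Measurable.aemeasurable ?_)
    unfold Function.uncurry
    fun_prop
  have h5 : ∫⁻ x, ∫⁻ z, f (x - z) * g x ∂μ = ∫⁻ z, (∫⁻ x, f (x - z) * g x) ∂μ := by
    refine lintegral_lintegral_swap (μ := volume) (ν := μ) (f := fun x z => f (x - z) * g x)
      (Measurable.aemeasurable ?_)
    unfold Function.uncurry
    fun_prop
  simp_rw [h2, h3]
  rw [h4, h5]
  refine lintegral_congr fun z => ?_
  rw [← lintegral_add_right_eq_self (fun x => f (x - z) * g x) z]
  simp only [add_sub_cancel_right]

theorem P_comm {N : ℕ} {μ : Measure (E N)} [IsProbabilityMeasure μ]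
    (hμ : μ.map (fun x => -x) = μ) {f g : E N → ℝ≥0∞} (hf : Measurable f) (hg : Measurable g) :
    P μ f g = P μ g f := by
  unfold P
  rw [A4_swap hμ hf hg]
  exact lintegral_congr fun x => mul_comm _ _

theorem P_conv {N : ℕ} {α β : Measure (E N)} [IsProbabilityMeasure α] [IsProbabilityMeasure β]
    (hα : α.map (fun x => -x) = α) {f g : E N → ℝ≥0∞} (hf : Measurable f) (hg : Measurable g) :
    P (α ∗ β) f g = ∫⁻ x, avg α f x * avg β g x := by
  unfold P
  rw [← A4_swap hα hf (measurable_avg hg)]
  exact lintegral_congr fun x => by rw [avg_conv α β hg]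

theorem P_le_sqn {N : ℕ} {μ : Measure (E N)} [IsProbabilityMeasure μ] {f : E N → ℝ≥0∞}
    (hf : Measurable f) : P μ f f ≤ sqn f := by
  have hx : ∀ x : E N, Measurable fun z : E N => f (x + z) := fun x => by fun_prop
  have h2 : ∀ x, f x * avg μ f x = ∫⁻ z, f x * f (x + z) ∂μ := by
    intro x
    unfold avg
    rw [lintegral_const_mul _ (hx x)]
  have h3 : 2 * P μ f f ≤ 2 * sqn f := by
    have hm : Measurable fun x : E N => f x * avg μ f x := hf.mul (measurable_avg hf)
    have h4 : ∀ x : E N, 2 * (f x * avg μ f x) ≤ f x ^ 2 + ∫⁻ z, f (x + z) ^ 2 ∂μ := by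
      intro x
      have hm' : Measurable fun z : E N => f x * f (x + z) := (hx x).const_mul _
      rw [h2, ← lintegral_const_mul _ hm']
      refine (lintegral_mono fun z => two_mul_le (f x) (f (x + z))).trans ?_
      rw [lintegral_add_left measurable_const, lintegral_const, measure_univ, mul_one]
    have h6 : ∫⁻ x : E N, ∫⁻ z, f (x + z) ^ 2 ∂μ = ∫⁻ z, (∫⁻ x : E N, f (x + z) ^ 2) ∂μ := by
      refine lintegral_lintegral_swap (μ := volume) (ν := μ) (f := fun x z => f (x + z) ^ 2)
        (Measurable.aemeasurable ?_)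
      unfold Function.uncurry
      fun_prop
    have h5 : ∀ z : E N, ∫⁻ x, f (x + z) ^ 2 = sqn f := fun z =>
      lintegral_add_right_eq_self (fun x => f x ^ 2) z
    unfold P
    rw [← lintegral_const_mul _ hm]
    refine (lintegral_mono h4).trans ?_
    rw [lintegral_add_left (hf.pow_const 2), h6]
    simp_rw [h5]
    rw [lintegral_const, measure_univ, mul_one, two_mul]
    exact le_rfl
  by_contra hlt
  rw [not_le] at hlt
  have h0 : (2 : ℝ≥0∞) ≠ 0 := by norm_num
  have ht : (2 : ℝ≥0∞) ≠ ∞ := by norm_num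
  have := (ENNReal.mul_lt_mul_iff_right h0 ht).mpr hlt
  exact absurd h3 (not_le.mpr this)

theorem P_translate {N : ℕ} {μ : Measure (E N)} (f g : E N → ℝ≥0∞) (y : E N) :
    P μ (fun x => f (x + y)) (fun x => g (x + y)) = P μ f g := by
  unfold P
  simp_rw [avg_translate]
  exact lintegral_add_right_eq_self (fun x => f x * avg μ g x) y

theorem P_add {N : ℕ} {μ : Measure (E N)} [IsProbabilityMeasure μ]
    (hμ : μ.map (fun x => -x) = μ) {f g : E N → ℝ≥0∞} (hf : Measurable f) (hg : Measurable g) :
    P μ (fun x => f x + g x) (fun x => f x + g x) = P μ f f + 2 * P μ f g + P μ g g := by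
  have h1 : P μ (fun x => f x + g x) (fun x => f x + g x) =
      P μ f f + P μ f g + (P μ g f + P μ g g) := by
    have hf' := measurable_avg (μ := μ) hf
    have hg' := measurable_avg (μ := μ) hg
    have m1 : Measurable fun x => f x * avg μ f x := hf.mul hf'
    have m2 : Measurable fun x => f x * avg μ g x := hf.mul hg'
    have m3 : Measurable fun x => g x * avg μ f x := hg.mul hf'
    have m4 : Measurable fun x => f x * avg μ f x + f x * avg μ g x := m1.add m2
    unfold P
    rw [← lintegral_add_left m1, ← lintegral_add_left m3, ← lintegral_add_left m4]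
    refine lintegral_congr fun x => ?_
    rw [avg_add hf]
    ring
  rw [h1, P_comm hμ hg hf]
  ring

theorem P_mono {N : ℕ} {μ : Measure (E N)} {f g f' g' : E N → ℝ≥0∞} (hf : ∀ x, f x ≤ f' x)
    (hg : ∀ x, g x ≤ g' x) : P μ f g ≤ P μ f' g' :=
  lintegral_mono fun x => mul_le_mul' (hf x) (avg_mono hg x)

end Kom92
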