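import Pool.Agent.LibKom92.A4

/-!
Task A5. (F1): `P (mu (A++B)) f f = ∫ (G_A f)(G_B f)`, `P (mu (scale 2 A)) f f = ∫ (G_A f)²`
(`mu_scale_add` with `2 = 1 + 1`, `P_conv`), and `2ab ≤ a² + b²` pointwise.
`P_psd`: `mu W = mu (scale (1/2) W) ∗ mu (scale (1/2) W)`, same pointwise inequality.
-/

set_option autoImplicit false

open MeasureTheory ProbabilityTheory Set
open scoped ENNReal NNReal

namespace Kom92

theorem a5_int {N : ℕ} {a b : E N → ℝ≥0∞} (ha : Measurable a) :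
    2 * ∫⁻ x, a x * b x ≤ (∫⁻ x, a x * a x) + ∫⁻ x, b x * b x := by
  have hm : Measurable (fun x => a x * a x) := ha.mul ha
  rw [← lintegral_const_mul' _ _ (by norm_num), ← lintegral_add_left hm]
  apply lintegral_mono
  intro x
  show 2 * (a x * b x) ≤ a x * a x + b x * b x
  have h := two_mul_le (a x) (b x)
  rwa [sq, sq] at h

theorem F1 {N : ℕ} (A B : List (ℝ≥0 × E N)) {f : E N → ℝ≥0∞} (hf : Measurable f) :
    2 * P (mu (A ++ B)) f f ≤ P (mu (scale 2 A)) f f + P (mu (scale 2 B)) f f := by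
  have e2 : ∀ C : List (ℝ≥0 × E N), mu (scale 2 C) = mu C ∗ mu C := by
    intro C
    have h : (2 : ℝ≥0) = 1 + 1 := by norm_num
    rw [h, mu_scale_add, scale_one]
  rw [mu_append, e2, e2, P_conv (mu_neg A) hf hf, P_conv (mu_neg A) hf hf,
    P_conv (mu_neg B) hf hf]
  exact a5_int (measurable_avg hf)

theorem P_psd {N : ℕ} (W : List (ℝ≥0 × E N)) {f g : E N → ℝ≥0∞} (hf : Measurable f)
    (hg : Measurable g) : 2 * P (mu W) f g ≤ P (mu W) f f + P (mu W) g g := by
  have e : mu W = mu (scale (1 / 2) W) ∗ mu (scale (1 / 2) W) := by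
    rw [← mu_scale_add]
    have h : (1 / 2 : ℝ≥0) + 1 / 2 = 1 := by
      rw [← NNReal.coe_inj]; push_cast; norm_num
    rw [h, scale_one]
  rw [e, P_conv (mu_neg _) hf hg, P_conv (mu_neg _) hf hf, P_conv (mu_neg _) hg hg]
  exact a5_int (measurable_avg hf)

end Kom92
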