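import Pool.Agent.LibKom92.A5

/-!
Task A6. `en W f` for normalised `f`, (F2) and the mixture inequality.
(F2): `a j := (P (mu (scale (j/n) W)) f f).toReal`; by `F1` with `A = scale (j/(2n)) W`,
`B = scale ((j+2)/(2n)) W`: `mu (A ++ B) = mu (scale ((j+1)/n) W)` (`mu_append`, `mu_scale_add`),
so `2 a (j+1) ≤ a j + a (j+2)`; `a 0 = 1` (`mu_scale_zero`, `avg_dirac`), `a n = (P (mu W) f f).toReal`.
`mix`: `F1` with `A = scale (1/(2n)) W`, `B = scale (1/(2m)) U`, then `F2` for both.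
-/

set_option autoImplicit false

open MeasureTheory ProbabilityTheory Set
open scoped ENNReal NNReal

namespace Kom92

/-- Energy of a normalised function. -/
noncomputable def en {N : ℕ} (W : List (ℝ≥0 × E N)) (f : E N → ℝ≥0∞) : ℝ :=
  1 - (P (mu W) f f).toReal

theorem convex_seq (a : ℕ → ℝ) (h : ∀ j, 2 * a (j + 1) ≤ a j + a (j + 2)) (n : ℕ) :
    a 0 - a n ≤ n * (a 0 - a 1) := by
  have h1 : ∀ k, a k - a (k + 1) ≤ a 0 - a 1 := by
    intro k
    induction k with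
    | zero => simp
    | succ k ih =>
      have := h k
      have e : k + 1 + 1 = k + 2 := rfl
      rw [e]
      linarith
  induction n with
  | zero => simp
  | succ n ih =>
    have := h1 n
    push_cast
    linarith

theorem A6_P_le {N : ℕ} (W : List (ℝ≥0 × E N)) {f : E N → ℝ≥0∞} (hf : Measurable f)
    (h1 : sqn f = 1) : P (mu W) f f ≤ 1 := by
  rw [← h1]
  exact P_le_sqn hf

theorem A6_P_ne_top {N : ℕ} (W : List (ℝ≥0 × E N)) {f : E N → ℝ≥0∞} (hf : Measurable f)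
    (h1 : sqn f = 1) : P (mu W) f f ≠ ∞ :=
  ((A6_P_le W hf h1).trans_lt ENNReal.one_lt_top).ne

theorem en_nonneg {N : ℕ} (W : List (ℝ≥0 × E N)) {f : E N → ℝ≥0∞} (hf : Measurable f)
    (h1 : sqn f = 1) : 0 ≤ en W f := by
  unfold en
  have h2 := ENNReal.toReal_mono ENNReal.one_ne_top (A6_P_le W hf h1)
  rw [ENNReal.toReal_one] at h2
  linarith

theorem en_le_one {N : ℕ} (W : List (ℝ≥0 × E N)) (f : E N → ℝ≥0∞) : en W f ≤ 1 := by
  unfold en
  have : 0 ≤ (P (mu W) f f).toReal := ENNReal.toReal_nonneg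
  linarith

/-- (F1) for real numbers. -/
theorem A6_F1 {N : ℕ} (A B : List (ℝ≥0 × E N)) {f : E N → ℝ≥0∞} (hf : Measurable f)
    (h1 : sqn f = 1) : 2 * (P (mu (A ++ B)) f f).toReal ≤
      (P (mu (scale 2 A)) f f).toReal + (P (mu (scale 2 B)) f f).toReal := by
  have h := F1 A B hf
  have a1 := A6_P_ne_top (scale 2 A) hf h1
  have a2 := A6_P_ne_top (scale 2 B) hf h1
  have h2 := ENNReal.toReal_mono (ENNReal.add_ne_top.mpr ⟨a1, a2⟩) h
  rw [ENNReal.toReal_add a1 a2, ENNReal.toReal_mul, ENNReal.toReal_ofNat] at h2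
  exact h2

theorem F2 {N : ℕ} (W : List (ℝ≥0 × E N)) {f : E N → ℝ≥0∞} (hf : Measurable f)
    (h1 : sqn f = 1) (n : ℕ) (hn : 1 ≤ n) :
    en W f ≤ n * en (scale (1 / (n : ℝ≥0)) W) f := by
  have hn0 : (n : ℝ≥0) ≠ 0 := by
    have : n ≠ 0 := by omega
    exact_mod_cast this
  have hc := convex_seq (fun j : ℕ => (P (mu (scale ((j : ℝ≥0) / n) W)) f f).toReal) (by
    intro j
    have h2 := A6_F1 (scale ((j : ℝ≥0) / (2 * n)) W) (scale (((j + 2 : ℕ) : ℝ≥0) / (2 * n)) W)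
      hf h1
    rw [scale_scale, scale_scale, mu_append, ← mu_scale_add] at h2
    have e1 : (j : ℝ≥0) / (2 * n) + ((j + 2 : ℕ) : ℝ≥0) / (2 * n) =
        ((j + 1 : ℕ) : ℝ≥0) / n := by
      push_cast
      field_simp
      ring
    have e2 : (2 : ℝ≥0) * ((j : ℝ≥0) / (2 * n)) = (j : ℝ≥0) / n := by
      field_simp
    have e3 : (2 : ℝ≥0) * (((j + 2 : ℕ) : ℝ≥0) / (2 * n)) = ((j + 2 : ℕ) : ℝ≥0) / n := by
      field_simp
    rw [e1, e2, e3] at h2
    exact h2) n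
  have e0 : (P (mu (scale (((0 : ℕ) : ℝ≥0) / n) W)) f f).toReal = 1 := by
    rw [Nat.cast_zero, zero_div, mu_scale_zero]
    have : P (Measure.dirac 0) f f = sqn f := by
      unfold P sqn
      congr 1
      funext x
      rw [avg_dirac hf, sq]
    rw [this, h1, ENNReal.toReal_one]
  have en' : (P (mu (scale ((n : ℝ≥0) / n) W)) f f).toReal = (P (mu W) f f).toReal := by
    rw [div_self hn0, scale_one]
  rw [e0, en'] at hc
  unfold en
  rw [Nat.cast_one] at hc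
  exact hc

theorem mix {N : ℕ} (W U : List (ℝ≥0 × E N)) {f : E N → ℝ≥0∞} (hf : Measurable f)
    (h1 : sqn f = 1) (n m : ℕ) (hn : 1 ≤ n) (hm : 1 ≤ m) :
    en W f / n + en U f / m ≤
      2 * en (scale (1 / (2 * (n : ℝ≥0))) W ++ scale (1 / (2 * (m : ℝ≥0))) U) f := by
  have hn0 : (n : ℝ≥0) ≠ 0 := by
    have : n ≠ 0 := by omega
    exact_mod_cast this
  have hm0 : (m : ℝ≥0) ≠ 0 := by
    have : m ≠ 0 := by omega
    exact_mod_cast this
  have h2 := A6_F1 (scale (1 / (2 * (n : ℝ≥0))) W) (scale (1 / (2 * (m : ℝ≥0))) U) hf h1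
  rw [scale_scale, scale_scale] at h2
  have e2 : (2 : ℝ≥0) * (1 / (2 * n)) = 1 / n := by
    field_simp
  have e3 : (2 : ℝ≥0) * (1 / (2 * m)) = 1 / m := by
    field_simp
  rw [e2, e3] at h2
  have h3 := F2 W hf h1 n hn
  have h4 := F2 U hf h1 m hm
  have hn' : (0 : ℝ) < n := by exact_mod_cast hn
  have hm' : (0 : ℝ) < m := by exact_mod_cast hm
  have h5 : en W f / n ≤ en (scale (1 / (n : ℝ≥0)) W) f := by
    rw [div_le_iff₀ hn']
    linarith
  have h6 : en U f / m ≤ en (scale (1 / (m : ℝ≥0)) U) f := by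
    rw [div_le_iff₀ hm']
    linarith
  have h7 : en (scale (1 / (n : ℝ≥0)) W) f + en (scale (1 / (m : ℝ≥0)) U) f ≤
      2 * en (scale (1 / (2 * (n : ℝ≥0))) W ++ scale (1 / (2 * (m : ℝ≥0))) U) f := by
    unfold en
    linarith
  linarith

end Kom92
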