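import Mathlib

/-!
Task B1. Separation in the plane.  Suppose no point of `S` is `≤ (w+η, v+η)`.  The set
`S° = {p | ∃ s ∈ S, s.1 < p.1 ∧ s.2 < p.2}` is open, convex (by `hc`), and does not contain
`(w+η, v+η)`; by `geometric_hahn_banach_open_point` there are `α, β` with
`α p.1 + β p.2 > α (w+η) + β (v+η)` on `S°`; `S°` is upward closed, so `α, β ≥ 0`, normalise
`α + β = 1`; choose rationals `n, m ≥ 1` with `(1/n, 1/m)` proportional to a vector close to
`(α, β)`; coordinates of points of `S` are in `[0, 1]`.  Contradiction.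
(Any other elementary proof is fine.)
-/

set_option autoImplicit false

open MeasureTheory ProbabilityTheory Set
open scoped ENNReal NNReal

namespace Kom92

/-- Minimax in the plane: if every nonnegative combination can be made small, both can. -/
theorem b1_sep2 (S : Set (ℝ × ℝ)) (hne : S.Nonempty)
    (hconv : ∀ p ∈ S, ∀ q ∈ S, ∀ t : ℝ, 0 ≤ t → t ≤ 1 →
      ∃ r ∈ S, r.1 ≤ t * p.1 + (1 - t) * q.1 ∧ r.2 ≤ t * p.2 + (1 - t) * q.2)
    (A B : ℝ)
    (h : ∀ a b : ℝ, 0 ≤ a → 0 ≤ b → 0 < a + b → ∀ η > 0,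
      ∃ p ∈ S, a * p.1 + b * p.2 ≤ a * A + b * B + η) :
    ∀ η > 0, ∃ p ∈ S, p.1 ≤ A + η ∧ p.2 ≤ B + η := by
  intro η hη
  by_contra hcon
  push Not at hcon
  set T : Set (ℝ × ℝ) := {z | ∃ p ∈ S, p.1 < z.1 ∧ p.2 < z.2} with hT
  have hTopen : IsOpen T := by
    have : T = ⋃ p ∈ S, {z : ℝ × ℝ | p.1 < z.1 ∧ p.2 < z.2} := by
      ext z
      simp only [hT, mem_ofPred_eq, mem_iUnion, exists_prop]
    rw [this]
    refine isOpen_biUnion fun p _ => ?_
    exact (isOpen_lt continuous_const continuous_fst).inter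
      (isOpen_lt continuous_const continuous_snd)
  have hTconv : Convex ℝ T := by
    rintro z ⟨p, hp, p1, p2⟩ w ⟨q, hq, q1, q2⟩ a b ha hb hab
    obtain ⟨r, hr, r1, r2⟩ := hconv p hp q hq a ha (by linarith)
    have hb' : 1 - a = b := by linarith
    rw [hb'] at r1 r2
    refine ⟨r, hr, ?_, ?_⟩
    · have : (a • z + b • w).1 = a * z.1 + b * w.1 := rfl
      rw [this]
      refine lt_of_le_of_lt r1 ?_
      rcases eq_or_lt_of_le ha with h0 | h0
      · have hb1 : b = 1 := by linarith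
        rw [← h0, hb1]; linarith
      · nlinarith [mul_lt_mul_of_pos_left p1 h0, mul_le_mul_of_nonneg_left q1.le hb]
    · have : (a • z + b • w).2 = a * z.2 + b * w.2 := rfl
      rw [this]
      refine lt_of_le_of_lt r2 ?_
      rcases eq_or_lt_of_le ha with h0 | h0
      · have hb1 : b = 1 := by linarith
        rw [← h0, hb1]; linarith
      · nlinarith [mul_lt_mul_of_pos_left p2 h0, mul_le_mul_of_nonneg_left q2.le hb]
  have hnot : ((A + η, B + η) : ℝ × ℝ) ∉ T := by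
    rintro ⟨p, hp, p1, p2⟩
    exact absurd (hcon p hp p1.le) (not_lt.2 p2.le)
  obtain ⟨f, hf⟩ := geometric_hahn_banach_open_point hTconv hTopen hnot
  set a := f (1, 0) with ha
  set b := f (0, 1) with hb
  have hfz : ∀ z : ℝ × ℝ, f z = z.1 * a + z.2 * b := by
    intro z
    have : z = z.1 • ((1, 0) : ℝ × ℝ) + z.2 • ((0, 1) : ℝ × ℝ) := by
      ext <;> simp
    conv_lhs => rw [this]
    rw [map_add, map_smul, map_smul, smul_eq_mul, smul_eq_mul]
  obtain ⟨p0, hp0⟩ := hne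
  have ha0 : a ≤ 0 := by
    by_contra hpos
    push Not at hpos
    -- go far in the first direction
    set M := |A + η| + |p0.1| + (|(B + η) * b| + |(p0.2 + 1) * b|) / a + 1 with hM
    have hmem : ((M, p0.2 + 1) : ℝ × ℝ) ∈ T := by
      refine ⟨p0, hp0, ?_, by simp⟩
      have : 0 ≤ (|(B + η) * b| + |(p0.2 + 1) * b|) / a := by positivity
      simp only [hM]
      linarith [le_abs_self p0.1, abs_nonneg (A + η)]
    have h1 := hf _ hmem
    rw [hfz, hfz] at h1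
    simp only at h1
    have h2 : M * a = (|A + η| + |p0.1| + 1) * a + (|(B + η) * b| + |(p0.2 + 1) * b|) := by
      rw [hM]; field_simp; ring
    rw [h2] at h1
    have h3 : (A + η) * a ≤ |A + η| * a := mul_le_mul_of_nonneg_right (le_abs_self _) hpos.le
    have h4 : 0 ≤ |p0.1| * a := by positivity
    linarith [le_abs_self ((B + η) * b), neg_abs_le ((p0.2 + 1) * b)]
  have hb0 : b ≤ 0 := by
    by_contra hpos
    push Not at hpos
    set M := |B + η| + |p0.2| + (|(A + η) * a| + |(p0.1 + 1) * a|) / b + 1 with hM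
    have hmem : ((p0.1 + 1, M) : ℝ × ℝ) ∈ T := by
      refine ⟨p0, hp0, by simp, ?_⟩
      have : 0 ≤ (|(A + η) * a| + |(p0.1 + 1) * a|) / b := by positivity
      simp only [hM]
      linarith [le_abs_self p0.2, abs_nonneg (B + η)]
    have h1 := hf _ hmem
    rw [hfz, hfz] at h1
    simp only at h1
    have h2 : M * b = (|B + η| + |p0.2| + 1) * b + (|(A + η) * a| + |(p0.1 + 1) * a|) := by
      rw [hM]; field_simp; ring
    rw [h2] at h1
    have h3 : (B + η) * b ≤ |B + η| * b := mul_le_mul_of_nonneg_right (le_abs_self _) hpos.le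
    have h4 : 0 ≤ |p0.2| * b := by positivity
    linarith [le_abs_self ((A + η) * a), neg_abs_le ((p0.1 + 1) * a)]
  have hab : 0 < -a + -b := by
    by_contra hle
    push Not at hle
    have h1 : a = 0 := by linarith
    have h2 : b = 0 := by linarith
    have hmem : ((p0.1 + 1, p0.2 + 1) : ℝ × ℝ) ∈ T := ⟨p0, hp0, by simp, by simp⟩
    have h3 := hf _ hmem
    rw [hfz, hfz, h1, h2] at h3
    simp at h3
  obtain ⟨p, hp, hle⟩ := h (-a) (-b) (by linarith) (by linarith) hab ((-a + -b) * η / 2)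
    (by positivity)
  have hmem : ((p.1 + η / 4, p.2 + η / 4) : ℝ × ℝ) ∈ T :=
    ⟨p, hp, by simp only; linarith, by simp only; linarith⟩
  have h3 := hf _ hmem
  rw [hfz, hfz] at h3
  simp only at h3
  nlinarith

theorem sep2 (S : Set (ℝ × ℝ)) (h01 : ∀ p ∈ S, 0 ≤ p.1 ∧ p.1 ≤ 1 ∧ 0 ≤ p.2 ∧ p.2 ≤ 1)
    (hc : ∀ p ∈ S, ∀ p' ∈ S, ∀ t : ℝ, 0 ≤ t → t ≤ 1 →
      ∃ p'' ∈ S, p''.1 ≤ (1 - t) * p.1 + t * p'.1 ∧ p''.2 ≤ (1 - t) * p.2 + t * p'.2)
    (w v : ℝ) (hw : 0 ≤ w) (hv : 0 ≤ v)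
    (h : ∀ n m : ℕ, 1 ≤ n → 1 ≤ m → ∀ η : ℝ, 0 < η →
      ∃ p ∈ S, p.1 / n + p.2 / m ≤ w / n + v / m + η) (η : ℝ) (hη : 0 < η) :
    ∃ p ∈ S, p.1 ≤ w + η ∧ p.2 ≤ v + η := by
  have hne : S.Nonempty := by
    obtain ⟨p, hp, _⟩ := h 1 1 le_rfl le_rfl 1 one_pos
    exact ⟨p, hp⟩
  have hconv : ∀ p ∈ S, ∀ q ∈ S, ∀ t : ℝ, 0 ≤ t → t ≤ 1 →
      ∃ r ∈ S, r.1 ≤ t * p.1 + (1 - t) * q.1 ∧ r.2 ≤ t * p.2 + (1 - t) * q.2 := by
    intro p hp q hq t h0 h1
    obtain ⟨r, hr, r1, r2⟩ := hc q hq p hp t h0 h1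
    exact ⟨r, hr, by linarith, by linarith⟩
  -- positive coefficients
  have hpos : ∀ a b : ℝ, 0 < a → 0 < b → ∀ η > 0,
      ∃ p ∈ S, a * p.1 + b * p.2 ≤ a * w + b * v + η := by
    intro a b ha hb η hη
    obtain ⟨k, hk⟩ := exists_nat_gt (2 * (a ^ 2 + b ^ 2) / η)
    have hk0 : (0 : ℝ) < k := lt_of_le_of_lt (by positivity) hk
    have key : ∀ c : ℝ, 0 < c → ∃ n : ℕ, 1 ≤ n ∧ (k : ℝ) / n ≤ c ∧ c - k / n ≤ c ^ 2 / k := by
      intro c hc0
      have hx : (0 : ℝ) < k / c := by positivity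
      refine ⟨⌈(k : ℝ) / c⌉₊, Nat.one_le_iff_ne_zero.2 (Nat.ceil_pos.2 hx).ne', ?_, ?_⟩
      · have h1 : (k : ℝ) / c ≤ ⌈(k : ℝ) / c⌉₊ := Nat.le_ceil _
        have h2 : (0 : ℝ) < ⌈(k : ℝ) / c⌉₊ := lt_of_lt_of_le hx h1
        rw [div_le_iff₀ h2]
        rw [div_le_iff₀ hc0] at h1
        linarith
      · have h1 : (⌈(k : ℝ) / c⌉₊ : ℝ) < k / c + 1 := Nat.ceil_lt_add_one hx.le
        have h2 : (k : ℝ) / c ≤ ⌈(k : ℝ) / c⌉₊ := Nat.le_ceil _
        have h3 : (0 : ℝ) < ⌈(k : ℝ) / c⌉₊ := lt_of_lt_of_le hx h2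
        set n : ℝ := (⌈(k : ℝ) / c⌉₊ : ℝ) with hn
        have h4 : c * n < k + c := by
          have := mul_lt_mul_of_pos_left h1 hc0
          have e : c * (k / c + 1) = k + c := by field_simp
          rw [e] at this
          exact this
        have h5 : (k : ℝ) ≤ c * n := by
          rw [div_le_iff₀ hc0] at h2
          linarith
        rw [sub_le_iff_le_add, div_add_div _ _ hk0.ne' h3.ne', le_div_iff₀ (by positivity)]
        nlinarith [mul_pos hc0 hk0, mul_pos hk0 h3, mul_nonneg hk0.le (sub_nonneg.2 h4.le),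
          mul_nonneg hc0.le (sub_nonneg.2 h5)]
    obtain ⟨n, hn1, hn2, hn3⟩ := key a ha
    obtain ⟨m, hm1, hm2, hm3⟩ := key b hb
    have hn0 : (0 : ℝ) < n := by exact_mod_cast hn1
    have hm0 : (0 : ℝ) < m := by exact_mod_cast hm1
    obtain ⟨p, hp, hle⟩ := h n m hn1 hm1 (η / (2 * k)) (by positivity)
    refine ⟨p, hp, ?_⟩
    obtain ⟨p1, p2, p3, p4⟩ := h01 p hp
    have h5 := mul_le_mul_of_nonneg_left hle hk0.le
    have e1 : (k : ℝ) * (p.1 / n + p.2 / m) = k / n * p.1 + k / m * p.2 := by ring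
    have e2 : (k : ℝ) * (w / n + v / m + η / (2 * k)) = k / n * w + k / m * v + η / 2 := by
      field_simp
    rw [e1, e2] at h5
    have h6 : (a ^ 2 + b ^ 2) / k ≤ η / 2 := by
      rw [div_lt_iff₀ hη] at hk
      rw [div_le_iff₀ hk0]
      linarith
    have h7 : (a ^ 2 + b ^ 2) / k = a ^ 2 / k + b ^ 2 / k := by ring
    have h8 : (a - k / n) * p.1 ≤ a ^ 2 / k := by
      have := mul_le_mul_of_nonneg_left p2 (sub_nonneg.2 hn2)
      linarith
    have h9 : (b - k / m) * p.2 ≤ b ^ 2 / k := by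
      have := mul_le_mul_of_nonneg_left p4 (sub_nonneg.2 hm2)
      linarith
    have h10 : k / n * w ≤ a * w := mul_le_mul_of_nonneg_right hn2 hw
    have h11 : k / m * v ≤ b * v := mul_le_mul_of_nonneg_right hm2 hv
    have h12 : (a - k / n) * p.1 = a * p.1 - k / n * p.1 := by ring
    have h13 : (b - k / m) * p.2 = b * p.2 - k / m * p.2 := by ring
    linarith
  refine b1_sep2 S hne hconv w v ?_ η hη
  intro a b ha hb _ η hη
  have hwv : 0 < w + v + 1 := by linarith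
  have hd : 0 < η / (2 * (w + v + 1)) := by positivity
  obtain ⟨p, hp, hle⟩ := hpos (a + η / (2 * (w + v + 1))) (b + η / (2 * (w + v + 1)))
    (by linarith) (by linarith) (η / 2) (by linarith)
  obtain ⟨p1, p2, p3, p4⟩ := h01 p hp
  refine ⟨p, hp, ?_⟩
  have e : η / (2 * (w + v + 1)) * (w + v) ≤ η / 2 := by
    rw [div_mul_eq_mul_div, div_le_iff₀ (by positivity)]
    nlinarith
  have h1 : 0 ≤ η / (2 * (w + v + 1)) * p.1 := by positivity
  have h2 : 0 ≤ η / (2 * (w + v + 1)) * p.2 := by positivity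
  nlinarith

end Kom92
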