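import Pool.Agent.LibKom92.A6

/-!
Task B2. (F5) Convexity: `f x = ((1-t) f0 x ^ 2 + t f1 x ^ 2)^(1/2)`; pointwise
`f x * f y ≥ (1-t) f0 x f0 y + t f1 x f1 y` (Cauchy-Schwarz), `sqn f = 1`.
(All values are finite: `≤ M`; e.g. use `ENNReal.rpow (1/2)` or `NNReal.sqrt` of `toNNReal`.)
-/

set_option autoImplicit false

open MeasureTheory ProbabilityTheory Set
open scoped ENNReal NNReal

namespace Kom92

variable {N : ℕ}

/-- `√(s f² + t g²)`. -/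
noncomputable def mixf (s t : ℝ≥0∞) (f g : E N → ℝ≥0∞) (x : E N) : ℝ≥0∞ :=
  (s * f x ^ 2 + t * g x ^ 2) ^ (1 / 2 : ℝ)

private theorem b2_sqrt_sq (a : ℝ≥0∞) : (a ^ (1 / 2 : ℝ)) ^ 2 = a := by
  rw [← ENNReal.rpow_natCast, ← ENNReal.rpow_mul]
  norm_num

private theorem b2_sq_sqrt (a : ℝ≥0∞) : (a ^ 2) ^ (1 / 2 : ℝ) = a := by
  rw [← ENNReal.rpow_natCast, ← ENNReal.rpow_mul]
  norm_num

theorem mixf_sq (s t : ℝ≥0∞) (f g : E N → ℝ≥0∞) (x : E N) :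
    mixf s t f g x ^ 2 = s * f x ^ 2 + t * g x ^ 2 := b2_sqrt_sq _

/-- Cauchy-Schwarz with two terms. -/
theorem mixf_mul_ge (s t : ℝ≥0∞) (f g : E N → ℝ≥0∞) (x y : E N) :
    s * (f x * f y) + t * (g x * g y) ≤ mixf s t f g x * mixf s t f g y := by
  have h1 : (s * (f x * f y) + t * (g x * g y)) ^ 2 ≤
      (s * f x ^ 2 + t * g x ^ 2) * (s * f y ^ 2 + t * g y ^ 2) := by
    have h := two_mul_le (f x * g y) (g x * f y)
    calc (s * (f x * f y) + t * (g x * g y)) ^ 2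
        = s ^ 2 * (f x * f y) ^ 2 + t ^ 2 * (g x * g y) ^ 2 +
          s * t * (2 * ((f x * g y) * (g x * f y))) := by ring
      _ ≤ s ^ 2 * (f x * f y) ^ 2 + t ^ 2 * (g x * g y) ^ 2 +
          s * t * ((f x * g y) ^ 2 + (g x * f y) ^ 2) := by gcongr
      _ = (s * f x ^ 2 + t * g x ^ 2) * (s * f y ^ 2 + t * g y ^ 2) := by ring
  have h2 := ENNReal.rpow_le_rpow h1 (by norm_num : (0 : ℝ) ≤ 1 / 2)
  rw [b2_sq_sqrt, ENNReal.mul_rpow_of_nonneg _ _ (by norm_num : (0 : ℝ) ≤ 1 / 2)] at h2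
  exact h2

theorem Test.mixf {C : Set (E N)} {s t : ℝ≥0} {f g : E N → ℝ≥0∞} (hf : Test C f)
    (hg : Test C g) : Test C (mixf s t f g) := by
  refine ⟨?_, ?_, ?_⟩
  · have h1 := hf.meas
    have h2 := hg.meas
    unfold Kom92.mixf
    fun_prop
  · intro x hx
    simp [Kom92.mixf, hf.supp x hx, hg.supp x hx]
  · obtain ⟨M, hM⟩ := hf.bdd
    obtain ⟨L, hL⟩ := hg.bdd
    refine ⟨(s * M ^ 2 + t * L ^ 2) ^ (1 / 2 : ℝ), fun x => ?_⟩
    have h1 : (s : ℝ≥0∞) * f x ^ 2 + t * g x ^ 2 ≤ s * (M : ℝ≥0∞) ^ 2 + t * (L : ℝ≥0∞) ^ 2 := by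
      gcongr
      · exact hM x
      · exact hL x
    have h2 := ENNReal.rpow_le_rpow h1 (by norm_num : (0 : ℝ) ≤ 1 / 2)
    refine h2.trans (le_of_eq ?_)
    rw [ENNReal.coe_rpow_of_nonneg _ (by norm_num : (0 : ℝ) ≤ 1 / 2)]
    push_cast
    rfl

theorem sqn_mixf {C : Set (E N)} {s t : ℝ≥0} {f g : E N → ℝ≥0∞} (hf : Test C f)
    (hg : Test C g) : sqn (mixf s t f g) = s * sqn f + t * sqn g := by
  have h1 := hf.meas
  have h2 := hg.meas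
  unfold sqn
  simp only [mixf_sq]
  rw [lintegral_add_left (by fun_prop), lintegral_const_mul _ (by fun_prop),
    lintegral_const_mul _ (by fun_prop)]

private theorem b2_P_eq (μ : Measure (E N)) {f : E N → ℝ≥0∞} (hf : Measurable f) :
    P μ f f = ∫⁻ x, ∫⁻ z, f x * f (x + z) ∂μ := by
  unfold P avg
  refine lintegral_congr fun x => ?_
  rw [lintegral_const_mul _ (by fun_prop)]

/-- Hidden convexity of the energy (concavity of `⟨f, G f⟩` in `f²`). -/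
theorem P_mixf_ge (μ : Measure (E N)) [SFinite μ] {C : Set (E N)} {s t : ℝ≥0} {f g : E N → ℝ≥0∞}
    (hf : Test C f) (hg : Test C g) :
    s * P μ f f + t * P μ g g ≤ P μ (mixf s t f g) (mixf s t f g) := by
  have h1 := hf.meas
  have h2 := hg.meas
  rw [b2_P_eq μ hf.meas, b2_P_eq μ hg.meas, b2_P_eq μ (Test.mixf hf hg).meas]
  have e1 : (s : ℝ≥0∞) * ∫⁻ x, ∫⁻ z, f x * f (x + z) ∂μ =
      ∫⁻ x, ∫⁻ z, s * (f x * f (x + z)) ∂μ := by
    rw [← lintegral_const_mul' _ _ ENNReal.coe_ne_top]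
    refine lintegral_congr fun x => ?_
    rw [lintegral_const_mul' _ _ ENNReal.coe_ne_top]
  have e2 : (t : ℝ≥0∞) * ∫⁻ x, ∫⁻ z, g x * g (x + z) ∂μ =
      ∫⁻ x, ∫⁻ z, t * (g x * g (x + z)) ∂μ := by
    rw [← lintegral_const_mul' _ _ ENNReal.coe_ne_top]
    refine lintegral_congr fun x => ?_
    rw [lintegral_const_mul' _ _ ENNReal.coe_ne_top]
  have m1 : Measurable fun p : E N × E N => (s : ℝ≥0∞) * (f p.1 * f (p.1 + p.2)) := by fun_prop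
  have m3 : Measurable fun x : E N => ∫⁻ z, (s : ℝ≥0∞) * (f x * f (x + z)) ∂μ :=
    m1.lintegral_prod_right'
  rw [e1, e2, ← lintegral_add_left m3]
  refine lintegral_mono fun x => ?_
  rw [← lintegral_add_left (by fun_prop)]
  exact lintegral_mono fun z => mixf_mul_ge _ _ f g x (x + z)

theorem conv_sqrt {N : ℕ} {C : Set (E N)} {f0 f1 : E N → ℝ≥0∞} (h0 : Test C f0) (h1 : Test C f1)
    (n0 : sqn f0 = 1) (n1 : sqn f1 = 1) (t : ℝ) (ht0 : 0 ≤ t) (ht1 : t ≤ 1) :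
    ∃ f, Test C f ∧ sqn f = 1 ∧
      ∀ W : List (ℝ≥0 × E N), en W f ≤ (1 - t) * en W f0 + t * en W f1 := by
  obtain ⟨b, hb⟩ : ∃ b : ℝ≥0, (b : ℝ) = t := ⟨⟨t, ht0⟩, rfl⟩
  obtain ⟨a, ha⟩ : ∃ a : ℝ≥0, (a : ℝ) = 1 - t := ⟨⟨1 - t, by linarith⟩, rfl⟩
  have hab : a + b = 1 := by
    apply NNReal.coe_injective
    push_cast
    rw [ha, hb]
    ring
  have hs : sqn (mixf a b f0 f1) = 1 := by
    rw [sqn_mixf h0 h1, n0, n1, mul_one, mul_one]
    exact_mod_cast hab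
  refine ⟨mixf a b f0 f1, Test.mixf h0 h1, hs, fun W => ?_⟩
  have hT := Test.mixf (s := a) (t := b) h0 h1
  have key := P_mixf_ge (mu W) (s := a) (t := b) h0 h1
  have l0 : P (mu W) f0 f0 ≤ 1 := by
    rw [← n0]; exact P_le_sqn h0.meas
  have l1 : P (mu W) f1 f1 ≤ 1 := by
    rw [← n1]; exact P_le_sqn h1.meas
  have l2 : P (mu W) (mixf a b f0 f1) (mixf a b f0 f1) ≤ 1 := by
    rw [← hs]; exact P_le_sqn hT.meas
  have e0 : P (mu W) f0 f0 ≠ ∞ := (l0.trans_lt ENNReal.one_lt_top).ne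
  have e1 : P (mu W) f1 f1 ≠ ∞ := (l1.trans_lt ENNReal.one_lt_top).ne
  have e2 : P (mu W) (mixf a b f0 f1) (mixf a b f0 f1) ≠ ∞ := (l2.trans_lt ENNReal.one_lt_top).ne
  have k2 := ENNReal.toReal_mono e2 key
  rw [ENNReal.toReal_add (ENNReal.mul_ne_top ENNReal.coe_ne_top e0)
    (ENNReal.mul_ne_top ENNReal.coe_ne_top e1), ENNReal.toReal_mul, ENNReal.toReal_mul,
    ENNReal.coe_toReal, ENNReal.coe_toReal, ha, hb] at k2
  unfold en
  nlinarith [k2]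

end Kom92
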