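import Pool.Agent.LibKom92.B1
import Pool.Agent.LibKom92.B2

/-!
Task B3. Two energies at once: `sep2` for
`S = {(en W f, en U f) | Test C f, sqn f = 1}`, `w = Λ q W`, `v = Λ q U`; `hc` is `conv_sqrt`; `h` is
`mix` and `K` for the list `scale (1/(2n)) W ++ scale (1/(2m)) U` (`q_append`, `q_scale`).
-/

set_option autoImplicit false

open MeasureTheory ProbabilityTheory Set
open scoped ENNReal NNReal

namespace Kom92

theorem two_energies {N : ℕ} {C : Set (E N)} {Λ : ℝ} (hΛ : 0 ≤ Λ) (hK : K Λ C)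
    (W U : List (ℝ≥0 × E N)) (η : ℝ) (hη : 0 < η) :
    ∃ f, Test C f ∧ sqn f = 1 ∧ en W f ≤ Λ * q W + η ∧ en U f ≤ Λ * q U + η := by
  have hsep := sep2 {p : ℝ × ℝ | ∃ f, Test C f ∧ sqn f = 1 ∧ p = (en W f, en U f)}
    (by
      rintro p ⟨f, hf, h1, rfl⟩
      exact ⟨en_nonneg W hf.meas h1, en_le_one W f, en_nonneg U hf.meas h1, en_le_one U f⟩)
    (by
      rintro p ⟨f0, hf0, h0, rfl⟩ p' ⟨f1, hf1, h1, rfl⟩ t ht0 ht1
      obtain ⟨f, hf, hf1', hf2⟩ := conv_sqrt hf0 hf1 h0 h1 t ht0 ht1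
      exact ⟨(en W f, en U f), ⟨f, hf, hf1', rfl⟩, hf2 W, hf2 U⟩)
    (Λ * q W) (Λ * q U) (mul_nonneg hΛ (q_nonneg W)) (mul_nonneg hΛ (q_nonneg U))
    (by
      intro n m hn hm η hη
      obtain ⟨f, hf, h1, h2⟩ := hK (scale (1 / (2 * (n : ℝ≥0))) W ++
        scale (1 / (2 * (m : ℝ≥0))) U) (η / 2) (by linarith)
      refine ⟨(en W f, en U f), ⟨f, hf, h1, rfl⟩, ?_⟩
      have h3 := mix W U hf.meas h1 n m hn hm
      have h4 : en (scale (1 / (2 * (n : ℝ≥0))) W ++ scale (1 / (2 * (m : ℝ≥0))) U) f ≤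
          Λ * q (scale (1 / (2 * (n : ℝ≥0))) W ++ scale (1 / (2 * (m : ℝ≥0))) U) + η / 2 := by
        unfold en
        linarith
      rw [q_append, q_scale, q_scale] at h4
      have hn' : (n : ℝ) ≠ 0 := by
        have : 0 < n := hn
        positivity
      have hm' : (m : ℝ) ≠ 0 := by
        have : 0 < m := hm
        positivity
      have h5 : 2 * (Λ * (((1 / (2 * (n : ℝ≥0)) : ℝ≥0) : ℝ) * q W +
          ((1 / (2 * (m : ℝ≥0)) : ℝ≥0) : ℝ) * q U) + η / 2) =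
          Λ * q W / n + Λ * q U / m + η := by
        push_cast
        field_simp
      calc en W f / n + en U f / m ≤ _ := h3
        _ ≤ _ := mul_le_mul_of_nonneg_left h4 (by norm_num)
        _ = _ := h5) η hη
  obtain ⟨p, ⟨f, hf, h1, rfl⟩, h2, h3⟩ := hsep
  exact ⟨f, hf, h1, h2, h3⟩

end Kom92
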