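import Pool.Agent.LibKom92.A6

/-!
Task B4. (F3) Shift bound.  `R z := ∫⁻ x, f x * f (x + z)`, `R z ≤ 1`.  Pointwise
`4ab + 4bc ≤ a² + c² + 4b² + 2ac` with `a = f x, b = f (x + s u), c = f (x + 6 u)`; integrating,
`4 R(su) + 4 R((6-s)u) ≤ 6 + 2 R(6u)`.  `P (mu [(1,u)]) f f = ∫ R(su) dγ(s)` (Tonelli), `γ` the
standard Gaussian.  Integrate the pointwise inequality (or take a good `s`) over `s ∈ [2,4]`, where
the density of `γ` is at least `φ(4) > 0`:
`1 - R(6u) ≤ 2 (1 - R(su)) + 2 (1 - R((6-s)u))` for every `s`, so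
`2 (1 - R(6u)) ≤ 4 ∫_2^4 (1 - R(su)) ds ≤ (4/φ(4)) (1 - P)`.  (If the right side is large there is
nothing to prove.)
-/

set_option autoImplicit false

open MeasureTheory ProbabilityTheory Set
open scoped ENNReal NNReal

namespace Kom92

theorem shift_pointwise (a b c : ℝ≥0∞) :
    4 * (a * b) + 4 * (b * c) ≤ a ^ 2 + c ^ 2 + 4 * b ^ 2 + 2 * (a * c) := by
  by_cases ha : a = ∞
  · simp [ha]
  by_cases hc : c = ∞
  · simp [hc]
  by_cases hb : b = ∞
  · have h4 : (4 : ℝ≥0∞) * ∞ ^ 2 = ∞ := by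
      rw [ENNReal.top_pow (by norm_num)]
      exact ENNReal.mul_top (by norm_num)
    rw [hb, h4]
    simp
  lift a to ℝ≥0 using ha
  lift b to ℝ≥0 using hb
  lift c to ℝ≥0 using hc
  have h : (4 * (a * b) + 4 * (b * c) : ℝ≥0) ≤ a ^ 2 + c ^ 2 + 4 * b ^ 2 + 2 * (a * c) := by
    rw [← NNReal.coe_le_coe]
    push_cast
    nlinarith [sq_nonneg ((a : ℝ) + c - 2 * b)]
  exact_mod_cast h

/-- The correlation function. -/
noncomputable def b4R {N : ℕ} (u : E N) (f : E N → ℝ≥0∞) (s : ℝ) : ℝ≥0∞ :=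
  ∫⁻ x, f x * f (x + s • u)

theorem b4_meas2 {N : ℕ} (u : E N) {f : E N → ℝ≥0∞} (hf : Measurable f) :
    Measurable (fun p : ℝ × E N => f p.2 * f (p.2 + p.1 • u)) := by
  refine (hf.comp measurable_snd).mul (hf.comp ?_)
  exact (continuous_snd.add (continuous_fst.smul continuous_const)).measurable

theorem b4_measR {N : ℕ} (u : E N) {f : E N → ℝ≥0∞} (hf : Measurable f) :
    Measurable (b4R u f) :=
  (b4_meas2 u hf).lintegral_prod_right'

theorem b4_two_mul_le (a b : ℝ≥0∞) : 2 * (a * b) ≤ a ^ 2 + b ^ 2 := by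
  by_cases ha : a = ∞
  · simp [ha]
  by_cases hb : b = ∞
  · simp [hb]
  lift a to ℝ≥0 using ha
  lift b to ℝ≥0 using hb
  have h : (2 * (a * b) : ℝ≥0) ≤ a ^ 2 + b ^ 2 := by
    rw [← NNReal.coe_le_coe]
    push_cast
    nlinarith [sq_nonneg ((a : ℝ) - b)]
  exact_mod_cast h

theorem b4_R_le {N : ℕ} (u : E N) {f : E N → ℝ≥0∞} (hf : Measurable f) (h1 : sqn f = 1)
    (s : ℝ) : b4R u f s ≤ 1 := by
  have hm : Measurable fun x : E N => f (x + s • u) := hf.comp (measurable_add_const _)
  have h2 : 2 * b4R u f s ≤ 2 := by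
    unfold b4R
    have hmm : Measurable fun x : E N => f x * f (x + s • u) := hf.mul hm
    rw [← lintegral_const_mul _ hmm]
    calc ∫⁻ x, 2 * (f x * f (x + s • u)) ≤ ∫⁻ x, (f x ^ 2 + f (x + s • u) ^ 2) :=
          lintegral_mono fun x => b4_two_mul_le _ _
      _ = (∫⁻ x, f x ^ 2) + ∫⁻ x, f (x + s • u) ^ 2 := lintegral_add_left (hf.pow_const 2) _
      _ = sqn f + sqn f := by
          congr 1
          exact lintegral_add_right_eq_self (fun x => f x ^ 2) (s • u)
      _ = 2 := by rw [h1]; norm_num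
  have h3 : (2 : ℝ≥0∞) * b4R u f s ≤ 2 * 1 := by simpa using h2
  exact (ENNReal.mul_le_mul_iff_right (by norm_num) (by norm_num)).1 h3

theorem b4_P {N : ℕ} (u : E N) {f : E N → ℝ≥0∞} (hf : Measurable f) :
    P (mu [(1, u)]) f f = ∫⁻ s, b4R u f s ∂(gaussianReal 0 1) := by
  have hmu : mu [((1 : ℝ≥0), u)] = lin 1 u := by
    show (lin 1 u) ∗ (Measure.dirac 0) = lin 1 u
    have : IsProbabilityMeasure (lin (1 : ℝ≥0) u) := by
      unfold lin
      exact Measure.isProbabilityMeasure_map
        ((continuous_id.smul continuous_const).measurable.aemeasurable)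
    exact Measure.conv_dirac_zero _
  rw [hmu]
  have hsm : Measurable fun s : ℝ => s • u := (continuous_id.smul continuous_const).measurable
  unfold P avg lin b4R
  rw [lintegral_lintegral_swap]
  · refine lintegral_congr fun x => ?_
    have hx : Measurable fun z : E N => f (x + z) := hf.comp (measurable_const_add x)
    rw [lintegral_map hx hsm, lintegral_const_mul]
    exact hx.comp hsm
  · exact (b4_meas2 u hf).aemeasurable

theorem b4_ineq {N : ℕ} (u : E N) {f : E N → ℝ≥0∞} (hf : Measurable f) (h1 : sqn f = 1)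
    (s : ℝ) : 4 * b4R u f s + 4 * b4R u f (6 - s) ≤ 6 + 2 * b4R u f 6 := by
  have hm : ∀ t : ℝ, Measurable fun x : E N => f (x + t • u) :=
    fun t => hf.comp (measurable_add_const _)
  have e1 : b4R u f (6 - s) = ∫⁻ x, f (x + s • u) * f (x + (6 : ℝ) • u) := by
    unfold b4R
    rw [← lintegral_add_right_eq_self (fun x => f x * f (x + (6 - s) • u)) (s • u)]
    refine lintegral_congr fun x => ?_
    rw [add_assoc, ← add_smul, add_sub_cancel]
  have e2 : ∀ t : ℝ, ∫⁻ x, f (x + t • u) ^ 2 = 1 := by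
    intro t
    rw [lintegral_add_right_eq_self (fun x => f x ^ 2) (t • u)]
    exact h1
  have h0 : ∫⁻ x, f x ^ 2 = 1 := h1
  have hA : Measurable fun x : E N => f x * f (x + s • u) := hf.mul (hm s)
  have hB : Measurable fun x : E N => f (x + s • u) * f (x + (6 : ℝ) • u) := (hm s).mul (hm 6)
  have hC : Measurable fun x : E N => f x * f (x + (6 : ℝ) • u) := hf.mul (hm 6)
  have hA4 : Measurable fun x : E N => 4 * (f x * f (x + s • u)) := hA.const_mul 4
  have hq0 : Measurable fun x : E N => f x ^ 2 := hf.pow_const 2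
  have hq6 : Measurable fun x : E N => f (x + (6 : ℝ) • u) ^ 2 := (hm 6).pow_const 2
  have hqs : Measurable fun x : E N => f (x + s • u) ^ 2 := (hm s).pow_const 2
  have hqs4 : Measurable fun x : E N => 4 * f (x + s • u) ^ 2 := hqs.const_mul 4
  have hq06 : Measurable fun x : E N => f x ^ 2 + f (x + (6 : ℝ) • u) ^ 2 := hq0.add hq6
  have hq06s : Measurable fun x : E N =>
      f x ^ 2 + f (x + (6 : ℝ) • u) ^ 2 + 4 * f (x + s • u) ^ 2 := hq06.add hqs4
  rw [e1]
  unfold b4R
  calc 4 * (∫⁻ x, f x * f (x + s • u)) + 4 * ∫⁻ x, f (x + s • u) * f (x + (6 : ℝ) • u)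
      = ∫⁻ x, (4 * (f x * f (x + s • u)) + 4 * (f (x + s • u) * f (x + (6 : ℝ) • u))) := by
        rw [lintegral_add_left hA4, lintegral_const_mul _ hA, lintegral_const_mul _ hB]
    _ ≤ ∫⁻ x, (f x ^ 2 + f (x + (6 : ℝ) • u) ^ 2 + 4 * f (x + s • u) ^ 2
          + 2 * (f x * f (x + (6 : ℝ) • u))) := lintegral_mono fun x => shift_pointwise _ _ _
    _ = 1 + 1 + 4 * 1 + 2 * ∫⁻ x, f x * f (x + (6 : ℝ) • u) := by
        rw [lintegral_add_left hq06s, lintegral_add_left hq06, lintegral_add_left hq0,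
          lintegral_const_mul _ hqs, lintegral_const_mul _ hC, e2, e2, h0]
    _ = 6 + 2 * ∫⁻ x, f x * f (x + (6 : ℝ) • u) := by norm_num

theorem shift_bound : ∃ κ : ℝ, 0 < κ ∧ ∀ (N : ℕ) (u : E N) (f : E N → ℝ≥0∞), Measurable f →
    sqn f = 1 → 1 - κ * en [(1, u)] f ≤ (∫⁻ x, f x * f (x + (6 : ℝ) • u)).toReal := by
  have hφ : 0 < gaussianPDFReal 0 1 4 := gaussianPDFReal_pos 0 1 4 one_ne_zero
  refine ⟨2 / gaussianPDFReal 0 1 4, by positivity, ?_⟩
  intro N u f hf h1
  set R := b4R u f with hR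
  have hRm : Measurable R := b4_measR u hf
  have hRle : ∀ s, R s ≤ 1 := b4_R_le u hf h1
  have hRt : ∀ s, R s ≠ ∞ := fun s => ne_top_of_le_ne_top ENNReal.one_ne_top (hRle s)
  set r : ℝ → ℝ := fun s => (R s).toReal with hr
  have hr0 : ∀ s, 0 ≤ r s := fun s => ENNReal.toReal_nonneg
  have hr1 : ∀ s, r s ≤ 1 := fun s => by
    have := ENNReal.toReal_mono ENNReal.one_ne_top (hRle s)
    simpa using this
  have hrm : Measurable r := hRm.ennreal_toReal
  have hrint : ∀ (ν : Measure ℝ), IsFiniteMeasure ν → Integrable r ν := by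
    intro ν hν
    refine Integrable.of_bound hrm.aestronglyMeasurable 1 (Filter.Eventually.of_forall fun s => ?_)
    rw [Real.norm_eq_abs, abs_of_nonneg (hr0 s)]
    exact hr1 s
  have hP : (P (mu [(1, u)]) f f).toReal = ∫ s, r s ∂(gaussianReal 0 1) := by
    rw [b4_P u hf, integral_toReal hRm.aemeasurable
      (Filter.Eventually.of_forall fun s => (hRt s).lt_top)]
  have hineq : ∀ s, 1 - r 6 ≤ 2 * (1 - r s) + 2 * (1 - r (6 - s)) := by
    intro s
    have h := b4_ineq u hf h1 s
    have h' := ENNReal.toReal_mono (by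
      refine ENNReal.add_ne_top.2 ⟨by norm_num, ENNReal.mul_ne_top (by norm_num) (hRt 6)⟩) h
    rw [ENNReal.toReal_add (ENNReal.mul_ne_top (by norm_num) (hRt s))
      (ENNReal.mul_ne_top (by norm_num) (hRt (6 - s))),
      ENNReal.toReal_add (by norm_num) (ENNReal.mul_ne_top (by norm_num) (hRt 6)),
      ENNReal.toReal_mul, ENNReal.toReal_mul, ENNReal.toReal_mul] at h'
    norm_num at h'
    simp only [hr]
    linarith
  -- the integral over `[2, 4]`
  have hI : ∫ s in (2 : ℝ)..4, (1 - r (6 - s)) = ∫ s in (2 : ℝ)..4, (1 - r s) := by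
    rw [intervalIntegral.integral_comp_sub_left (fun s => 1 - r s) 6]
    norm_num
  have hii : ∀ a b : ℝ, IntervalIntegrable (fun s => 1 - r s) volume a b := by
    intro a b
    refine (intervalIntegrable_const).sub ?_
    constructor
    · exact hrint _ inferInstance
    · exact hrint _ inferInstance
  have hii' : IntervalIntegrable (fun s => 1 - r (6 - s)) volume 2 4 := by
    have := (hii 4 2).comp_sub_left 6
    norm_num at this
    exact this
  have hJ : 2 * (1 - r 6) ≤ 4 * ∫ s in (2 : ℝ)..4, (1 - r s) := by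
    have h := intervalIntegral.integral_mono_on (a := 2) (b := 4) (by norm_num)
      (f := fun _ => 1 - r 6) (g := fun s => 2 * (1 - r s) + 2 * (1 - r (6 - s)))
      intervalIntegrable_const (((hii 2 4).const_mul 2).add (hii'.const_mul 2))
      (fun s _ => hineq s)
    rw [intervalIntegral.integral_add ((hii 2 4).const_mul 2) (hii'.const_mul 2),
      intervalIntegral.integral_const_mul, intervalIntegral.integral_const_mul, hI,
      intervalIntegral.integral_const] at h
    norm_num at h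
    linarith
  have hK : gaussianPDFReal 0 1 4 * ∫ s in (2 : ℝ)..4, (1 - r s) ≤ 1 - ∫ s, r s ∂(gaussianReal 0 1) := by
    have e : 1 - ∫ s, r s ∂(gaussianReal 0 1) = ∫ s, (1 - r s) ∂(gaussianReal 0 1) := by
      rw [integral_sub (integrable_const _) (hrint _ inferInstance)]
      simp
    rw [e, integral_gaussianReal_eq_integral_smul one_ne_zero,
      intervalIntegral.integral_of_le (by norm_num), ← integral_const_mul]
    have hg : Integrable (fun s => gaussianPDFReal 0 1 s • (1 - r s)) := by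
      simp only [smul_eq_mul]
      refine (integrable_gaussianPDFReal 0 1).mul_bdd (c := 1) ?_ ?_
      · exact (measurable_const.sub hrm).aestronglyMeasurable
      · refine Filter.Eventually.of_forall fun s => ?_
        rw [Real.norm_eq_abs, abs_of_nonneg (by linarith [hr1 s])]
        linarith [hr0 s]
    calc ∫ s in Ioc (2 : ℝ) 4, gaussianPDFReal 0 1 4 * (1 - r s)
        ≤ ∫ s in Ioc (2 : ℝ) 4, gaussianPDFReal 0 1 s • (1 - r s) := by
          refine setIntegral_mono_on ?_ hg.integrableOn measurableSet_Ioc ?_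
          · exact ((integrable_const _).sub (hrint _ inferInstance)).const_mul _
          · intro s hs
            rw [smul_eq_mul]
            refine mul_le_mul_of_nonneg_right ?_ (by linarith [hr1 s])
            unfold gaussianPDFReal
            refine mul_le_mul_of_nonneg_left ?_ (by positivity)
            refine Real.exp_le_exp.2 ?_
            have h2 : 0 < s := lt_trans (by norm_num) hs.1
            have h3 := hs.2
            norm_num
            nlinarith
      _ ≤ ∫ s, gaussianPDFReal 0 1 s • (1 - r s) := by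
          refine setIntegral_le_integral hg (Filter.Eventually.of_forall fun s => ?_)
          show 0 ≤ gaussianPDFReal 0 1 s • (1 - r s)
          rw [smul_eq_mul]
          exact mul_nonneg (gaussianPDFReal_nonneg _ _ _) (by linarith [hr1 s])
  have hfin : (∫⁻ x, f x * f (x + (6 : ℝ) • u)).toReal = r 6 := rfl
  rw [hfin]
  unfold en
  rw [hP]
  set J := ∫ s in (2 : ℝ)..4, (1 - r s) with hJdef
  set D := 1 - ∫ s, r s ∂(gaussianReal 0 1) with hD
  have h5 : J ≤ D / gaussianPDFReal 0 1 4 := by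
    rw [le_div_iff₀ hφ]
    linarith
  have h6 : 2 / gaussianPDFReal 0 1 4 * D = 2 * (D / gaussianPDFReal 0 1 4) := by ring
  rw [h6]
  linarith

end Kom92
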