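import Pool.Agent.LibKom92.A6

/-!
Task B5. (F4) Minimum and maximum.
`minmax_P`: pointwise `a a' + b b' ≤ min(a,b) min(a',b') + max(a,b) max(a',b')`.
`min_big`: `a b = min * max ≤ (5/8) min² + (2/5) max²` pointwise, so with `s = ∫ min²`,
`∫ max² = 2 - s`: `97/100 ≤ (5/8) s + (2/5)(2 - s)`, so `s ≥ 3/4`; `s ≤ 1` since `min ≤ a`.
-/

set_option autoImplicit false

open MeasureTheory ProbabilityTheory Set
open scoped ENNReal NNReal

namespace Kom92

theorem B5_cross {a b a' b' : ℝ≥0∞} (h : a ≤ b) (h' : b' ≤ a') :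
    a * a' + b * b' ≤ a * b' + b * a' := by
  obtain ⟨c, rfl⟩ := exists_add_of_le h
  obtain ⟨d, rfl⟩ := exists_add_of_le h'
  calc a * (b' + d) + (a + c) * b' = a * b' + (a * d + (a + c) * b') := by ring
    _ ≤ a * b' + ((a + c) * d + (a + c) * b') := by
        gcongr
    _ = a * b' + (a + c) * (b' + d) := by ring

theorem minmax_pointwise (a b a' b' : ℝ≥0∞) :
    a * a' + b * b' ≤ min a b * min a' b' + max a b * max a' b' := by
  rcases le_total a b with h | h <;> rcases le_total a' b' with h' | h'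
  · rw [min_eq_left h, min_eq_left h', max_eq_right h, max_eq_right h']
  · rw [min_eq_left h, min_eq_right h', max_eq_right h, max_eq_left h']
    exact B5_cross h h'
  · rw [min_eq_right h, min_eq_left h', max_eq_left h, max_eq_right h']
    have := B5_cross h h'
    calc a * a' + b * b' = b * b' + a * a' := by ring
      _ ≤ b * a' + a * b' := this
  · rw [min_eq_right h, min_eq_right h', max_eq_left h, max_eq_left h', add_comm]

theorem B5_mul_avg {N : ℕ} {μ : Measure (E N)} {f g : E N → ℝ≥0∞} (hg : Measurable g)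
    (x : E N) : f x * avg μ g x = ∫⁻ z, f x * g (x + z) ∂μ := by
  unfold avg
  rw [lintegral_const_mul]
  exact hg.comp (measurable_const_add x)

theorem minmax_P {N : ℕ} {μ : Measure (E N)} [IsProbabilityMeasure μ] {f g : E N → ℝ≥0∞}
    (hf : Measurable f) (hg : Measurable g) :
    P μ f f + P μ g g ≤ P μ (fun x => min (f x) (g x)) (fun x => min (f x) (g x)) +
      P μ (fun x => max (f x) (g x)) (fun x => max (f x) (g x)) := by
  have hmin : Measurable (fun x => min (f x) (g x)) := hf.min hg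
  have hmax : Measurable (fun x => max (f x) (g x)) := hf.max hg
  have m1 : Measurable (fun x => f x * avg μ f x) := hf.mul (measurable_avg hf)
  have m2 : Measurable (fun x => min (f x) (g x) * avg μ (fun x => min (f x) (g x)) x) :=
    hmin.mul (measurable_avg hmin)
  unfold P
  rw [← lintegral_add_left m1, ← lintegral_add_left m2]
  refine lintegral_mono fun x => ?_
  have e1 := B5_mul_avg (μ := μ) (f := f) hf x
  have e2 := B5_mul_avg (μ := μ) (f := g) hg x
  have e3 := B5_mul_avg (μ := μ) (f := fun x => min (f x) (g x)) hmin x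
  have e4 := B5_mul_avg (μ := μ) (f := fun x => max (f x) (g x)) hmax x
  rw [e1, e2, e3, e4]
  have m3 : Measurable (fun z => f x * f (x + z)) :=
    (hf.comp (measurable_const_add x)).const_mul _
  have m4 : Measurable (fun z => min (f x) (g x) * min (f (x + z)) (g (x + z))) :=
    (hmin.comp (measurable_const_add x)).const_mul _
  rw [← lintegral_add_left m3, ← lintegral_add_left m4]
  exact lintegral_mono fun z => minmax_pointwise _ _ _ _

theorem minmax_sqn {N : ℕ} {f g : E N → ℝ≥0∞} (hf : Measurable f) (hg : Measurable g) :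
    sqn (fun x => min (f x) (g x)) + sqn (fun x => max (f x) (g x)) = sqn f + sqn g := by
  have hmin : Measurable (fun x => min (f x) (g x)) := hf.min hg
  unfold sqn
  rw [← lintegral_add_left (hmin.pow_const 2), ← lintegral_add_left (hf.pow_const 2)]
  refine lintegral_congr fun x => ?_
  rcases le_total (f x) (g x) with h | h
  · simp only [min_eq_left h, max_eq_right h]
  · simp only [min_eq_right h, max_eq_left h, add_comm]

/-- `a b ≤ (5/8) a² + (2/5) b²`. -/
theorem B5_amgm (a b : ℝ≥0∞) : a * b ≤ (5 / 8) * a ^ 2 + (2 / 5) * b ^ 2 := by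
  have h58 : (5 / 8 : ℝ≥0∞) ≠ 0 := by
    simp [ENNReal.div_eq_zero_iff]
  have h25 : (2 / 5 : ℝ≥0∞) ≠ 0 := by
    simp [ENNReal.div_eq_zero_iff]
  rcases eq_or_ne a ∞ with rfl | ha
  · have : (5 / 8 : ℝ≥0∞) * ∞ ^ 2 = ∞ := by
      rw [ENNReal.top_pow (by norm_num), ENNReal.mul_top h58]
    rw [this, top_add]
    exact le_top
  rcases eq_or_ne b ∞ with rfl | hb
  · have : (2 / 5 : ℝ≥0∞) * ∞ ^ 2 = ∞ := by
      rw [ENNReal.top_pow (by norm_num), ENNReal.mul_top h25]
    rw [this, add_top]
    exact le_top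
  lift a to ℝ≥0 using ha
  lift b to ℝ≥0 using hb
  have h1 : (5 / 8 : ℝ≥0∞) = ((5 / 8 : ℝ≥0) : ℝ≥0∞) := by
    rw [ENNReal.coe_div (by norm_num)]; norm_num
  have h2 : (2 / 5 : ℝ≥0∞) = ((2 / 5 : ℝ≥0) : ℝ≥0∞) := by
    rw [ENNReal.coe_div (by norm_num)]; norm_num
  rw [h1, h2]
  norm_cast
  rw [← NNReal.coe_le_coe]
  push_cast
  nlinarith [sq_nonneg ((5 : ℝ) * a - 4 * b)]

theorem min_big {N : ℕ} {f g : E N → ℝ≥0∞} (hf : Measurable f) (hg : Measurable g)
    (h1 : sqn f = 1) (h2 : sqn g = 1) (h : 97 / 100 ≤ (∫⁻ x, f x * g x).toReal) :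
    3 / 4 ≤ (sqn (fun x => min (f x) (g x))).toReal ∧
      (sqn (fun x => min (f x) (g x))).toReal ≤ 1 := by
  have hmin : Measurable (fun x => min (f x) (g x)) := hf.min hg
  have hmax : Measurable (fun x => max (f x) (g x)) := hf.max hg
  set s := sqn (fun x => min (f x) (g x)) with hs
  set t := sqn (fun x => max (f x) (g x)) with ht
  have hst : s + t = 2 := by
    rw [hs, ht, minmax_sqn hf hg, h1, h2]; norm_num
  have hs1 : s ≤ 1 := by
    rw [hs, ← h1]
    unfold sqn
    refine lintegral_mono fun x => ?_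
    gcongr
    exact min_le_left _ _
  have hsf : s ≠ ∞ := ne_top_of_le_ne_top ENNReal.one_ne_top hs1
  have htf : t ≠ ∞ := by
    intro h
    rw [h, add_top] at hst
    exact absurd hst.symm (by norm_num)
  have hsum : s.toReal + t.toReal = 2 := by
    rw [← ENNReal.toReal_add hsf htf, hst]; norm_num
  have hint : (∫⁻ x, f x * g x) ≤ (5 / 8) * s + (2 / 5) * t := by
    rw [hs, ht]
    unfold sqn
    rw [← lintegral_const_mul _ (hmin.pow_const 2), ← lintegral_const_mul _ (hmax.pow_const 2),
      ← lintegral_add_left ((hmin.pow_const 2).const_mul _)]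
    refine lintegral_mono fun x => ?_
    calc f x * g x = min (f x) (g x) * max (f x) (g x) := by
          rw [min_mul_max]
      _ ≤ _ := B5_amgm _ _
  have h58 : (5 / 8 : ℝ≥0∞) ≠ ∞ := by
    exact ENNReal.div_ne_top (by norm_num) (by norm_num)
  have h25 : (2 / 5 : ℝ≥0∞) ≠ ∞ := by
    exact ENNReal.div_ne_top (by norm_num) (by norm_num)
  have hfin : (5 / 8) * s + (2 / 5) * t ≠ ∞ :=
    ENNReal.add_ne_top.2 ⟨ENNReal.mul_ne_top h58 hsf, ENNReal.mul_ne_top h25 htf⟩
  have hreal : (∫⁻ x, f x * g x).toReal ≤ (5 / 8) * s.toReal + (2 / 5) * t.toReal := by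
    have := ENNReal.toReal_mono hfin hint
    rw [ENNReal.toReal_add (ENNReal.mul_ne_top h58 hsf) (ENNReal.mul_ne_top h25 htf),
      ENNReal.toReal_mul, ENNReal.toReal_mul] at this
    simpa [ENNReal.toReal_div] using this
  refine ⟨by linarith, ?_⟩
  have := ENNReal.toReal_mono ENNReal.one_ne_top hs1
  simpa using this

end Kom92
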