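import Mathlib

/-! Task PL (helper46). Prékopa-Leindler with weights `1/3`, `2/3` (integer powers, `ENNReal`). Adapted
from helper35's midpoint version (LibSP74.PL1-3). -/

set_option autoImplicit false

open MeasureTheory Set
open scoped ENNReal

namespace Kom92.PLaux

/-! ### Brunn-Minkowski on the line -/

/-- the volume of the image of a set under an affine map -/
theorem vol_affine (K : Set ℝ) (b : ℝ) {c : ℝ} (hc : 0 < c) :
    volume ((fun x => c * x + b) '' K) = ENNReal.ofReal c * volume K := by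
  have e : (fun x : ℝ => c * x + b) '' K =
      (fun y : ℝ => c⁻¹ * y) ⁻¹' ((fun y : ℝ => y + -(c⁻¹ * b)) ⁻¹' K) := by
    ext y
    constructor
    · rintro ⟨x, hx, rfl⟩
      change c⁻¹ * (c * x + b) + -(c⁻¹ * b) ∈ K
      rw [show c⁻¹ * (c * x + b) + -(c⁻¹ * b) = x by field_simp; ring]
      exact hx
    · intro hy
      refine ⟨c⁻¹ * y + -(c⁻¹ * b), hy, ?_⟩
      show c * (c⁻¹ * y + -(c⁻¹ * b)) + b = y
      field_simp
      ring
  rw [e, Real.volume_preimage_mul_left (inv_ne_zero hc.ne'), measure_preimage_add_right, inv_inv,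
    abs_of_pos hc]

theorem bm_compact {K L S : Set ℝ} (hK : IsCompact K) (hL : IsCompact L)
    (hK0 : K.Nonempty) (hL0 : L.Nonempty) (h : ∀ x ∈ K, ∀ y ∈ L, 1 / 3 * x + 2 / 3 * y ∈ S) :
    volume K + 2 * volume L ≤ 3 * volume S := by
  set a := sSup K with ha
  set b := sInf L with hb
  have haK : a ∈ K := hK.sSup_mem hK0
  have hbL : b ∈ L := hL.sInf_mem hL0
  set S1 := (fun x => 1 / 3 * x + 2 / 3 * b) '' K with hS1
  set S2 := (fun x => 2 / 3 * x + 1 / 3 * a) '' L with hS2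
  have h1 : S1 ⊆ S := by
    rintro _ ⟨x, hx, rfl⟩
    exact h x hx b hbL
  have h2 : S2 ⊆ S := by
    rintro _ ⟨x, hx, rfl⟩
    have := h a haK x hx
    rwa [add_comm] at this
  have hc1 : IsCompact S1 := hK.image (by fun_prop)
  have hc2 : IsCompact S2 := hL.image (by fun_prop)
  have hint : volume (S1 ∩ S2) = 0 := by
    refine measure_mono_null ?_ (measure_singleton (1 / 3 * a + 2 / 3 * b))
    rintro z ⟨⟨x, hx, rfl⟩, ⟨y, hy, hyx⟩⟩
    have e1 : x ≤ a := le_csSup hK.bddAbove hx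
    have e2 : b ≤ y := csInf_le hL.bddBelow hy
    simp only at hyx
    rw [mem_singleton_iff]
    linarith
  have hsum : volume (S1 ∪ S2) = volume S1 + volume S2 := by
    have := measure_union_add_inter S1 hc2.measurableSet (μ := volume)
    rwa [hint, add_zero] at this
  have e1 : volume S1 = ENNReal.ofReal (1 / 3) * volume K := vol_affine K _ (by norm_num)
  have e2 : volume S2 = ENNReal.ofReal (2 / 3) * volume L := vol_affine L _ (by norm_num)
  have hle : volume S1 + volume S2 ≤ volume S := by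
    rw [← hsum]
    exact measure_mono (union_subset h1 h2)
  have h3 : (3 : ENNReal) * ENNReal.ofReal (1 / 3) = 1 := by
    rw [show (3 : ENNReal) = ENNReal.ofReal 3 by simp, ← ENNReal.ofReal_mul (by norm_num)]
    norm_num
  have h4 : (3 : ENNReal) * ENNReal.ofReal (2 / 3) = 2 := by
    rw [show (3 : ENNReal) = ENNReal.ofReal 3 by simp, ← ENNReal.ofReal_mul (by norm_num)]
    norm_num
  calc volume K + 2 * volume L = 3 * (volume S1 + volume S2) := by
        rw [e1, e2, mul_add, ← mul_assoc, ← mul_assoc, h3, h4, one_mul]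
    _ ≤ 3 * volume S := by gcongr

theorem vol_sup {A : Set ℝ} (hA : MeasurableSet A) (hA0 : A.Nonempty) :
    volume A ≤ ⨆ K : {K : Set ℝ // K.Nonempty ∧ IsCompact K ∧ K ⊆ A}, volume K.1 := by
  obtain ⟨x0, hx0⟩ := hA0
  rw [hA.measure_eq_iSup_isCompact]
  refine iSup_le fun K => iSup_le fun hK => iSup_le fun hKc => ?_
  refine (measure_mono (subset_insert x0 K)).trans ?_
  exact le_iSup (fun K : {K : Set ℝ // K.Nonempty ∧ IsCompact K ∧ K ⊆ A} => volume K.1)
    ⟨insert x0 K, insert_nonempty _ _, hKc.insert x0, insert_subset hx0 hK⟩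

/-- If `x/3 + 2y/3 ∈ S` for all `x ∈ A`, `y ∈ B` then `|A| + 2 |B| ≤ 3 |S|` (`A`, `B` not empty). -/
theorem bm_line {A B S : Set ℝ} (hA : MeasurableSet A) (hB : MeasurableSet B)
    (hA0 : A.Nonempty) (hB0 : B.Nonempty) (h : ∀ x ∈ A, ∀ y ∈ B, 1 / 3 * x + 2 / 3 * y ∈ S) :
    volume A + 2 * volume B ≤ 3 * volume S := by
  have : Nonempty {K : Set ℝ // K.Nonempty ∧ IsCompact K ∧ K ⊆ A} :=
    ⟨⟨{hA0.some}, singleton_nonempty _, isCompact_singleton, singleton_subset_iff.2 hA0.some_mem⟩⟩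
  have : Nonempty {K : Set ℝ // K.Nonempty ∧ IsCompact K ∧ K ⊆ B} :=
    ⟨⟨{hB0.some}, singleton_nonempty _, isCompact_singleton, singleton_subset_iff.2 hB0.some_mem⟩⟩
  refine (add_le_add (vol_sup hA hA0) (mul_le_mul_right (vol_sup hB hB0) 2)).trans ?_
  rw [ENNReal.mul_iSup]
  refine ENNReal.iSup_add_iSup_le fun K L => ?_
  exact bm_compact K.2.2.1 L.2.2.1 K.2.1 L.2.1 fun x hx y hy =>
    h x (K.2.2.2 hx) y (L.2.2.2 hy)

/-! ### Prékopa-Leindler on the line -/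

theorem layer {F : ℝ → ℝ≥0∞} (hF : Measurable F) (h1 : ∀ x, F x ≤ 1) :
    ∫⁻ x, F x = ∫⁻ t in Ioi (0 : ℝ), volume {x | ENNReal.ofReal t < F x} := by
  have hne : ∀ x, F x ≠ ∞ := fun x => ne_top_of_le_ne_top ENNReal.one_ne_top (h1 x)
  have e1 : ∫⁻ x, F x = ∫⁻ x, ENNReal.ofReal (F x).toReal :=
    lintegral_congr fun x => (ENNReal.ofReal_toReal (hne x)).symm
  rw [e1, lintegral_eq_lintegral_meas_lt volume (Filter.Eventually.of_forall
    fun x => ENNReal.toReal_nonneg) hF.ennreal_toReal.aemeasurable]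
  refine setLIntegral_congr_fun measurableSet_Ioi fun t ht => ?_
  have ht' : (0 : ℝ) ≤ t := le_of_lt ht
  change volume {x | t < (F x).toReal} = volume {x | ENNReal.ofReal t < F x}
  congr 1
  ext x
  exact (ENNReal.ofReal_lt_iff_lt_toReal ht' (hne x)).symm

theorem layer_meas (F : ℝ → ℝ≥0∞) :
    Measurable fun t : ℝ => volume {x | ENNReal.ofReal t < F x} := by
  refine Antitone.measurable fun s t hst => ?_
  refine measure_mono fun x hx => ?_
  exact lt_of_le_of_lt (ENNReal.ofReal_le_ofReal hst) hx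

theorem key {F G H : ℝ → ℝ≥0∞} (hF : Measurable F) (hG : Measurable G)
    (hH : Measurable H) (hF1 : ∀ x, F x ≤ 1) (hG1 : ∀ x, G x ≤ 1) (hH1 : ∀ x, H x ≤ 1)
    (hF2 : ∀ l < 1, ∃ x, l < F x) (hG2 : ∀ l < 1, ∃ x, l < G x)
    (hh : ∀ x y l, l < F x → l < G y → l < H (1 / 3 * x + 2 / 3 * y)) :
    (∫⁻ x, F x) + 2 * (∫⁻ x, G x) ≤ 3 * ∫⁻ x, H x := by
  rw [layer hF hF1, layer hG hG1, layer hH hH1, ← lintegral_const_mul' _ _ (by norm_num),
    ← lintegral_add_left (layer_meas F), ← lintegral_const_mul' _ _ (by norm_num)]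
  refine lintegral_mono fun t => ?_
  rcases lt_or_ge (ENNReal.ofReal t) 1 with hl | hl
  · refine bm_line (measurableSet_lt measurable_const hF) (measurableSet_lt measurable_const hG)
      (hF2 _ hl) (hG2 _ hl) fun x hx y hy => ?_
    exact hh x y _ hx hy
  · have e1 : {x | ENNReal.ofReal t < F x} = ∅ := by
      ext x
      constructor
      · intro hx
        exact absurd (hx.trans_le (hF1 x)) (not_lt.2 hl)
      · intro hx
        exact hx.elim
    have e2 : {x | ENNReal.ofReal t < G x} = ∅ := by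
      ext x
      constructor
      · intro hx
        exact absurd (hx.trans_le (hG1 x)) (not_lt.2 hl)
      · intro hx
        exact hx.elim
    simp only [e1, e2, measure_empty, add_zero, mul_zero]
    exact zero_le

theorem amgm {X Y Z : ℝ≥0∞} (h : X + 2 * Y ≤ 3 * Z) : X * Y ^ 2 ≤ Z ^ 3 := by
  by_cases hZ : Z = ∞
  · rw [hZ]
    simp
  · have hXY : X + 2 * Y ≠ ∞ := ne_top_of_le_ne_top (ENNReal.mul_ne_top (by norm_num) hZ) h
    have hX : X ≠ ∞ := fun hX => hXY (by rw [hX, top_add])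
    have hY : Y ≠ ∞ := fun hY => hXY (by rw [hY, ENNReal.mul_top (by norm_num), add_top])
    lift X to NNReal using hX
    lift Y to NNReal using hY
    lift Z to NNReal using hZ
    have h' : X + 2 * Y ≤ 3 * Z := by exact_mod_cast h
    have h2 : X * Y ^ 2 ≤ Z ^ 3 := by
      have h3 : (X : ℝ) + 2 * Y ≤ 3 * Z := by exact_mod_cast h'
      have hx := X.coe_nonneg
      have hy := Y.coe_nonneg
      have hz := Z.coe_nonneg
      have h4 : (X : ℝ) * Y ^ 2 ≤ (Z : ℝ) ^ 3 := by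
        have h5 : (X : ℝ) ≤ 3 * Z - 2 * Y := by linarith
        have h6 : (X : ℝ) * Y ^ 2 ≤ (3 * Z - 2 * Y) * Y ^ 2 :=
          mul_le_mul_of_nonneg_right h5 (sq_nonneg _)
        have h7 : (3 * (Z : ℝ) - 2 * Y) * Y ^ 2 ≤ Z ^ 3 := by
          have h8 : (Z : ℝ) ^ 3 - (3 * Z - 2 * Y) * Y ^ 2 = (Z - Y) ^ 2 * (Z + 2 * Y) := by ring
          have h9 : 0 ≤ ((Z : ℝ) - Y) ^ 2 * (Z + 2 * Y) :=
            mul_nonneg (sq_nonneg _) (by linarith)
          linarith
        linarith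
      exact_mod_cast h4
    exact_mod_cast h2

/-- Bounded case. -/
theorem pl_line_bdd {f g h : ℝ → ℝ≥0∞} (hf : Measurable f) (hg : Measurable g) (hh : Measurable h)
    {a b : ℝ≥0∞} (ha : a ≠ ∞) (hb : b ≠ ∞) (hfa : ∀ x, f x ≤ a) (hgb : ∀ x, g x ≤ b)
    (H : ∀ x y, f x * g y ^ 2 ≤ h (1 / 3 * x + 2 / 3 * y) ^ 3) :
    (∫⁻ x, f x) * (∫⁻ x, g x) ^ 2 ≤ (∫⁻ x, h x) ^ 3 := by
  set a' : ℝ≥0∞ := ⨆ x, f x with ha'
  set b' : ℝ≥0∞ := ⨆ x, g x with hb'
  have hat : a' ≠ ∞ := ne_top_of_le_ne_top ha (iSup_le hfa)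
  have hbt : b' ≠ ∞ := ne_top_of_le_ne_top hb (iSup_le hgb)
  by_cases ha0 : a' = 0
  · have : ∫⁻ x, f x = 0 := by
      have e : ∀ x, f x = 0 := fun x => le_antisymm (by rw [← ha0]; exact le_iSup f x) zero_le
      simp [e]
    rw [this, zero_mul]
    exact zero_le
  by_cases hb0 : b' = 0
  · have : ∫⁻ x, g x = 0 := by
      have e : ∀ x, g x = 0 := fun x => le_antisymm (by rw [← hb0]; exact le_iSup g x) zero_le
      simp [e]
    rw [this, zero_pow two_ne_zero, mul_zero]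
    exact zero_le
  have hb20 : b' ^ 2 ≠ 0 := pow_ne_zero _ hb0
  have hb2t : b' ^ 2 ≠ ∞ := ENNReal.pow_ne_top hbt
  set c : ℝ≥0∞ := (a' * b' ^ 2) ^ (1 / 3 : ℝ) with hc
  have hcc : c ^ 3 = a' * b' ^ 2 := by
    rw [hc, ← ENNReal.rpow_natCast, ← ENNReal.rpow_mul]
    norm_num
  have hab0 : a' * b' ^ 2 ≠ 0 := mul_ne_zero ha0 hb20
  have habt : a' * b' ^ 2 ≠ ∞ := ENNReal.mul_ne_top hat hb2t
  have hc0 : c ≠ 0 := by
    intro h0
    rw [h0, zero_pow (by norm_num)] at hcc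
    exact hab0 hcc.symm
  have hct : c ≠ ∞ := by
    intro h0
    rw [h0, ENNReal.top_pow (by norm_num)] at hcc
    exact habt hcc.symm
  have hkey := key (F := fun x => f x * a'⁻¹) (G := fun x => g x * b'⁻¹)
    (H := fun x => min (h x * c⁻¹) 1) (hf.mul_const _) (hg.mul_const _)
    ((hh.mul_const _).min measurable_const)
    (fun x => by
      rw [← ENNReal.mul_inv_cancel ha0 hat]
      exact mul_le_mul_left (le_iSup f x) _)
    (fun x => by
      rw [← ENNReal.mul_inv_cancel hb0 hbt]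
      exact mul_le_mul_left (le_iSup g x) _)
    (fun x => min_le_right _ _)
    (fun l hl => by
      have h1 : l * a' < a' := by
        calc l * a' < 1 * a' := (ENNReal.mul_lt_mul_iff_left ha0 hat).2 hl
          _ = a' := one_mul _
      obtain ⟨x, hx⟩ := lt_iSup_iff.1 h1
      refine ⟨x, ?_⟩
      rw [← div_eq_mul_inv]
      exact (ENNReal.lt_div_iff_mul_lt (Or.inl ha0) (Or.inl hat)).2 hx)
    (fun l hl => by
      have h1 : l * b' < b' := by
        calc l * b' < 1 * b' := (ENNReal.mul_lt_mul_iff_left hb0 hbt).2 hl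
          _ = b' := one_mul _
      obtain ⟨x, hx⟩ := lt_iSup_iff.1 h1
      refine ⟨x, ?_⟩
      rw [← div_eq_mul_inv]
      exact (ENNReal.lt_div_iff_mul_lt (Or.inl hb0) (Or.inl hbt)).2 hx)
    (fun x y l hx hy => by
      have hx' : l < f x * a'⁻¹ := hx
      have hy' : l < g y * b'⁻¹ := hy
      have hl1 : l < 1 := by
        refine hx'.trans_le ?_
        rw [← ENNReal.mul_inv_cancel ha0 hat]
        exact mul_le_mul_left (le_iSup f x) _
      refine lt_min ?_ hl1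
      by_contra hcon
      rw [not_lt] at hcon
      have h1 : l * l * l < (f x * a'⁻¹) * (g y * b'⁻¹) * (g y * b'⁻¹) :=
        ENNReal.mul_lt_mul (ENNReal.mul_lt_mul hx' hy') hy'
      have h2 : (f x * a'⁻¹) * (g y * b'⁻¹) * (g y * b'⁻¹) ≤
          (h (1 / 3 * x + 2 / 3 * y) * c⁻¹) ^ 3 := by
        calc (f x * a'⁻¹) * (g y * b'⁻¹) * (g y * b'⁻¹)
            = (f x * g y ^ 2) * (a'⁻¹ * (b' ^ 2)⁻¹) := by
              rw [ENNReal.inv_pow]
              ring
          _ = (f x * g y ^ 2) * (a' * b' ^ 2)⁻¹ := by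
            rw [ENNReal.mul_inv (Or.inl ha0) (Or.inl hat)]
          _ ≤ (h (1 / 3 * x + 2 / 3 * y) ^ 3) * (a' * b' ^ 2)⁻¹ := mul_le_mul_left (H x y) _
          _ = (h (1 / 3 * x + 2 / 3 * y) * c⁻¹) ^ 3 := by
            rw [← hcc, ENNReal.inv_pow]
            ring
      have h3 : (h (1 / 3 * x + 2 / 3 * y) * c⁻¹) ^ 3 ≤ l * l * l := by
        calc (h (1 / 3 * x + 2 / 3 * y) * c⁻¹) ^ 3 ≤ l ^ 3 := pow_le_pow_left' hcon 3
          _ = l * l * l := by ring
      exact absurd (h1.trans_le (h2.trans h3)) (lt_irrefl _))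
  have e1 : ∫⁻ x, f x * a'⁻¹ = (∫⁻ x, f x) * a'⁻¹ := lintegral_mul_const _ hf
  have e2 : ∫⁻ x, g x * b'⁻¹ = (∫⁻ x, g x) * b'⁻¹ := lintegral_mul_const _ hg
  have e3 : ∫⁻ x, min (h x * c⁻¹) 1 ≤ (∫⁻ x, h x) * c⁻¹ := by
    rw [← lintegral_mul_const _ hh]
    exact lintegral_mono fun x => min_le_left _ _
  rw [e1, e2] at hkey
  have h4 := amgm (hkey.trans (mul_le_mul_right e3 3))
  calc (∫⁻ x, f x) * (∫⁻ x, g x) ^ 2
      = ((∫⁻ x, f x) * (a'⁻¹ * a')) * ((∫⁻ x, g x) * (b'⁻¹ * b')) ^ 2 := by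
        rw [ENNReal.inv_mul_cancel ha0 hat, ENNReal.inv_mul_cancel hb0 hbt, mul_one, mul_one]
    _ = (((∫⁻ x, f x) * a'⁻¹) * ((∫⁻ x, g x) * b'⁻¹) ^ 2) * (a' * b' ^ 2) := by ring
    _ ≤ (((∫⁻ x, h x) * c⁻¹) ^ 3) * (a' * b' ^ 2) := mul_le_mul_left h4 _
    _ = ((∫⁻ x, h x) * (c⁻¹ * c)) ^ 3 := by
        rw [← hcc]
        ring
    _ = (∫⁻ x, h x) ^ 3 := by rw [ENNReal.inv_mul_cancel hc0 hct, mul_one]

/-- General case: apply the bounded case to `min f n`, `min g n`, and monotone convergence. -/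
theorem pl_line {f g h : ℝ → ℝ≥0∞} (hf : Measurable f) (hg : Measurable g) (hh : Measurable h)
    (H : ∀ x y, f x * g y ^ 2 ≤ h (1 / 3 * x + 2 / 3 * y) ^ 3) :
    (∫⁻ x, f x) * (∫⁻ x, g x) ^ 2 ≤ (∫⁻ x, h x) ^ 3 := by
  have hsup : ∀ {u : ℝ → ℝ≥0∞}, Measurable u → ∫⁻ x, u x = ⨆ n : ℕ, ∫⁻ x, min (u x) n := by
    intro u hu
    rw [← lintegral_iSup (fun n => hu.min measurable_const)
      (fun m n hmn x => min_le_min_left _ (by exact_mod_cast hmn))]
    refine lintegral_congr fun x => ?_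
    have e := inf_iSup_eq (u x) (fun n : ℕ => (n : ℝ≥0∞))
    rw [ENNReal.iSup_natCast, inf_top_eq] at e
    exact e
  have hmono : ∀ u : ℝ → ℝ≥0∞, Monotone fun n : ℕ => ∫⁻ x, min (u x) n := fun u m n hmn =>
    lintegral_mono fun x => min_le_min_left _ (by exact_mod_cast hmn)
  have hb : ∀ n : ℕ, (∫⁻ x, min (f x) n) * (∫⁻ x, min (g x) n) ^ 2 ≤ (∫⁻ x, h x) ^ 3 := by
    intro n
    refine pl_line_bdd (hf.min measurable_const) (hg.min measurable_const) hh
      (ENNReal.natCast_ne_top n) (ENNReal.natCast_ne_top n)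
      (fun x => min_le_right _ _) (fun x => min_le_right _ _) fun x y => ?_
    exact (mul_le_mul' (min_le_left _ _) (pow_le_pow_left' (min_le_left _ _) 2)).trans (H x y)
  rw [sq, ← mul_assoc, hsup hf, hsup hg, ENNReal.iSup_mul, ENNReal.iSup_mul]
  refine iSup_le fun n => ?_
  rw [ENNReal.mul_iSup]
  refine iSup_le fun k => ?_
  rw [ENNReal.mul_iSup, ENNReal.iSup_mul]
  refine iSup_le fun m => ?_
  set N := max n (max m k) with hN
  have h1 : (∫⁻ x, min (f x) n) ≤ ∫⁻ x, min (f x) N := hmono f (le_max_left _ _)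
  have h2 : (∫⁻ x, min (g x) m) ≤ ∫⁻ x, min (g x) N :=
    hmono g ((le_max_left _ _).trans (le_max_right _ _))
  have h3 : (∫⁻ x, min (g x) k) ≤ ∫⁻ x, min (g x) N :=
    hmono g ((le_max_right _ _).trans (le_max_right _ _))
  refine (mul_le_mul' (mul_le_mul' h1 h2) h3).trans ?_
  rw [mul_assoc, ← sq]
  exact hb N

/-! ### Prékopa-Leindler in `Fin d → ℝ` -/

theorem slice {d : ℕ} {f : (Fin (d + 1) → ℝ) → ℝ≥0∞} (hf : Measurable f) :
    ∫⁻ x, f x = ∫⁻ x : ℝ, ∫⁻ z : Fin d → ℝ, f (Fin.cons x z) := by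
  have hm := (volume_preserving_piFinSuccAbove (fun _ : Fin (d + 1) => ℝ) 0).symm
  have hc : Measurable fun a : ℝ × (Fin d → ℝ) =>
      f ((MeasurableEquiv.piFinSuccAbove (fun _ : Fin (d + 1) => ℝ) 0).symm a) :=
    hf.comp (MeasurableEquiv.measurable _)
  rw [← hm.lintegral_comp_emb (MeasurableEquiv.measurableEmbedding _) f,
    Measure.volume_eq_prod, lintegral_prod _ hc.aemeasurable]
  refine lintegral_congr fun x => lintegral_congr fun z => ?_
  rw [MeasurableEquiv.piFinSuccAbove_symm_apply, Fin.insertNthEquiv_zero]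
  rfl

theorem slice_meas {d : ℕ} {f : (Fin (d + 1) → ℝ) → ℝ≥0∞} (hf : Measurable f) :
    Measurable fun p : ℝ × (Fin d → ℝ) => f (Fin.cons p.1 p.2) := by
  refine hf.comp ?_
  refine measurable_pi_lambda _ fun i => ?_
  refine Fin.cases ?_ (fun j => ?_) i
  · simpa using measurable_fst
  · have h1 : Measurable fun c : ℝ × (Fin d → ℝ) => c.2 j :=
      (measurable_pi_apply j).comp measurable_snd
    simpa using h1

/-- Prékopa-Leindler with weights `1/3`, `2/3` on `Fin d → ℝ`. -/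
theorem pl (d : ℕ) {f g h : (Fin d → ℝ) → ℝ≥0∞} (hf : Measurable f) (hg : Measurable g)
    (hh : Measurable h)
    (H : ∀ x y, f x * g y ^ 2 ≤ h ((1 / 3 : ℝ) • x + (2 / 3 : ℝ) • y) ^ 3) :
    (∫⁻ x, f x) * (∫⁻ x, g x) ^ 2 ≤ (∫⁻ x, h x) ^ 3 := by
  induction d with
  | zero =>
    rw [Measure.volume_pi_eq_dirac 0, lintegral_dirac, lintegral_dirac, lintegral_dirac]
    have h1 := H 0 0
    rwa [smul_zero, smul_zero, add_zero] at h1
  | succ d ih =>
    rw [slice hf, slice hg, slice hh]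
    refine pl_line (slice_meas hf).lintegral_prod_right' (slice_meas hg).lintegral_prod_right'
      (slice_meas hh).lintegral_prod_right' fun x y => ?_
    refine ih ((slice_meas hf).comp measurable_prodMk_left)
      ((slice_meas hg).comp measurable_prodMk_left) ((slice_meas hh).comp measurable_prodMk_left)
      fun z w => ?_
    have h1 := H (Fin.cons x z) (Fin.cons y w)
    have e : (1 / 3 : ℝ) • (Fin.cons x z : Fin (d + 1) → ℝ) + (2 / 3 : ℝ) • Fin.cons y w =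
        Fin.cons (1 / 3 * x + 2 / 3 * y) ((1 / 3 : ℝ) • z + (2 / 3 : ℝ) • w) := by
      funext i
      refine Fin.cases ?_ (fun j => ?_) i
      · simp only [Pi.smul_apply, Pi.add_apply, Fin.cons_zero, smul_eq_mul]
      · simp only [Pi.smul_apply, Pi.add_apply, Fin.cons_succ, smul_eq_mul]
    rw [e] at h1
    exact h1

/-- The same with a probability (or any) weight: Prékopa-Leindler for the average against a
log-concave density `φ` on the line, e.g. the Gaussian. -/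
theorem pl_line_density {f g h φ : ℝ → ℝ≥0∞} (hf : Measurable f) (hg : Measurable g)
    (hh : Measurable h) (hφ : Measurable φ)
    (Hφ : ∀ x y, φ x * φ y ^ 2 ≤ φ (1 / 3 * x + 2 / 3 * y) ^ 3)
    (H : ∀ x y, f x * g y ^ 2 ≤ h (1 / 3 * x + 2 / 3 * y) ^ 3) :
    (∫⁻ x, φ x * f x) * (∫⁻ x, φ x * g x) ^ 2 ≤ (∫⁻ x, φ x * h x) ^ 3 := by
  refine pl_line (hφ.mul hf) (hφ.mul hg) (hφ.mul hh) fun x y => ?_
  calc φ x * f x * (φ y * g y) ^ 2 = (φ x * φ y ^ 2) * (f x * g y ^ 2) := by ring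
    _ ≤ φ (1 / 3 * x + 2 / 3 * y) ^ 3 * h (1 / 3 * x + 2 / 3 * y) ^ 3 :=
      mul_le_mul' (Hφ x y) (H x y)
    _ = (φ (1 / 3 * x + 2 / 3 * y) * h (1 / 3 * x + 2 / 3 * y)) ^ 3 := by ring

/-- The Gaussian density satisfies the hypothesis of `pl_line_density`. -/
theorem gaussian_logconcave (x y : ℝ) :
    ProbabilityTheory.gaussianPDF 0 1 x * ProbabilityTheory.gaussianPDF 0 1 y ^ 2 ≤
      ProbabilityTheory.gaussianPDF 0 1 (1 / 3 * x + 2 / 3 * y) ^ 3 := by
  have key : ProbabilityTheory.gaussianPDFReal 0 1 x * ProbabilityTheory.gaussianPDFReal 0 1 y ^ 2 ≤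
      ProbabilityTheory.gaussianPDFReal 0 1 (1 / 3 * x + 2 / 3 * y) ^ 3 := by
    simp only [ProbabilityTheory.gaussianPDFReal]
    set c : ℝ := (Real.sqrt (2 * Real.pi * ((1 : NNReal) : ℝ)))⁻¹ with hc
    have hc0 : 0 ≤ c := by positivity
    have e1 : c * Real.exp (-(x - 0) ^ 2 / (2 * ((1 : NNReal) : ℝ))) *
        (c * Real.exp (-(y - 0) ^ 2 / (2 * ((1 : NNReal) : ℝ)))) ^ 2 =
        c ^ 3 * Real.exp (-(x ^ 2 + 2 * y ^ 2) / 2) := by
      have : Real.exp (-(x ^ 2 + 2 * y ^ 2) / 2) =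
          Real.exp (-(x - 0) ^ 2 / (2 * ((1 : NNReal) : ℝ))) *
          Real.exp (-(y - 0) ^ 2 / (2 * ((1 : NNReal) : ℝ))) ^ 2 := by
        rw [← Real.exp_nat_mul, ← Real.exp_add]
        congr 1
        push_cast
        ring
      rw [this]
      ring
    have e2 : (c * Real.exp (-(1 / 3 * x + 2 / 3 * y - 0) ^ 2 / (2 * ((1 : NNReal) : ℝ)))) ^ 3 =
        c ^ 3 * Real.exp (-(3 * (1 / 3 * x + 2 / 3 * y) ^ 2) / 2) := by
      rw [mul_pow, ← Real.exp_nat_mul]
      congr 2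
      push_cast
      ring
    rw [e1, e2]
    refine mul_le_mul_of_nonneg_left (Real.exp_le_exp.2 ?_) (by positivity)
    nlinarith [sq_nonneg (x - y)]
  simp only [ProbabilityTheory.gaussianPDF]
  rw [← ENNReal.ofReal_pow (ProbabilityTheory.gaussianPDFReal_nonneg _ _ _),
    ← ENNReal.ofReal_pow (ProbabilityTheory.gaussianPDFReal_nonneg _ _ _),
    ← ENNReal.ofReal_mul (ProbabilityTheory.gaussianPDFReal_nonneg _ _ _)]
  exact ENNReal.ofReal_le_ofReal key

/-- Averages against the standard Gaussian measure preserve the triple inequality. -/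
theorem pl_gaussian {f g h : ℝ → ℝ≥0∞} (hf : Measurable f) (hg : Measurable g)
    (hh : Measurable h) (H : ∀ x y, f x * g y ^ 2 ≤ h (1 / 3 * x + 2 / 3 * y) ^ 3) :
    (∫⁻ x, f x ∂(ProbabilityTheory.gaussianReal 0 1)) *
      (∫⁻ x, g x ∂(ProbabilityTheory.gaussianReal 0 1)) ^ 2 ≤
      (∫⁻ x, h x ∂(ProbabilityTheory.gaussianReal 0 1)) ^ 3 := by
  have hd : ProbabilityTheory.gaussianReal 0 1 =
      volume.withDensity (ProbabilityTheory.gaussianPDF 0 1) :=
    ProbabilityTheory.gaussianReal_of_var_ne_zero 0 one_ne_zero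
  have hm : Measurable (ProbabilityTheory.gaussianPDF 0 1) :=
    ProbabilityTheory.measurable_gaussianPDF 0 1
  rw [hd, lintegral_withDensity_eq_lintegral_mul _ hm hf,
    lintegral_withDensity_eq_lintegral_mul _ hm hg, lintegral_withDensity_eq_lintegral_mul _ hm hh]
  exact pl_line_density hf hg hh hm gaussian_logconcave H

end Kom92.PLaux

namespace Kom92

theorem pl3_line {f g h : ℝ → ℝ≥0∞} (hf : Measurable f) (hg : Measurable g) (hh : Measurable h)
    (H : ∀ x y, f x * g y ^ 2 ≤ h ((1 / 3 : ℝ) * x + (2 / 3 : ℝ) * y) ^ 3) :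
    (∫⁻ x, f x) * (∫⁻ x, g x) ^ 2 ≤ (∫⁻ x, h x) ^ 3 :=
  PLaux.pl_line hf hg hh H

theorem pl3 (d : ℕ) {f g h : (Fin d → ℝ) → ℝ≥0∞} (hf : Measurable f) (hg : Measurable g)
    (hh : Measurable h)
    (H : ∀ x y, f x * g y ^ 2 ≤ h ((1 / 3 : ℝ) • x + (2 / 3 : ℝ) • y) ^ 3) :
    (∫⁻ x, f x) * (∫⁻ x, g x) ^ 2 ≤ (∫⁻ x, h x) ^ 3 :=
  PLaux.pl d hf hg hh H

end Kom92
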