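import Pool.Agent.LibKom92.Defs
import Pool.Agent.LibKom92.PL

/-! Brunn-Minkowski for the survival rate. -/

set_option autoImplicit false

open MeasureTheory ProbabilityTheory Set
open scoped ENNReal NNReal

namespace Kom92

namespace BMG

/-! Facts on the Gaussian measures `lin`, `mu` and the averages `avg`, `P` (copy of helper78's `Gauss`). -/

variable {N : ℕ}

theorem measurable_smulv (w : E N) : Measurable (fun s : ℝ => s • w) := by fun_prop

instance lin_prob (v : ℝ≥0) (w : E N) : IsProbabilityMeasure (lin v w) :=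
  Measure.isProbabilityMeasure_map (measurable_smulv w).aemeasurable

instance mu_prob (W : List (ℝ≥0 × E N)) : IsProbabilityMeasure (mu W) := by
  induction W with
  | nil => unfold mu; infer_instance
  | cons p W ih => unfold mu; infer_instance

theorem map_neg_conv (μ ν : Measure (E N)) [SFinite μ] [SFinite ν] :
    (μ ∗ ν).map (fun x => -x) = (μ.map (fun x => -x)) ∗ (ν.map (fun x => -x)) := by
  have e : (⇑(negAddMonoidHom : E N →+ E N)) = fun x => -x := rfl
  have h := Measure.map_conv_addMonoidHom (μ := μ) (ν := ν) (negAddMonoidHom : E N →+ E N)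
    (by rw [e]; exact measurable_neg)
  rw [e] at h
  exact h

theorem lin_symm (v : ℝ≥0) (w : E N) : (lin v w).map (fun x => -x) = lin v w := by
  unfold lin
  rw [Measure.map_map measurable_neg (measurable_smulv w)]
  have e : ((fun x : E N => -x) ∘ fun s : ℝ => s • w) = (fun s : ℝ => s • w) ∘ (fun s => -s) := by
    funext s; simp
  rw [e, ← Measure.map_map (measurable_smulv w) measurable_neg, gaussianReal_map_neg, neg_zero]

theorem mu_symm (W : List (ℝ≥0 × E N)) : (mu W).map (fun x => -x) = mu W := by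
  induction W with
  | nil =>
    unfold mu
    rw [Measure.map_dirac' measurable_neg, neg_zero]
  | cons p W ih =>
    unfold mu
    rw [map_neg_conv, lin_symm, ih]

/-- Sum of two independent Gaussians on a line. -/
theorem lin_conv (a b : ℝ≥0) (w : E N) : lin a w ∗ lin b w = lin (a + b) w := by
  have h := Measure.map_conv_addMonoidHom (μ := gaussianReal 0 a) (ν := gaussianReal 0 b)
    ((LinearMap.toSpanSingleton ℝ (E N) w).toAddMonoidHom)
    (by
      have : (⇑(LinearMap.toSpanSingleton ℝ (E N) w).toAddMonoidHom) = fun s : ℝ => s • w := by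
        funext s; simp [LinearMap.toSpanSingleton_apply]
      rw [this]; exact measurable_smulv w)
  have e : (⇑(LinearMap.toSpanSingleton ℝ (E N) w).toAddMonoidHom) = fun s : ℝ => s • w := by
    funext s; simp [LinearMap.toSpanSingleton_apply]
  rw [e, gaussianReal_conv_gaussianReal, add_zero] at h
  unfold lin
  exact h.symm

theorem lin_zero (w : E N) : lin 0 w = Measure.dirac 0 := by
  unfold lin
  rw [gaussianReal_zero_var, Measure.map_dirac' (measurable_smulv w), zero_smul]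

theorem mu_append (W V : List (ℝ≥0 × E N)) : mu (W ++ V) = mu W ∗ mu V := by
  induction W with
  | nil =>
    rw [List.nil_append]
    conv_rhs => rw [mu]
    rw [Measure.dirac_zero_conv]
  | cons p W ih =>
    rw [List.cons_append]
    conv_lhs => rw [mu]
    conv_rhs => rw [mu]
    rw [ih, Measure.conv_assoc]

theorem mu_append_comm (W V : List (ℝ≥0 × E N)) : mu (W ++ V) = mu (V ++ W) := by
  rw [mu_append, mu_append, Measure.conv_comm]

theorem mu_singleton (p : ℝ≥0 × E N) : mu [p] = lin p.1 p.2 := by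
  rw [mu, mu, Measure.conv_dirac_zero]

/-- The semigroup law. -/
theorem mu_scale_add (s t : ℝ≥0) (W : List (ℝ≥0 × E N)) :
    mu (scale s W) ∗ mu (scale t W) = mu (scale (s + t) W) := by
  induction W with
  | nil =>
    simp only [scale, List.map_nil, mu]
    rw [Measure.dirac_zero_conv]
  | cons p W ih =>
    have e1 : mu (scale s (p :: W)) = lin (s * p.1) p.2 ∗ mu (scale s W) := rfl
    have e2 : mu (scale t (p :: W)) = lin (t * p.1) p.2 ∗ mu (scale t W) := rfl
    have e3 : mu (scale (s + t) (p :: W)) = lin ((s + t) * p.1) p.2 ∗ mu (scale (s + t) W) := rfl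
    rw [e1, e2, e3, ← ih, add_mul, ← lin_conv]
    rw [Measure.conv_assoc, Measure.conv_assoc]
    congr 1
    rw [← Measure.conv_assoc, Measure.conv_comm (mu (scale s W)), Measure.conv_assoc]

theorem mu_scale_one (W : List (ℝ≥0 × E N)) : scale 1 W = W := by
  simp [scale]

theorem scale_scale (s t : ℝ≥0) (W : List (ℝ≥0 × E N)) :
    scale s (scale t W) = scale (s * t) W := by
  simp [scale, mul_assoc]

theorem scale_append (s : ℝ≥0) (W V : List (ℝ≥0 × E N)) :
    scale s (W ++ V) = scale s W ++ scale s V := by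
  simp [scale]

/-- Halving. -/
theorem mu_half (W : List (ℝ≥0 × E N)) :
    mu (scale (1 / 2) W) ∗ mu (scale (1 / 2) W) = mu W := by
  rw [mu_scale_add]
  have : (1 / 2 + 1 / 2 : ℝ≥0) = 1 := by
    rw [← two_mul]
    norm_num
  rw [this, mu_scale_one]

/-! ### `q` -/

theorem nsq_nonneg (w : E N) : 0 ≤ nsq w := Finset.sum_nonneg fun _ _ => sq_nonneg _

theorem q_nil : q ([] : List (ℝ≥0 × E N)) = 0 := rfl

theorem q_cons (p : ℝ≥0 × E N) (W : List (ℝ≥0 × E N)) :
    q (p :: W) = (p.1 : ℝ) * nsq p.2 + q W := rfl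

theorem q_nonneg (W : List (ℝ≥0 × E N)) : 0 ≤ q W := by
  induction W with
  | nil => simp [q]
  | cons p W ih => rw [q_cons]; have := nsq_nonneg p.2; positivity

theorem q_append (W V : List (ℝ≥0 × E N)) : q (W ++ V) = q W + q V := by
  induction W with
  | nil => simp [q_nil]
  | cons p W ih => rw [List.cons_append, q_cons, q_cons, ih]; ring

theorem q_scale (t : ℝ≥0) (W : List (ℝ≥0 × E N)) : q (scale t W) = t * q W := by
  induction W with
  | nil => simp [q, scale]
  | cons p W ih =>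
    have e : scale t (p :: W) = (t * p.1, p.2) :: scale t W := rfl
    rw [e, q_cons, q_cons, ih]; push_cast; ring

/-! ### averages -/

theorem measurable_avg (μ : Measure (E N)) [SFinite μ] {f : E N → ℝ≥0∞} (hf : Measurable f) :
    Measurable (avg μ f) := by
  unfold avg
  exact Measurable.lintegral_prod_right' (f := fun p : E N × E N => f (p.1 + p.2))
    (hf.comp (measurable_fst.add measurable_snd))

theorem avg_mono (μ : Measure (E N)) {f g : E N → ℝ≥0∞} (h : ∀ x, f x ≤ g x) (x : E N) :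
    avg μ f x ≤ avg μ g x := lintegral_mono fun z => h (x + z)

theorem avg_le_const (μ : Measure (E N)) [IsProbabilityMeasure μ] {f : E N → ℝ≥0∞} {M : ℝ≥0∞}
    (h : ∀ x, f x ≤ M) (x : E N) : avg μ f x ≤ M := by
  calc avg μ f x ≤ ∫⁻ _, M ∂μ := lintegral_mono fun z => h (x + z)
    _ = M := by simp

theorem avg_conv (μ ν : Measure (E N)) [SFinite μ] [SFinite ν] {f : E N → ℝ≥0∞}
    (hf : Measurable f) (x : E N) : avg (μ ∗ ν) f x = avg μ (avg ν f) x := by
  unfold avg
  have hm : Measurable (fun z : E N => f (x + z)) := hf.comp (by fun_prop)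
  rw [Measure.lintegral_conv hm]
  refine lintegral_congr fun y => lintegral_congr fun z => ?_
  rw [add_assoc]

theorem avg_conv' (μ ν : Measure (E N)) [SFinite μ] [SFinite ν] {f : E N → ℝ≥0∞}
    (hf : Measurable f) : avg (μ ∗ ν) f = avg μ (avg ν f) := funext fun x => avg_conv μ ν hf x

theorem avg_comm (μ ν : Measure (E N)) [SFinite μ] [SFinite ν] {f : E N → ℝ≥0∞}
    (hf : Measurable f) : avg μ (avg ν f) = avg ν (avg μ f) := by
  rw [← avg_conv' μ ν hf, ← avg_conv' ν μ hf, Measure.conv_comm]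

/-- The total integral is preserved. -/
theorem lintegral_avg (μ : Measure (E N)) [IsProbabilityMeasure μ] {f : E N → ℝ≥0∞}
    (hf : Measurable f) : ∫⁻ x, avg μ f x = ∫⁻ x, f x := by
  unfold avg
  have hm : Measurable (Function.uncurry fun x z : E N => f (x + z)) :=
    hf.comp (measurable_fst.add measurable_snd)
  rw [lintegral_lintegral_swap hm.aemeasurable]
  have : ∀ z : E N, ∫⁻ x, f (x + z) = ∫⁻ x, f x := fun z => lintegral_add_right_eq_self f z
  simp [this]

/-- Symmetry of the form `P`. -/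
theorem P_symm (μ : Measure (E N)) [SFinite μ] (hμ : μ.map (fun x => -x) = μ)
    {f g : E N → ℝ≥0∞} (hf : Measurable f) (hg : Measurable g) : P μ f g = P μ g f := by
  have e1 : P μ f g = ∫⁻ z, ∫⁻ x, f x * g (x + z) ∂volume ∂μ := by
    unfold P avg
    have : ∀ x, f x * ∫⁻ z, g (x + z) ∂μ = ∫⁻ z, f x * g (x + z) ∂μ := fun x =>
      (lintegral_const_mul _ (hg.comp (by fun_prop))).symm
    simp_rw [this]
    have hm : Measurable (Function.uncurry fun x z : E N => f x * g (x + z)) :=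
      (hf.comp measurable_fst).mul (hg.comp (measurable_fst.add measurable_snd))
    rw [lintegral_lintegral_swap hm.aemeasurable]
  have e2 : P μ g f = ∫⁻ z, ∫⁻ x, g x * f (x + z) ∂volume ∂μ := by
    unfold P avg
    have : ∀ x, g x * ∫⁻ z, f (x + z) ∂μ = ∫⁻ z, g x * f (x + z) ∂μ := fun x =>
      (lintegral_const_mul _ (hf.comp (by fun_prop))).symm
    simp_rw [this]
    have hm : Measurable (Function.uncurry fun x z : E N => g x * f (x + z)) :=
      (hg.comp measurable_fst).mul (hf.comp (measurable_fst.add measurable_snd))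
    rw [lintegral_lintegral_swap hm.aemeasurable]
  rw [e1, e2]
  conv_lhs => rw [← hμ]
  rw [lintegral_map _ measurable_neg]
  · refine lintegral_congr fun z => ?_
    rw [← lintegral_add_right_eq_self _ z]
    refine lintegral_congr fun x => ?_
    rw [add_neg_cancel_right, mul_comm]
  · exact Measurable.lintegral_prod_left' (f := fun p : E N × E N => f p.1 * g (p.1 + p.2))
      ((hf.comp measurable_fst).mul (hg.comp (measurable_fst.add measurable_snd)))

theorem P_mu_symm (W : List (ℝ≥0 × E N)) {f g : E N → ℝ≥0∞} (hf : Measurable f)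
    (hg : Measurable g) : P (mu W) f g = P (mu W) g f := P_symm _ (mu_symm W) hf hg

/-- Square form. -/
theorem P_conv (μ ν : Measure (E N)) [SFinite μ] [SFinite ν] (hμ : μ.map (fun x => -x) = μ)
    {f g : E N → ℝ≥0∞} (hf : Measurable f) (hg : Measurable g) :
    P (μ ∗ ν) f g = ∫⁻ x, avg μ f x * avg ν g x := by
  have h1 : P (μ ∗ ν) f g = P μ f (avg ν g) := by
    unfold P
    rw [avg_conv' μ ν hg]
  rw [h1, P_symm μ hμ hf (measurable_avg ν hg)]
  unfold P
  exact lintegral_congr fun x => mul_comm _ _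

/-- `⟨f, G_W f⟩ = |G_{W/2} f|²`. -/
theorem P_mu_half (W : List (ℝ≥0 × E N)) {f g : E N → ℝ≥0∞} (hf : Measurable f)
    (hg : Measurable g) :
    P (mu W) f g = ∫⁻ x, avg (mu (scale (1 / 2) W)) f x * avg (mu (scale (1 / 2) W)) g x := by
  conv_lhs => rw [← mu_half W]
  exact P_conv _ _ (mu_symm _) hf hg

theorem P_mu_self (W : List (ℝ≥0 × E N)) {f : E N → ℝ≥0∞} (hf : Measurable f) :
    P (mu W) f f = sqn (avg (mu (scale (1 / 2) W)) f) := by
  rw [P_mu_half W hf hf]
  unfold sqn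
  exact lintegral_congr fun x => (sq _).symm

end BMG


variable {N : ℕ}

/-! ### The measures `lin`, `mu` -/

theorem BM_meas_smul (w : E N) : Measurable fun s : ℝ => s • w := by fun_prop

instance BM_lin_prob (v : ℝ≥0) (w : E N) : IsProbabilityMeasure (lin v w) :=
  Measure.isProbabilityMeasure_map (BM_meas_smul w).aemeasurable

instance BM_mu_prob (W : List (ℝ≥0 × E N)) : IsProbabilityMeasure (mu W) := by
  induction W with
  | nil => exact Measure.dirac.isProbabilityMeasure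
  | cons p W ih =>
    have := ih
    show IsProbabilityMeasure (lin p.1 p.2 ∗ mu W)
    infer_instance

theorem BM_avg_conv {μ ν : Measure (E N)} [SFinite μ] [SFinite ν] {f : E N → ℝ≥0∞}
    (hf : Measurable f) : avg (μ ∗ ν) f = avg μ (avg ν f) := by
  funext x
  simp only [avg]
  rw [Measure.lintegral_conv (by fun_prop)]
  refine lintegral_congr fun a => lintegral_congr fun b => ?_
  rw [add_assoc]

theorem BM_gauss_scale (v : ℝ≥0) :
    gaussianReal 0 v = (gaussianReal 0 1).map (fun s => Real.sqrt v * s) := by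
  have h1 := gaussianReal_map_const_mul (μ := 0) (v := 1) (Real.sqrt v)
  have h2 : (NNReal.mk (Real.sqrt (v : ℝ) ^ 2) (sq_nonneg _) : ℝ≥0) * 1 = v := by
    rw [mul_one]
    ext
    exact Real.sq_sqrt v.2
  rw [mul_zero, h2] at h1
  exact h1.symm

theorem BM_avg_lin {v : ℝ≥0} {w : E N} {f : E N → ℝ≥0∞} (hf : Measurable f) (x : E N) :
    avg (lin v w) f x = ∫⁻ s, f (x + (Real.sqrt v * s) • w) ∂(gaussianReal 0 1) := by
  simp only [avg, lin]
  rw [lintegral_map (by fun_prop) (BM_meas_smul w), BM_gauss_scale,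
    lintegral_map (by fun_prop) (by fun_prop)]

theorem BM_meas_avg {μ : Measure (E N)} [SFinite μ] {f : E N → ℝ≥0∞} (hf : Measurable f) :
    Measurable (avg μ f) := by
  have h : Measurable fun p : E N × E N => f (p.1 + p.2) := hf.comp (by fun_prop)
  exact h.lintegral_prod_right'

/-! ### The triple inequality -/

/-- The hypothesis of Prékopa-Leindler. -/
def BM_Tri (f g h : E N → ℝ≥0∞) : Prop :=
  ∀ x y, f x * g y ^ 2 ≤ h ((1 / 3 : ℝ) • x + (2 / 3 : ℝ) • y) ^ 3

theorem BM_Tri.lin {f g h : E N → ℝ≥0∞} (hf : Measurable f) (hg : Measurable g) (hh : Measurable h)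
    (H : BM_Tri f g h) (v : ℝ≥0) (w : E N) :
    BM_Tri (avg (lin v w) f) (avg (lin v w) g) (avg (lin v w) h) := by
  intro x y
  rw [BM_avg_lin hf, BM_avg_lin hg, BM_avg_lin hh]
  refine PLaux.pl_gaussian (hf.comp (by fun_prop)) (hg.comp (by fun_prop)) (hh.comp (by fun_prop))
    fun s t => ?_
  have h1 := H (x + (Real.sqrt v * s) • w) (y + (Real.sqrt v * t) • w)
  have e : (1 / 3 : ℝ) • (x + (Real.sqrt v * s) • w) + (2 / 3 : ℝ) • (y + (Real.sqrt v * t) • w) =
      (1 / 3 : ℝ) • x + (2 / 3 : ℝ) • y + (Real.sqrt v * (1 / 3 * s + 2 / 3 * t)) • w := by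
    funext i
    simp only [Pi.add_apply, Pi.smul_apply, smul_eq_mul]
    ring
  rw [e] at h1
  exact h1

theorem BM_Tri.mu {f g h : E N → ℝ≥0∞} (hf : Measurable f) (hg : Measurable g) (hh : Measurable h)
    (H : BM_Tri f g h) (W : List (ℝ≥0 × E N)) :
    BM_Tri (avg (mu W) f) (avg (mu W) g) (avg (mu W) h) := by
  induction W with
  | nil =>
    have e : ∀ F : E N → ℝ≥0∞, Measurable F → avg (Kom92.mu []) F = F := by
      intro F hF
      funext x
      simp only [avg, Kom92.mu]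
      rw [lintegral_dirac' _ (by fun_prop), add_zero]
    rw [e f hf, e g hg, e h hh]
    exact H
  | cons p W ih =>
    have e : ∀ F : E N → ℝ≥0∞, Measurable F →
        avg (Kom92.mu (p :: W)) F = avg (Kom92.lin p.1 p.2) (avg (Kom92.mu W) F) :=
      fun F hF => BM_avg_conv hF
    rw [e f hf, e g hg, e h hh]
    exact BM_Tri.lin (BM_meas_avg hf) (BM_meas_avg hg) (BM_meas_avg hh) ih p.1 p.2

theorem BM_Tri.indicator {A B C : Set (E N)} {f g h : E N → ℝ≥0∞}
    (hABC : ∀ x ∈ A, ∀ y ∈ B, (1 / 3 : ℝ) • x + (2 / 3 : ℝ) • y ∈ C) (H : BM_Tri f g h) :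
    BM_Tri (A.indicator f) (B.indicator g) (C.indicator h) := by
  intro x y
  by_cases hx : x ∈ A
  · by_cases hy : y ∈ B
    · rw [indicator_of_mem hx, indicator_of_mem hy, indicator_of_mem (hABC x hx y hy)]
      exact H x y
    · rw [indicator_of_notMem hy]
      simp
  · rw [indicator_of_notMem hx]
    simp

theorem BM_meas_Top {μ : Measure (E N)} [SFinite μ] {C : Set (E N)} (hC : MeasurableSet C)
    {f : E N → ℝ≥0∞} (hf : Measurable f) : Measurable (Top μ C f) :=
  (BM_meas_avg hf).indicator hC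

theorem BM_meas_iter {μ : Measure (E N)} [SFinite μ] {C : Set (E N)} (hC : MeasurableSet C)
    {f : E N → ℝ≥0∞} (hf : Measurable f) (k : ℕ) : Measurable ((Top μ C)^[k] f) := by
  induction k with
  | zero => exact hf
  | succ k ih =>
    rw [Function.iterate_succ_apply']
    exact BM_meas_Top hC ih

/-- Number of survivors after `k` steps. -/
noncomputable def BM_Z (μ : Measure (E N)) (C : Set (E N)) (k : ℕ) : ℝ≥0∞ :=
  ∫⁻ x, (Top μ C)^[k] (C.indicator 1) x

theorem BM_Zineq (W : List (ℝ≥0 × E N)) {A B C : Set (E N)} (hA : MeasurableSet A)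
    (hB : MeasurableSet B) (hC : MeasurableSet C)
    (hABC : ∀ x ∈ A, ∀ y ∈ B, (1 / 3 : ℝ) • x + (2 / 3 : ℝ) • y ∈ C) (k : ℕ) :
    BM_Z (mu W) A k * BM_Z (mu W) B k ^ 2 ≤ BM_Z (mu W) C k ^ 3 := by
  have key : BM_Tri ((Top (mu W) A)^[k] (A.indicator 1)) ((Top (mu W) B)^[k] (B.indicator 1))
      ((Top (mu W) C)^[k] (C.indicator 1)) := by
    induction k with
    | zero =>
      refine BM_Tri.indicator hABC fun x y => ?_
      simp
    | succ k ih =>
      rw [Function.iterate_succ_apply', Function.iterate_succ_apply', Function.iterate_succ_apply']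
      exact BM_Tri.indicator hABC (BM_Tri.mu (BM_meas_iter hA (measurable_one.indicator hA) k)
        (BM_meas_iter hB (measurable_one.indicator hB) k)
        (BM_meas_iter hC (measurable_one.indicator hC) k) ih W)
  exact PLaux.pl N (BM_meas_iter hA (measurable_one.indicator hA) k)
    (BM_meas_iter hB (measurable_one.indicator hB) k)
    (BM_meas_iter hC (measurable_one.indicator hC) k) key


/-! ### Test functions -/

theorem BM_avg_mono {μ : Measure (E N)} {f g : E N → ℝ≥0∞} (h : ∀ x, f x ≤ g x) (x : E N) :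
    avg μ f x ≤ avg μ g x := lintegral_mono fun _ => h _

theorem BM_avg_le {μ : Measure (E N)} [IsProbabilityMeasure μ] {f : E N → ℝ≥0∞} {M : ℝ≥0∞}
    (h : ∀ x, f x ≤ M) (x : E N) : avg μ f x ≤ M := by
  calc avg μ f x ≤ ∫⁻ z, M ∂μ := lintegral_mono fun z => h _
    _ = M := by rw [lintegral_const, measure_univ, mul_one]

theorem BM_sqn_ne_top {C : Set (E N)} (hV : volume C ≠ ∞) (hCm : MeasurableSet C)
    {f : E N → ℝ≥0∞} (hf : Test C f) : sqn f ≠ ∞ := by
  obtain ⟨M, hM⟩ := hf.bdd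
  have h : sqn f ≤ ∫⁻ x, C.indicator (fun _ => (M : ℝ≥0∞) ^ 2) x := by
    refine lintegral_mono fun x => ?_
    by_cases hx : x ∈ C
    · rw [indicator_of_mem hx]
      exact pow_le_pow_left₀ zero_le (hM x) 2
    · rw [indicator_of_notMem hx, hf.supp x hx]
      simp
  rw [lintegral_indicator_const hCm] at h
  exact ne_top_of_le_ne_top (ENNReal.mul_ne_top (by simp) hV) h

theorem BM_P_ne_top {μ : Measure (E N)} [IsProbabilityMeasure μ] {C : Set (E N)}
    (hV : volume C ≠ ∞) (hCm : MeasurableSet C) {f : E N → ℝ≥0∞} (hf : Test C f) :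
    P μ f f ≠ ∞ := by
  obtain ⟨M, hM⟩ := hf.bdd
  have h : P μ f f ≤ ∫⁻ x, C.indicator (fun _ => (M : ℝ≥0∞) * M) x := by
    refine lintegral_mono fun x => ?_
    by_cases hx : x ∈ C
    · rw [indicator_of_mem hx]
      exact mul_le_mul' (hM x) (BM_avg_le hM x)
    · rw [indicator_of_notMem hx, hf.supp x hx]
      simp
  rw [lintegral_indicator_const hCm] at h
  exact ne_top_of_le_ne_top (ENNReal.mul_ne_top (by simp [ENNReal.mul_ne_top]) hV) h

theorem BM_avg_const_mul {μ : Measure (E N)} {f : E N → ℝ≥0∞} (hf : Measurable f) (c : ℝ≥0∞) :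
    avg μ (fun x => c * f x) = fun x => c * avg μ f x := by
  funext x
  exact lintegral_const_mul c (by fun_prop)

theorem BM_scale {μ : Measure (E N)} [IsProbabilityMeasure μ] {C : Set (E N)}
    (hV : volume C ≠ ∞) (hCm : MeasurableSet C) {ρ : ℝ≥0∞}
    (hρ : ∀ f, Test C f → sqn f = 1 → P μ f f ≤ ρ) {f : E N → ℝ≥0∞} (hf : Test C f) :
    P μ f f ≤ ρ * sqn f := by
  have hfin := BM_sqn_ne_top hV hCm hf
  have hm2 : Measurable (fun x => f x * avg μ f x) := hf.meas.mul (BM_meas_avg hf.meas)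
  by_cases h0 : sqn f = 0
  · have h1 : f =ᵐ[volume] 0 := by
      have h2 := (lintegral_eq_zero_iff (by have := hf.meas; fun_prop)).1 h0
      filter_upwards [h2] with x hx
      simpa using hx
    have h3 : P μ f f = 0 := by
      unfold P
      rw [lintegral_eq_zero_iff hm2]
      filter_upwards [h1] with x hx
      simp [hx]
    rw [h3]
    exact zero_le
  · set s : ℝ≥0 := (sqn f).toNNReal with hs
    have hs' : (s : ℝ≥0∞) = sqn f := ENNReal.coe_toNNReal hfin
    have hs0 : s ≠ 0 := by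
      intro h
      rw [h] at hs'
      exact h0 hs'.symm
    set c : ℝ≥0 := (NNReal.sqrt s)⁻¹ with hc
    have hcs : (c : ℝ≥0∞) ^ 2 * sqn f = 1 := by
      rw [← hs']
      have : c ^ 2 * s = 1 := by
        rw [hc, inv_pow, NNReal.sq_sqrt, inv_mul_cancel₀ hs0]
      exact_mod_cast this
    have hm := hf.meas
    have hT : Test C (fun x => (c : ℝ≥0∞) * f x) := by
      refine ⟨by fun_prop, fun x hx => by rw [hf.supp x hx, mul_zero], ?_⟩
      obtain ⟨M, hM⟩ := hf.bdd
      refine ⟨c * M, fun x => ?_⟩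
      rw [ENNReal.coe_mul]
      exact mul_le_mul_right (hM x) _
    have e1 : sqn (fun x => (c : ℝ≥0∞) * f x) = (c : ℝ≥0∞) ^ 2 * sqn f := by
      unfold sqn
      rw [← lintegral_const_mul _ (by fun_prop)]
      refine lintegral_congr fun x => ?_
      ring
    have e2 : P μ (fun x => (c : ℝ≥0∞) * f x) (fun x => (c : ℝ≥0∞) * f x) =
        (c : ℝ≥0∞) ^ 2 * P μ f f := by
      unfold P
      rw [BM_avg_const_mul hm, ← lintegral_const_mul _ hm2]
      refine lintegral_congr fun x => ?_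
      ring
    have h1 := hρ _ hT (by rw [e1, hcs])
    rw [e2] at h1
    calc P μ f f = ((c : ℝ≥0∞) ^ 2 * sqn f) * P μ f f := by rw [hcs, one_mul]
      _ = ((c : ℝ≥0∞) ^ 2 * P μ f f) * sqn f := by ring
      _ ≤ ρ * sqn f := mul_le_mul_left h1 _

/-! ### Iterates -/

theorem BM_test_iter {μ : Measure (E N)} [IsProbabilityMeasure μ] {C : Set (E N)}
    (hCm : MeasurableSet C) {f : E N → ℝ≥0∞} (hf : Test C f) (k : ℕ) :
    Test C ((Top μ C)^[k] f) := by
  obtain ⟨M, hM⟩ := hf.bdd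
  refine ⟨BM_meas_iter hCm hf.meas k, ?_, M, ?_⟩
  · cases k with
    | zero => exact hf.supp
    | succ k =>
      intro x hx
      rw [Function.iterate_succ_apply']
      exact indicator_of_notMem hx _
  · induction k with
    | zero => exact hM
    | succ k ih =>
      intro x
      rw [Function.iterate_succ_apply']
      by_cases hx : x ∈ C
      · rw [Top, indicator_of_mem hx]
        exact BM_avg_le ih x
      · rw [Top, indicator_of_notMem hx]
        exact zero_le

theorem BM_test_ind {C : Set (E N)} (hCm : MeasurableSet C) :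
    Test C (C.indicator (1 : E N → ℝ≥0∞)) :=
  ⟨measurable_one.indicator hCm, fun x hx => indicator_of_notMem hx _, 1, fun x => by
    by_cases hx : x ∈ C
    · rw [indicator_of_mem hx]; simp
    · rw [indicator_of_notMem hx]; simp⟩

/-- `⟨f, T g⟩ = P f g` when `f` is supported in `C` -/
theorem BM_ip_Top {μ : Measure (E N)} {C : Set (E N)} {f g : E N → ℝ≥0∞}
    (hf : ∀ x, x ∉ C → f x = 0) : ∫⁻ x, f x * Top μ C g x = P μ f g := by
  refine lintegral_congr fun x => ?_
  by_cases hx : x ∈ C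
  · rw [Top, indicator_of_mem hx]
  · rw [hf x hx, zero_mul, zero_mul]

section iter

variable {μ : Measure (E N)} [IsProbabilityMeasure μ] {C : Set (E N)}

/-- `⟨T^i f, T^j f⟩ = ⟨f, T^(i+j) f⟩` -/
theorem BM_ip_iter (hCm : MeasurableSet C)
    (hs : ∀ f g : E N → ℝ≥0∞, Measurable f → Measurable g → P μ f g = P μ g f)
    {f : E N → ℝ≥0∞} (hf : Test C f) (i j : ℕ) :
    ∫⁻ x, (Top μ C)^[i] f x * (Top μ C)^[j] f x = ∫⁻ x, f x * (Top μ C)^[i + j] f x := by
  induction i generalizing j with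
  | zero => rw [zero_add]; rfl
  | succ i ih =>
    have e1 : ∫⁻ x, (Top μ C)^[i + 1] f x * (Top μ C)^[j] f x =
        ∫⁻ x, (Top μ C)^[j] f x * Top μ C ((Top μ C)^[i] f) x := by
      refine lintegral_congr fun x => ?_
      rw [Function.iterate_succ_apply', mul_comm]
    rw [e1, BM_ip_Top (BM_test_iter hCm hf j).supp,
      hs _ _ (BM_meas_iter hCm hf.meas j) (BM_meas_iter hCm hf.meas i),
      ← BM_ip_Top (C := C) (BM_test_iter hCm hf i).supp,
      ← Function.iterate_succ_apply' (Top μ C) j f, ih (j + 1),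
      show i + (j + 1) = i + 1 + j by omega]

theorem BM_P_iter (hCm : MeasurableSet C)
    (hs : ∀ f g : E N → ℝ≥0∞, Measurable f → Measurable g → P μ f g = P μ g f)
    {f : E N → ℝ≥0∞} (hf : Test C f) (i j : ℕ) :
    P μ ((Top μ C)^[i] f) ((Top μ C)^[j] f) = ∫⁻ x, f x * (Top μ C)^[i + j + 1] f x := by
  rw [← BM_ip_Top (C := C) (BM_test_iter hCm hf i).supp,
    ← Function.iterate_succ_apply' (Top μ C) j f, BM_ip_iter hCm hs hf i (j + 1)]
  rfl

theorem BM_ind_mul (f : E N → ℝ≥0∞) (hf : ∀ x, x ∉ C → f x = 0) (x : E N) :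
    C.indicator 1 x * f x = f x := by
  by_cases hx : x ∈ C
  · rw [indicator_of_mem hx]; simp
  · rw [hf x hx, mul_zero]

theorem BM_Z_ip (hCm : MeasurableSet C) (k : ℕ) :
    ∫⁻ x, C.indicator 1 x * (Top μ C)^[k] (C.indicator 1) x = BM_Z μ C k :=
  lintegral_congr fun x => BM_ind_mul _ (BM_test_iter hCm (BM_test_ind hCm) k).supp x

/-- upper bound -/
theorem BM_upper (hCm : MeasurableSet C) (hV : volume C ≠ ∞)
    (hs : ∀ f g : E N → ℝ≥0∞, Measurable f → Measurable g → P μ f g = P μ g f)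
    (hp : ∀ f g : E N → ℝ≥0∞, Measurable f → Measurable g → P μ f g ^ 2 ≤ P μ f f * P μ g g)
    {ρ : ℝ≥0∞} (hρ : ∀ f, Test C f → sqn f = 1 → P μ f f ≤ ρ) (k : ℕ) :
    BM_Z μ C k ≤ ρ ^ k * volume C := by
  have hT := BM_test_ind (N := N) hCm
  have hPi : ∀ i j, P μ ((Top μ C)^[i] (C.indicator 1)) ((Top μ C)^[j] (C.indicator 1)) =
      BM_Z μ C (i + j + 1) := fun i j => by
    rw [BM_P_iter hCm hs hT, BM_Z_ip hCm]
  have hZi : ∀ i, sqn ((Top μ C)^[i] (C.indicator 1)) = BM_Z μ C (i + i) := fun i => by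
    rw [← BM_Z_ip hCm, ← BM_ip_iter hCm hs hT]
    exact lintegral_congr fun x => sq _
  have hodd : ∀ j, BM_Z μ C (2 * j + 1) ≤ ρ * BM_Z μ C (2 * j) := fun j => by
    have h1 := BM_scale hV hCm hρ (BM_test_iter (μ := μ) hCm hT j)
    rw [hPi, hZi] at h1
    rw [two_mul]
    exact h1
  have heven : ∀ j, BM_Z μ C (2 * j + 2) ≤ ρ * BM_Z μ C (2 * j + 1) := fun j => by
    have h1 := hp _ _ (BM_meas_iter (μ := μ) hCm hT.meas j)
      (BM_meas_iter (μ := μ) hCm hT.meas (j + 1))
    rw [hPi, hPi, hPi] at h1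
    have e1 : j + (j + 1) + 1 = 2 * j + 2 := by ring
    have e2 : j + j + 1 = 2 * j + 1 := by ring
    have e3 : j + 1 + (j + 1) + 1 = 2 * (j + 1) + 1 := by ring
    rw [e1, e2, e3] at h1
    have h2 := hodd (j + 1)
    have h3 : BM_Z μ C (2 * j + 2) ^ 2 ≤ BM_Z μ C (2 * j + 1) * (ρ * BM_Z μ C (2 * j + 2)) :=
      h1.trans (mul_le_mul_right h2 _)
    by_cases h0 : BM_Z μ C (2 * j + 2) = 0
    · rw [h0]
      exact zero_le
    · have hne : BM_Z μ C (2 * j + 2) ≠ ∞ := by
        have := BM_sqn_ne_top hV hCm (BM_test_iter (μ := μ) hCm hT (j + 1))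
        rw [hZi] at this
        have e : j + 1 + (j + 1) = 2 * j + 2 := by ring
        rwa [e] at this
      have h4 : BM_Z μ C (2 * j + 2) * BM_Z μ C (2 * j + 2) ≤
          (ρ * BM_Z μ C (2 * j + 1)) * BM_Z μ C (2 * j + 2) := by
        calc _ = BM_Z μ C (2 * j + 2) ^ 2 := (sq _).symm
          _ ≤ _ := h3
          _ = _ := by ring
      exact (ENNReal.mul_le_mul_iff_left h0 hne).1 h4
  have hstep : ∀ k, BM_Z μ C (k + 1) ≤ ρ * BM_Z μ C k := fun k => by
    rcases Nat.even_or_odd' k with ⟨j, rfl | rfl⟩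
    · exact hodd j
    · exact heven j
  induction k with
  | zero =>
    rw [pow_zero, one_mul]
    refine le_of_eq ?_
    show ∫⁻ x, C.indicator 1 x = volume C
    exact lintegral_indicator_one hCm
  | succ k ih =>
    calc BM_Z μ C (k + 1) ≤ ρ * BM_Z μ C k := hstep k
      _ ≤ ρ * (ρ ^ k * volume C) := mul_le_mul_right ih _
      _ = ρ ^ (k + 1) * volume C := by ring

/-- lower bound -/
theorem BM_lower (hCm : MeasurableSet C)
    (hs : ∀ f g : E N → ℝ≥0∞, Measurable f → Measurable g → P μ f g = P μ g f)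
    {f : E N → ℝ≥0∞} (hf : Test C f) (h1 : sqn f = 1) :
    ∃ K : ℝ≥0∞, K ≠ ∞ ∧ ∀ i, P μ f f ^ (2 ^ i) ≤ K * BM_Z μ C (2 ^ i) := by
  obtain ⟨M, hM⟩ := hf.bdd
  refine ⟨(M : ℝ≥0∞) * M, ENNReal.mul_ne_top (by simp) (by simp), fun i => ?_⟩
  set m : ℕ → ℝ≥0∞ := fun k => ∫⁻ x, f x * (Top μ C)^[k] f x with hm
  have hm0 : ∀ k, sqn ((Top μ C)^[k] f) = m (2 * k) := fun k => by
    rw [hm]
    show _ = ∫⁻ x, f x * (Top μ C)^[2 * k] f x
    rw [two_mul, ← BM_ip_iter hCm hs hf]
    exact lintegral_congr fun x => sq _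
  have hcs : ∀ k, m k ^ 2 ≤ m (2 * k) := fun k => by
    have h2 := ENNReal.lintegral_mul_le_Lp_mul_Lq volume (Real.HolderConjugate.two_two)
      hf.meas.aemeasurable (BM_meas_iter (μ := μ) hCm hf.meas k).aemeasurable
    have e1 : (∫⁻ x, f x ^ (2 : ℝ)) = 1 := by
      rw [← h1]
      exact lintegral_congr fun x => ENNReal.rpow_two _
    have e2 : (∫⁻ x, (Top μ C)^[k] f x ^ (2 : ℝ)) = m (2 * k) := by
      rw [← hm0]
      exact lintegral_congr fun x => ENNReal.rpow_two _
    rw [e1, e2, ENNReal.one_rpow, one_mul] at h2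
    calc m k ^ 2 ≤ (m (2 * k) ^ (1 / 2 : ℝ)) ^ 2 := pow_le_pow_left₀ zero_le h2 2
      _ = m (2 * k) := by
        rw [← ENNReal.rpow_natCast, ← ENNReal.rpow_mul]
        norm_num
  have hpow : ∀ i, m 1 ^ (2 ^ i) ≤ m (2 ^ i) := fun i => by
    induction i with
    | zero => simp
    | succ i ih =>
      calc m 1 ^ (2 ^ (i + 1)) = (m 1 ^ (2 ^ i)) ^ 2 := by rw [← pow_mul, pow_succ]
        _ ≤ (m (2 ^ i)) ^ 2 := pow_le_pow_left₀ zero_le ih 2
        _ ≤ m (2 * 2 ^ i) := hcs _
        _ = m (2 ^ (i + 1)) := by rw [pow_succ, mul_comm]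
  have e1 : m 1 = P μ f f := by
    show ∫⁻ x, f x * Top μ C f x = P μ f f
    exact BM_ip_Top hf.supp
  rw [← e1]
  refine (hpow i).trans ?_
  have hle : ∀ (k : ℕ) (x : E N), (Top μ C)^[k] f x ≤ M * (Top μ C)^[k] (C.indicator 1) x := by
    intro k
    induction k with
    | zero =>
      intro x
      by_cases hx : x ∈ C
      · show f x ≤ M * C.indicator 1 x
        rw [indicator_of_mem hx]
        simpa using hM x
      · show f x ≤ M * C.indicator 1 x
        rw [hf.supp x hx]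
        exact zero_le
    | succ k ih =>
      intro x
      rw [Function.iterate_succ_apply', Function.iterate_succ_apply']
      by_cases hx : x ∈ C
      · rw [Top, Top, indicator_of_mem hx, indicator_of_mem hx]
        have h3 := congrFun (BM_avg_const_mul (μ := μ)
          (BM_meas_iter (μ := μ) hCm (measurable_one.indicator hCm) k) (M : ℝ≥0∞)) x
        rw [← h3]
        exact BM_avg_mono ih x
      · rw [Top, Top, indicator_of_notMem hx, indicator_of_notMem hx]
        exact zero_le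
  show ∫⁻ x, f x * (Top μ C)^[2 ^ i] f x ≤ _
  rw [mul_assoc, BM_Z, ← lintegral_const_mul _ (BM_meas_iter (μ := μ) hCm
    (measurable_one.indicator hCm) _), ← lintegral_const_mul _ ((BM_meas_iter (μ := μ) hCm
    (measurable_one.indicator hCm) _).const_mul _)]
  exact lintegral_mono fun x => mul_le_mul' (hM x) (hle _ x)

end iter

theorem BM_pow_absurd {x y K : ℝ≥0∞} (hK : K ≠ ∞) (hxy : y < x)
    (h : ∀ i : ℕ, x ^ (2 ^ i) ≤ K * y ^ (2 ^ i)) : False := by
  have hy : y ≠ ∞ := hxy.ne_top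
  by_cases hx : x = ∞
  · have h1 := h 0
    rw [hx, pow_zero, pow_one, pow_one] at h1
    exact ENNReal.mul_ne_top hK hy (top_le_iff.1 h1)
  · lift x to ℝ≥0 using hx
    lift y to ℝ≥0 using hy
    lift K to ℝ≥0 using hK
    have h' : ∀ i : ℕ, x ^ (2 ^ i) ≤ K * y ^ (2 ^ i) := fun i => by exact_mod_cast h i
    have hxy' : y < x := by exact_mod_cast hxy
    by_cases hy0 : y = 0
    · have h1 := h' 0
      rw [hy0, pow_zero, pow_one, pow_one, mul_zero] at h1
      rw [hy0] at hxy'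
      exact absurd h1 (not_le.2 hxy')
    · have hy1 : 0 < y := pos_iff_ne_zero.2 hy0
      have hr : 1 < x / y := (one_lt_div hy1).2 hxy'
      obtain ⟨n, hn⟩ := pow_unbounded_of_one_lt K hr
      have h1 : (x / y) ^ (2 ^ n) ≤ K := by
        rw [div_pow, div_le_iff₀ (pow_pos hy1 _)]
        exact h' n
      have h2 : (x / y) ^ n ≤ (x / y) ^ (2 ^ n) :=
        pow_le_pow_right₀ hr.le Nat.lt_two_pow_self.le
      exact absurd (hn.trans_le h2) (not_lt.2 h1)

/-- Brunn-Minkowski for the survival rate. -/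
theorem BM_main (W : List (ℝ≥0 × E N))
    (hs : ∀ f g : E N → ℝ≥0∞, Measurable f → Measurable g → P (mu W) f g = P (mu W) g f)
    (hp : ∀ f g : E N → ℝ≥0∞, Measurable f → Measurable g →
      P (mu W) f g ^ 2 ≤ P (mu W) f f * P (mu W) g g)
    {A B C : Set (E N)} (hA : MeasurableSet A) (hB : MeasurableSet B) (hC : MeasurableSet C)
    (_hVA : volume A ≠ ∞) (_hVB : volume B ≠ ∞) (hVC : volume C ≠ ∞)
    (hABC : ∀ x ∈ A, ∀ y ∈ B, (1 / 3 : ℝ) • x + (2 / 3 : ℝ) • y ∈ C)
    {a b r : ℝ} (ha0 : 0 < a) (hb0 : 0 < b) (ha : Adm (mu W) A a) (hb : Adm (mu W) B b)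
    (hr : r ^ 3 ≤ a * b ^ 2) : Adm (mu W) C r := by
  by_contra hcon
  unfold Adm at hcon
  push Not at hcon
  obtain ⟨η, hη, hcon⟩ := hcon
  set ρ : ℝ := max (r - η) 0 with hρ
  have hρ0 : 0 ≤ ρ := le_max_right _ _
  have hup : ∀ f, Test C f → sqn f = 1 → P (mu W) f f ≤ ENNReal.ofReal ρ := by
    intro f hf h1
    have h2 := hcon f hf h1
    rw [← ENNReal.ofReal_toReal (BM_P_ne_top (μ := mu W) hVC hC hf)]
    exact ENNReal.ofReal_le_ofReal (h2.le.trans (le_max_left _ _))
  have hρlt : ρ ^ 3 < a * b ^ 2 := by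
    rcases le_total (r - η) 0 with h | h
    · rw [hρ, max_eq_right h, zero_pow (by norm_num)]
      exact mul_pos ha0 (pow_pos hb0 2)
    · rw [hρ, max_eq_left h]
      refine lt_of_lt_of_le ?_ hr
      exact pow_lt_pow_left₀ (by linarith) h (by norm_num)
  -- choose slightly smaller `a'`, `b'`
  obtain ⟨δ, hδ, hδ1⟩ : ∃ δ : ℝ, 0 < δ ∧ ρ ^ 3 < (a - δ) * (b - δ) ^ 2 ∧ δ < a ∧ δ < b := by
    have hcont : Filter.Tendsto (fun δ : ℝ => (a - δ) * (b - δ) ^ 2) (nhdsWithin 0 (Ioi 0))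
        (nhds ((a - 0) * (b - 0) ^ 2)) :=
      ((by fun_prop : Continuous fun δ : ℝ => (a - δ) * (b - δ) ^ 2).tendsto 0).mono_left
        nhdsWithin_le_nhds
    rw [sub_zero, sub_zero] at hcont
    have h1 := hcont.eventually (lt_mem_nhds hρlt)
    have h2 : ∀ᶠ δ : ℝ in nhdsWithin 0 (Ioi 0), δ < a :=
      nhdsWithin_le_nhds (gt_mem_nhds ha0)
    have h3 : ∀ᶠ δ : ℝ in nhdsWithin 0 (Ioi 0), δ < b :=
      nhdsWithin_le_nhds (gt_mem_nhds hb0)
    have h4 : ∀ᶠ δ : ℝ in nhdsWithin 0 (Ioi 0), 0 < δ := self_mem_nhdsWithin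
    obtain ⟨δ, h5⟩ := (((h1.and h2).and h3).and h4).exists
    exact ⟨δ, h5.2, h5.1.1.1, h5.1.1.2, h5.1.2⟩
  obtain ⟨hδ1, hδa, hδb⟩ := hδ1
  obtain ⟨f, hf, hf1, hfa⟩ := ha δ hδ
  obtain ⟨g, hg, hg1, hgb⟩ := hb δ hδ
  obtain ⟨Ka, hKa, hLa⟩ := BM_lower (μ := mu W) hA hs hf hf1
  obtain ⟨Kb, hKb, hLb⟩ := BM_lower (μ := mu W) hB hs hg hg1
  have hfa' : ENNReal.ofReal (a - δ) ≤ P (mu W) f f :=
    ENNReal.ofReal_le_of_le_toReal hfa
  have hgb' : ENNReal.ofReal (b - δ) ≤ P (mu W) g g :=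
    ENNReal.ofReal_le_of_le_toReal hgb
  refine BM_pow_absurd (x := ENNReal.ofReal ((a - δ) * (b - δ) ^ 2)) (y := ENNReal.ofReal (ρ ^ 3))
    (K := Ka * Kb ^ 2 * volume C ^ 3) ?_ ?_ fun i => ?_
  · exact ENNReal.mul_ne_top (ENNReal.mul_ne_top hKa (ENNReal.pow_ne_top hKb))
      (ENNReal.pow_ne_top hVC)
  · exact (ENNReal.ofReal_lt_ofReal_iff_of_nonneg (pow_nonneg hρ0 3)).2 hδ1
  · have h1 := BM_Zineq W hA hB hC hABC (2 ^ i)
    have h2 := BM_upper (μ := mu W) hC hVC hs hp hup (2 ^ i)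
    have e1 : ENNReal.ofReal ((a - δ) * (b - δ) ^ 2) =
        ENNReal.ofReal (a - δ) * ENNReal.ofReal (b - δ) ^ 2 := by
      rw [ENNReal.ofReal_mul (by linarith), ENNReal.ofReal_pow (by linarith)]
    have e2 : ENNReal.ofReal (ρ ^ 3) = ENNReal.ofReal ρ ^ 3 := ENNReal.ofReal_pow hρ0 3
    set k := 2 ^ i with hk
    rw [e1, e2]
    calc (ENNReal.ofReal (a - δ) * ENNReal.ofReal (b - δ) ^ 2) ^ k
        = ENNReal.ofReal (a - δ) ^ k * (ENNReal.ofReal (b - δ) ^ k) ^ 2 := by
          rw [mul_pow, ← pow_mul, ← pow_mul, mul_comm 2 k]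
      _ ≤ (Ka * BM_Z (mu W) A k) * (Kb * BM_Z (mu W) B k) ^ 2 := by
          refine mul_le_mul' ((pow_le_pow_left₀ zero_le hfa' k).trans (hLa i)) ?_
          exact pow_le_pow_left₀ zero_le ((pow_le_pow_left₀ zero_le hgb' k).trans (hLb i)) 2
      _ = Ka * Kb ^ 2 * (BM_Z (mu W) A k * BM_Z (mu W) B k ^ 2) := by ring
      _ ≤ Ka * Kb ^ 2 * BM_Z (mu W) C k ^ 3 := mul_le_mul_right h1 _
      _ ≤ Ka * Kb ^ 2 * (ENNReal.ofReal ρ ^ k * volume C) ^ 3 :=
          mul_le_mul_right (pow_le_pow_left₀ zero_le h2 3) _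
      _ = Ka * Kb ^ 2 * volume C ^ 3 * (ENNReal.ofReal ρ ^ 3) ^ k := by
          rw [mul_pow, ← pow_mul, ← pow_mul, mul_comm k 3]
          ring

theorem BM_vol_ne_zero {μ : Measure (E N)} {A : Set (E N)} {a : ℝ} (h : Adm μ A a) :
    volume A ≠ 0 := by
  intro h0
  obtain ⟨f, hf, hf1, -⟩ := h 1 one_pos
  have h1 : ∀ᵐ x ∂(volume : Measure (E N)), x ∉ A := measure_eq_zero_iff_ae_notMem.1 h0
  have h2 : sqn f = 0 := by
    unfold sqn
    rw [lintegral_congr_ae (g := fun _ => 0) (by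
      filter_upwards [h1] with x hx
      rw [hf.supp x hx]
      simp)]
    simp
  rw [h2] at hf1
  exact zero_ne_one hf1

theorem BM_adm_nonpos {μ : Measure (E N)} {C : Set (E N)} (hC : MeasurableSet C)
    (hV0 : volume C ≠ 0) (hV : volume C ≠ ∞) {r : ℝ} (hr : r ≤ 0) : Adm μ C r := by
  intro η hη
  set s : ℝ≥0 := (volume C).toNNReal with hs
  have hs' : (s : ℝ≥0∞) = volume C := ENNReal.coe_toNNReal hV
  have hs0 : s ≠ 0 := by
    intro h
    rw [h] at hs'
    exact hV0 hs'.symm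
  set c : ℝ≥0 := (NNReal.sqrt s)⁻¹ with hc
  refine ⟨C.indicator fun _ => (c : ℝ≥0∞), ⟨measurable_const.indicator hC,
    fun x hx => indicator_of_notMem hx _, c, fun x => ?_⟩, ?_, ?_⟩
  · by_cases hx : x ∈ C
    · rw [indicator_of_mem hx]
    · rw [indicator_of_notMem hx]
      exact zero_le
  · have e1 : sqn (C.indicator fun _ => (c : ℝ≥0∞)) =
        ∫⁻ x, C.indicator (fun _ => (c : ℝ≥0∞) ^ 2) x := by
      refine lintegral_congr fun x => ?_
      by_cases hx : x ∈ C
      · rw [indicator_of_mem hx, indicator_of_mem hx]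
      · rw [indicator_of_notMem hx, indicator_of_notMem hx]
        simp
    rw [e1, lintegral_indicator_const hC, ← hs']
    have : c ^ 2 * s = 1 := by
      rw [hc, inv_pow, NNReal.sq_sqrt, inv_mul_cancel₀ hs0]
    exact_mod_cast this
  · exact le_trans (by linarith) ENNReal.toReal_nonneg

/-- Brunn-Minkowski for the survival rate, nonstrict form for open bounded convex sets. -/
theorem BM_final (W : List (ℝ≥0 × E N))
    (hs : ∀ f g : E N → ℝ≥0∞, Measurable f → Measurable g → P (mu W) f g = P (mu W) g f)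
    (hp : ∀ f g : E N → ℝ≥0∞, Measurable f → Measurable g →
      P (mu W) f g ^ 2 ≤ P (mu W) f f * P (mu W) g g)
    {A B C : Set (E N)} (hA : OBC A) (hB : OBC B) (hC : OBC C)
    (hABC : ∀ x ∈ A, ∀ y ∈ B, (1 / 3 : ℝ) • x + (2 / 3 : ℝ) • y ∈ C)
    {a b r : ℝ} (ha0 : 0 ≤ a) (hb0 : 0 ≤ b) (ha : Adm (mu W) A a) (hb : Adm (mu W) B b)
    (hr : r ^ 3 ≤ a * b ^ 2) : Adm (mu W) C r := by
  by_cases h : 0 < a ∧ 0 < b
  · exact BM_main W hs hp hA.op.measurableSet hB.op.measurableSet hC.op.measurableSet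
      hA.bd.measure_lt_top.ne hB.bd.measure_lt_top.ne hC.bd.measure_lt_top.ne hABC h.1 h.2 ha hb hr
  · have h1 : a * b ^ 2 = 0 := by
      rcases not_and_or.1 h with h | h
      · rw [le_antisymm (not_lt.1 h) ha0, zero_mul]
      · rw [le_antisymm (not_lt.1 h) hb0]
        ring
    have hr0 : r ≤ 0 := by
      rw [h1] at hr
      by_contra hcon
      exact absurd hr (not_le.2 (pow_pos (not_le.1 hcon) 3))
    refine BM_adm_nonpos hC.op.measurableSet ?_ hC.bd.measure_lt_top.ne hr0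
    have h2 := BM_Zineq W hA.op.measurableSet hB.op.measurableSet hC.op.measurableSet hABC 0
    have e : ∀ {D : Set (E N)}, MeasurableSet D → BM_Z (mu W) D 0 = volume D := by
      intro D hD
      show ∫⁻ x, D.indicator 1 x = volume D
      exact lintegral_indicator_one hD
    rw [e hA.op.measurableSet, e hB.op.measurableSet, e hC.op.measurableSet] at h2
    intro h3
    rw [h3, zero_pow (by norm_num), nonpos_iff_eq_zero, mul_eq_zero] at h2
    rcases h2 with h2 | h2
    · exact BM_vol_ne_zero ha h2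
    · exact BM_vol_ne_zero hb (pow_eq_zero_iff (by norm_num) |>.1 h2)

/-- Cauchy-Schwarz. -/
theorem BM_cs {f g : E N → ℝ≥0∞} (hf : Measurable f) (hg : Measurable g) :
    (∫⁻ x, f x * g x) ^ 2 ≤ sqn f * sqn g := by
  have h2 := ENNReal.lintegral_mul_le_Lp_mul_Lq volume (Real.HolderConjugate.two_two)
    hf.aemeasurable hg.aemeasurable
  have e : ∀ h : E N → ℝ≥0∞, (∫⁻ x, h x ^ (2 : ℝ)) = sqn h := fun h =>
    lintegral_congr fun x => ENNReal.rpow_two _
  rw [e, e] at h2
  calc (∫⁻ x, f x * g x) ^ 2 ≤ (sqn f ^ (1 / 2 : ℝ) * sqn g ^ (1 / 2 : ℝ)) ^ 2 :=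
        pow_le_pow_left₀ zero_le h2 2
    _ = sqn f * sqn g := by
        rw [mul_pow, ← ENNReal.rpow_natCast, ← ENNReal.rpow_mul, ← ENNReal.rpow_natCast,
          ← ENNReal.rpow_mul]
        norm_num

theorem BM_mu_cs (W : List (ℝ≥0 × E N)) {f g : E N → ℝ≥0∞} (hf : Measurable f)
    (hg : Measurable g) : P (mu W) f g ^ 2 ≤ P (mu W) f f * P (mu W) g g := by
  rw [BMG.P_mu_half W hf hg, BMG.P_mu_self W hf, BMG.P_mu_self W hg]
  exact BM_cs (BMG.measurable_avg _ hf) (BMG.measurable_avg _ hg)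

/-- Brunn-Minkowski for the survival rate, in the form of `KOM92B_stm`. -/
theorem BM {N : ℕ} (W : List (ℝ≥0 × E N)) {A B C : Set (E N)} (hA : OBC A) (hB : OBC B)
    (hC : OBC C) {a b r : ℝ} (ha : 0 ≤ a) (hb : 0 ≤ b) (hAa : Adm (mu W) A a) (hBb : Adm (mu W) B b)
    (hsub : ∀ x ∈ A, ∀ y ∈ B, (1 / 3 : ℝ) • x + (2 / 3 : ℝ) • y ∈ C) (hr : r ^ 3 ≤ a * b ^ 2) :
    Adm (mu W) C r :=
  BM_final W (fun _ _ hf hg => BMG.P_mu_symm W hf hg) (fun _ _ hf hg => BM_mu_cs W hf hg) hA hB hC hsub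
    ha hb hAa hBb hr

end Kom92
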