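import Pool.Agent.LibKom92.BM

/-! The form of task D5 of helper92's skeleton, from `BM`. -/
set_option autoImplicit false

open MeasureTheory ProbabilityTheory Set
open scoped ENNReal NNReal

namespace Kom92

theorem BM_strict {N : ℕ} (W : List (ℝ≥0 × E N)) {A B S : Set (E N)} (hA : OBC A) (hB : OBC B)
    (hS : OBC S)
    (hsub : ∀ x ∈ A, ∀ y ∈ B, (1 / 3 : ℝ) • x + (2 / 3 : ℝ) • y ∈ S)
    {f0 f1 : E N → ℝ≥0∞} (h0 : Test A f0) (h1 : Test B f1) (n0 : sqn f0 = 1) (n1 : sqn f1 = 1)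
    (r : ℝ)
    (hlt : r ^ 3 < (P (mu W) f0 f0).toReal * (P (mu W) f1 f1).toReal ^ 2) :
    ∃ f, Test S f ∧ sqn f = 1 ∧ r ≤ (P (mu W) f f).toReal := by
  have hc : Filter.Tendsto (fun t : ℝ => t ^ 3) (nhdsWithin r (Set.Ioi r)) (nhds (r ^ 3)) :=
    ((continuous_pow 3).tendsto r).mono_left nhdsWithin_le_nhds
  obtain ⟨t, ht1, ht2⟩ := ((hc.eventually_lt_const hlt).and
    (eventually_mem_nhdsWithin (s := Set.Ioi r) (a := r))).exists
  have hrt : r < t := ht2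
  obtain ⟨f, hf, hf1, hf2⟩ := BM W hA hB hS ENNReal.toReal_nonneg ENNReal.toReal_nonneg
    (fun η hη => ⟨f0, h0, n0, by linarith⟩) (fun η hη => ⟨f1, h1, n1, by linarith⟩) hsub ht1.le
    (t - r) (by linarith)
  exact ⟨f, hf, hf1, by linarith⟩

end Kom92
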