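import Mathlib

/-!
Task C1. A one-dimensional tent.  `tent l t = ofReal (√(3/(2l)) * max 0 (1 - |t|/l))`.
`∫ tent² = 1`; for `D(z) = ∫ (h(t+z)-h(t))²`: `|h(t+z)-h(t)| ≤ √(3/(2l)) |z|/l` and it vanishes off a
set of measure `≤ 4l`, so `D(z) ≤ 6 z²/l²`, `∫ h(t) h(t+z) = 1 - D(z)/2 ≥ 1 - 3 z²/l²`.
(It may be easier to prove it for real integrals first.)
-/

set_option autoImplicit false

open MeasureTheory ProbabilityTheory Set
open scoped ENNReal NNReal

namespace Kom92

/-- Normalised tent function. -/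
noncomputable def tent (l t : ℝ) : ℝ≥0∞ :=
  ENNReal.ofReal (Real.sqrt (3 / (2 * l)) * max 0 (1 - |t| / l))

private noncomputable def c1_h (l t : ℝ) : ℝ := max 0 (1 - |t| / l)

private theorem c1_h_nonneg (l t : ℝ) : 0 ≤ c1_h l t := le_max_left _ _

private theorem c1_h_cont (l : ℝ) : Continuous (c1_h l) := by
  unfold c1_h
  fun_prop

private theorem c1_h_zero {l : ℝ} (hl : 0 < l) {t : ℝ} (ht : l ≤ |t|) : c1_h l t = 0 := by
  unfold c1_h
  refine max_eq_left ?_
  have : 1 ≤ |t| / l := (one_le_div hl).2 ht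
  linarith

private theorem c1_h_supp {l : ℝ} (hl : 0 < l) : HasCompactSupport (c1_h l) := by
  refine HasCompactSupport.intro (isCompact_Icc (a := -l) (b := l)) ?_
  intro t ht
  refine c1_h_zero hl ?_
  by_contra hcon
  push Not at hcon
  exact ht (abs_le.1 hcon.le)

private theorem c1_int_sq {l : ℝ} (hl : 0 < l) : ∫ t, c1_h l t ^ 2 = 2 * l / 3 := by
  have e1 : ∀ t, c1_h l t ^ 2 = (fun x : ℝ => (max 0 (1 - x / l)) ^ 2) |t| := fun t => rfl
  simp_rw [e1]
  rw [integral_comp_abs (f := fun x : ℝ => (max 0 (1 - x / l)) ^ 2)]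
  have e2 : ∫ x in Ioi (0 : ℝ), (max 0 (1 - x / l)) ^ 2 =
      ∫ x in Ioc (0 : ℝ) l, (1 - x / l) ^ 2 := by
    have h1 : ∫ x in Ioi (0 : ℝ), (max 0 (1 - x / l)) ^ 2 =
        ∫ x in Ioc (0 : ℝ) l, (max 0 (1 - x / l)) ^ 2 := by
      refine (setIntegral_eq_of_subset_of_forall_diff_eq_zero measurableSet_Ioi
        Ioc_subset_Ioi_self ?_)
      rintro x ⟨hx1, hx2⟩
      have hx : l < x := by
        by_contra hcon
        push Not at hcon
        exact hx2 ⟨hx1, hcon⟩
      have : 1 ≤ x / l := (one_le_div hl).2 hx.le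
      rw [max_eq_left (by linarith)]
      norm_num
    rw [h1]
    refine setIntegral_congr_fun measurableSet_Ioc ?_
    intro x hx
    have : x / l ≤ 1 := (div_le_one hl).2 hx.2
    simp only
    rw [max_eq_right (by linarith)]
  rw [e2, ← intervalIntegral.integral_of_le hl.le]
  have e3 : ∫ x in (0 : ℝ)..l, (1 - x / l) ^ 2 = l / 3 := by
    have hd : ∀ x ∈ Set.uIcc (0 : ℝ) l,
        HasDerivAt (fun x : ℝ => -(l / 3) * (1 - x / l) ^ 3) ((1 - x / l) ^ 2) x := by
      intro x _
      have h1 : HasDerivAt (fun x : ℝ => 1 - x / l) (-(1 / l)) x := by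
        simpa using ((hasDerivAt_id x).div_const l).const_sub 1
      have h2 := (h1.pow 3).const_mul (-(l / 3))
      refine h2.congr_deriv ?_
      have h3 : l * (1 / l) = 1 := by field_simp
      calc -(l / 3) * (((3 : ℕ) : ℝ) * (1 - x / l) ^ (3 - 1) * -(1 / l))
          = (l * (1 / l)) * (1 - x / l) ^ 2 := by push_cast; ring
        _ = (1 - x / l) ^ 2 := by rw [h3, one_mul]
    rw [intervalIntegral.integral_eq_sub_of_hasDerivAt hd
      (Continuous.intervalIntegrable (by fun_prop) _ _)]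
    rw [div_self hl.ne']
    norm_num
  rw [e3]
  ring

private theorem c1_integrable_mul {l : ℝ} (hl : 0 < l) (z : ℝ) :
    Integrable (fun t => c1_h l t * c1_h l (t + z)) := by
  refine Continuous.integrable_of_hasCompactSupport ?_ ?_
  · exact (c1_h_cont l).mul ((c1_h_cont l).comp (by fun_prop))
  · exact (c1_h_supp hl).mul_right

private theorem c1_integrable_sq {l : ℝ} (hl : 0 < l) :
    Integrable (fun t => c1_h l t ^ 2) := by
  have := c1_integrable_mul hl 0
  simpa [sq] using this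

private theorem c1_lip {l : ℝ} (hl : 0 < l) (t z : ℝ) :
    |c1_h l (t + z) - c1_h l t| ≤ |z| / l := by
  unfold c1_h
  refine (abs_max_sub_max_le_max _ _ _ _).trans ?_
  rw [sub_self, abs_zero]
  refine max_le (by positivity) ?_
  have e : 1 - |t + z| / l - (1 - |t| / l) = (|t| - |t + z|) / l := by ring
  rw [e, abs_div, abs_of_pos hl]
  have h1 := abs_abs_sub_abs_le_abs_sub t (t + z)
  have h2 : t - (t + z) = -z := by ring
  rw [h2, abs_neg] at h1
  gcongr

private theorem c1_D {l : ℝ} (hl : 0 < l) (z : ℝ) :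
    ∫ t, (c1_h l (t + z) - c1_h l t) ^ 2 ≤ z ^ 2 / l ^ 2 * (4 * l) := by
  set g : ℝ → ℝ := (Icc (-l) l).indicator (fun _ => (1 : ℝ)) with hg
  have hgi : Integrable g := (integrable_indicator_iff measurableSet_Icc).2
    (integrableOn_const (by simp))
  have hgz : Integrable (fun t => g (t + z)) := hgi.comp_add_right z
  have hgint : ∫ t, g t = 2 * l := by
    rw [hg, integral_indicator measurableSet_Icc]
    simp only [integral_const, MeasurableSet.univ, measureReal_restrict_apply, univ_inter,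
      smul_eq_mul, mul_one]
    rw [Measure.real, Real.volume_Icc, ENNReal.toReal_ofReal (by linarith)]
    ring
  have hsum : ∫ t, (z ^ 2 / l ^ 2) * (g t + g (t + z)) = z ^ 2 / l ^ 2 * (4 * l) := by
    rw [integral_const_mul, integral_add hgi hgz, integral_add_right_eq_self (fun t => g t) z,
      hgint]
    ring
  rw [← hsum]
  refine integral_mono_of_nonneg (Filter.Eventually.of_forall fun t => sq_nonneg _)
    ((hgi.add hgz).const_mul _) (Filter.Eventually.of_forall fun t => ?_)
  have hg0 : ∀ s, 0 ≤ g s := fun s => by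
    rw [hg]
    exact indicator_nonneg (fun _ _ => zero_le_one) s
  have hz0 : 0 ≤ z ^ 2 / l ^ 2 := by positivity
  have hlip : (c1_h l (t + z) - c1_h l t) ^ 2 ≤ z ^ 2 / l ^ 2 := by
    have h1 := c1_lip hl t z
    rw [← div_pow, ← sq_abs, ← sq_abs (z / l), abs_div, abs_of_pos hl]
    exact pow_le_pow_left₀ (abs_nonneg _) h1 2
  show (c1_h l (t + z) - c1_h l t) ^ 2 ≤ z ^ 2 / l ^ 2 * (g t + g (t + z))
  by_cases ht : t ∈ Icc (-l) l
  · have e : g t = 1 := by rw [hg, indicator_of_mem ht]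
    rw [e]
    have := mul_nonneg hz0 (hg0 (t + z))
    nlinarith
  · by_cases ht' : t + z ∈ Icc (-l) l
    · have e : g (t + z) = 1 := by rw [hg, indicator_of_mem ht']
      rw [e]
      have := mul_nonneg hz0 (hg0 t)
      nlinarith
    · have a1 : l ≤ |t| := by
        by_contra hcon
        push Not at hcon
        exact ht (abs_le.1 hcon.le)
      have a2 : l ≤ |t + z| := by
        by_contra hcon
        push Not at hcon
        exact ht' (abs_le.1 hcon.le)
      rw [c1_h_zero hl a1, c1_h_zero hl a2]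
      have := mul_nonneg hz0 (add_nonneg (hg0 t) (hg0 (t + z)))
      simpa using this

private theorem c1_corr {l : ℝ} (hl : 0 < l) (z : ℝ) :
    2 * l / 3 - z ^ 2 / l ^ 2 * (2 * l) ≤ ∫ t, c1_h l t * c1_h l (t + z) := by
  have i1 := c1_integrable_mul hl z
  have i2 := c1_integrable_sq hl
  have i3 : Integrable (fun t => c1_h l (t + z) ^ 2) := i2.comp_add_right z
  have e1 : ∫ t, (c1_h l (t + z) - c1_h l t) ^ 2 =
      (∫ t, c1_h l (t + z) ^ 2) + (∫ t, c1_h l t ^ 2) - 2 * ∫ t, c1_h l t * c1_h l (t + z) := by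
    calc ∫ t, (c1_h l (t + z) - c1_h l t) ^ 2 =
        ∫ t, ((c1_h l (t + z) ^ 2 + c1_h l t ^ 2) - 2 * (c1_h l t * c1_h l (t + z))) := by
          refine integral_congr_ae (Filter.Eventually.of_forall fun t => ?_)
          simp only
          ring
      _ = (∫ t, (c1_h l (t + z) ^ 2 + c1_h l t ^ 2)) -
          ∫ t, 2 * (c1_h l t * c1_h l (t + z)) := integral_sub (i3.add i2) (i1.const_mul 2)
      _ = _ := by rw [integral_add i3 i2, integral_const_mul]
  have e2 : ∫ t, c1_h l (t + z) ^ 2 = ∫ t, c1_h l t ^ 2 :=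
    integral_add_right_eq_self (fun t => c1_h l t ^ 2) z
  have h3 := c1_D hl z
  rw [e1, e2, c1_int_sq hl] at h3
  linarith

theorem tent_meas (l : ℝ) : Measurable (tent l) := by
  unfold tent
  fun_prop

theorem tent_sq {l : ℝ} (hl : 0 < l) : ∫⁻ t, tent l t ^ 2 = 1 := by
  have e1 : ∀ t, tent l t ^ 2 = ENNReal.ofReal (3 / (2 * l) * c1_h l t ^ 2) := by
    intro t
    have ht : tent l t = ENNReal.ofReal (Real.sqrt (3 / (2 * l)) * c1_h l t) := rfl
    rw [ht, ← ENNReal.ofReal_pow (mul_nonneg (Real.sqrt_nonneg _) (c1_h_nonneg l t)), mul_pow,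
      Real.sq_sqrt (by positivity)]
  simp_rw [e1]
  rw [← ofReal_integral_eq_lintegral_ofReal ((c1_integrable_sq hl).const_mul _)
    (Filter.Eventually.of_forall fun t => by positivity), integral_const_mul, c1_int_sq hl]
  have : 3 / (2 * l) * (2 * l / 3) = 1 := by field_simp
  rw [this, ENNReal.ofReal_one]

theorem tent_supp {l : ℝ} (hl : 0 < l) {t : ℝ} (ht : l ≤ |t|) : tent l t = 0 := by
  have h1 : max 0 (1 - |t| / l) = 0 := c1_h_zero hl ht
  rw [tent, h1, mul_zero, ENNReal.ofReal_zero]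

theorem tent_corr {l : ℝ} (hl : 0 < l) (z : ℝ) :
    ENNReal.ofReal (1 - 3 / l ^ 2 * z ^ 2) ≤ ∫⁻ t, tent l t * tent l (t + z) := by
  have e1 : ∀ t, tent l t * tent l (t + z) =
      ENNReal.ofReal (3 / (2 * l) * (c1_h l t * c1_h l (t + z))) := by
    intro t
    have ht : ∀ t, tent l t = ENNReal.ofReal (Real.sqrt (3 / (2 * l)) * c1_h l t) :=
      fun t => rfl
    rw [ht, ht, ← ENNReal.ofReal_mul (mul_nonneg (Real.sqrt_nonneg _) (c1_h_nonneg l t))]
    congr 1
    have := Real.mul_self_sqrt (show 0 ≤ 3 / (2 * l) by positivity)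
    calc Real.sqrt (3 / (2 * l)) * c1_h l t *
        (Real.sqrt (3 / (2 * l)) * c1_h l (t + z)) =
        (Real.sqrt (3 / (2 * l)) * Real.sqrt (3 / (2 * l))) *
          (c1_h l t * c1_h l (t + z)) := by ring
      _ = 3 / (2 * l) * (c1_h l t * c1_h l (t + z)) := by rw [this]
  simp_rw [e1]
  rw [← ofReal_integral_eq_lintegral_ofReal ((c1_integrable_mul hl z).const_mul _)
    (Filter.Eventually.of_forall fun t => by
      have := mul_nonneg (c1_h_nonneg l t) (c1_h_nonneg l (t + z))
      positivity), integral_const_mul]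
  refine ENNReal.ofReal_le_ofReal ?_
  have h1 := mul_le_mul_of_nonneg_left (c1_corr hl z) (show 0 ≤ 3 / (2 * l) by positivity)
  refine le_trans (le_of_eq ?_) h1
  field_simp

end Kom92
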