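import Pool.Agent.LibKom92.Defs
import Pool.Agent.LibKom92.C1

/-! Task C2 (helper29). Product of tents on the cube. -/

set_option autoImplicit false

open MeasureTheory ProbabilityTheory Set
open scoped ENNReal NNReal

namespace Kom92

private theorem C2_slice {d : ℕ} {f : (Fin (d + 1) → ℝ) → ℝ≥0∞} (hf : Measurable f) :
    ∫⁻ x, f x = ∫⁻ x : ℝ, ∫⁻ z : Fin d → ℝ, f (Fin.cons x z) := by
  have hm := (volume_preserving_piFinSuccAbove (fun _ : Fin (d + 1) => ℝ) 0).symm
  have hc : Measurable fun a : ℝ × (Fin d → ℝ) =>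
      f ((MeasurableEquiv.piFinSuccAbove (fun _ : Fin (d + 1) => ℝ) 0).symm a) :=
    hf.comp (MeasurableEquiv.measurable _)
  rw [← hm.lintegral_comp_emb (MeasurableEquiv.measurableEmbedding _) f,
    Measure.volume_eq_prod, lintegral_prod _ hc.aemeasurable]
  refine lintegral_congr fun x => lintegral_congr fun z => ?_
  rw [MeasurableEquiv.piFinSuccAbove_symm_apply, Fin.insertNthEquiv_zero]
  rfl

theorem measurable_fin_prod {N : ℕ} {f : Fin N → ℝ → ℝ≥0∞} (hf : ∀ i, Measurable (f i)) :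
    Measurable fun x : E N => ∏ i, f i (x i) :=
  Finset.measurable_prod _ fun i _ => (hf i).comp (measurable_pi_apply i)

/-- The integral of a product of functions of the coordinates. -/
theorem lintegral_fin_prod (N : ℕ) (f : Fin N → ℝ → ℝ≥0∞) (hf : ∀ i, Measurable (f i)) :
    ∫⁻ x : E N, ∏ i, f i (x i) = ∏ i, ∫⁻ y, f i y := by
  induction N with
  | zero =>
    rw [Measure.volume_pi_eq_dirac 0, lintegral_dirac]
    simp
  | succ n ih =>
    rw [C2_slice (measurable_fin_prod hf), Fin.prod_univ_succ, ← ih _ fun i => hf i.succ,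
      ← lintegral_mul_const _ (hf 0)]
    refine lintegral_congr fun x => ?_
    rw [← lintegral_const_mul _ (measurable_fin_prod fun i => hf i.succ)]
    refine lintegral_congr fun z => ?_
    rw [Fin.prod_univ_succ]
    simp

theorem tentn_le {l : ℝ} (hl : 0 < l) (y : ℝ) : tent l y ≤ (√(3 / (2 * l))).toNNReal := by
  unfold tent
  refine ENNReal.ofReal_le_ofReal ?_
  refine mul_le_of_le_one_right (Real.sqrt_nonneg _) (max_le zero_le_one ?_)
  have : 0 ≤ |y| / l := by positivity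
  linarith

theorem tent_corr_one {l : ℝ} (hl : 0 < l) (h : ℝ) :
    1 ≤ (∫⁻ y, tent l y * tent l (y + h)) + ENNReal.ofReal (3 / l ^ 2 * h ^ 2) := by
  calc (1 : ℝ≥0∞) = ENNReal.ofReal ((1 - 3 / l ^ 2 * h ^ 2) + 3 / l ^ 2 * h ^ 2) := by
        rw [sub_add_cancel, ENNReal.ofReal_one]
    _ ≤ ENNReal.ofReal (1 - 3 / l ^ 2 * h ^ 2) + ENNReal.ofReal (3 / l ^ 2 * h ^ 2) :=
        ENNReal.ofReal_add_le
    _ ≤ _ := by
        gcongr
        exact tent_corr hl h

/-- Product of tents. -/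
noncomputable def cubef {N : ℕ} (l : ℝ) (x : E N) : ℝ≥0∞ := ∏ i, tent l (x i)

theorem cubef_test {N : ℕ} {l : ℝ} (hl : 0 < l) :
    Test {x : E N | ∀ i, |x i| < l} (cubef l) := by
  refine ⟨measurable_fin_prod fun _ => tent_meas l, fun x hx => ?_,
    ∏ _i : Fin N, (√(3 / (2 * l))).toNNReal, fun x => ?_⟩
  · rw [mem_setOf_eq, not_forall] at hx
    obtain ⟨i, hi⟩ := hx
    exact Finset.prod_eq_zero (Finset.mem_univ i) (tent_supp hl (not_lt.1 hi))
  · rw [ENNReal.coe_finset_prod]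
    exact Finset.prod_le_prod' fun i _ => tentn_le hl (x i)

theorem cubef_sqn {N : ℕ} {l : ℝ} (hl : 0 < l) : sqn (cubef (N := N) l) = 1 := by
  unfold sqn cubef
  have h1 : ∀ x : E N, (∏ i, tent l (x i)) ^ 2 = ∏ i, (fun (_ : Fin N) t => tent l t ^ 2) i (x i) :=
    fun x => by rw [Finset.prod_pow]
  rw [lintegral_congr h1, lintegral_fin_prod N _ fun _ => (tent_meas l).pow_const 2]
  simp [tent_sq hl]

theorem one_le_prod_add_sum {N : ℕ} (k a : Fin N → ℝ≥0∞) (hk : ∀ i, k i ≤ 1)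
    (h : ∀ i, 1 ≤ k i + a i) : 1 ≤ (∏ i, k i) + ∑ i, a i := by
  induction N with
  | zero => simp
  | succ n ih =>
    rw [Fin.prod_univ_succ, Fin.sum_univ_succ]
    have h1 := ih (fun i => k i.succ) (fun i => a i.succ) (fun i => hk _) (fun i => h _)
    calc (1 : ℝ≥0∞) ≤ k 0 + a 0 := h 0
      _ ≤ k 0 * ((∏ i : Fin n, k i.succ) + ∑ i : Fin n, a i.succ) + a 0 := by
          gcongr
          exact le_mul_of_one_le_right zero_le h1
      _ = k 0 * (∏ i : Fin n, k i.succ) + k 0 * (∑ i : Fin n, a i.succ) + a 0 := by rw [mul_add]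
      _ ≤ k 0 * (∏ i : Fin n, k i.succ) + 1 * (∑ i : Fin n, a i.succ) + a 0 := by
          gcongr
          exact hk 0
      _ = _ := by rw [one_mul, add_assoc, add_comm (∑ i : Fin n, a i.succ)]

theorem tent_corr_le {l : ℝ} (hl : 0 < l) (h : ℝ) : ∫⁻ y, tent l y * tent l (y + h) ≤ 1 := by
  have hm2 : Measurable fun y : ℝ => tent l y * tent l (y + h) :=
    (tent_meas l).mul ((tent_meas l).comp (measurable_id.add_const h))
  have h1 : ∫⁻ y, (tent l y ^ 2 + tent l (y + h) ^ 2) = 2 := by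
    rw [lintegral_add_left ((tent_meas l).pow_const 2), tent_sq hl,
      lintegral_add_right_eq_self (fun y => tent l y ^ 2) h, tent_sq hl]
    norm_num
  have h2 : ∀ a b : ℝ≥0∞, 2 * (a * b) ≤ a ^ 2 + b ^ 2 := by
    intro a b
    rcases eq_or_ne a ∞ with rfl | ha
    · simp
    rcases eq_or_ne b ∞ with rfl | hb
    · simp
    lift a to NNReal using ha
    lift b to NNReal using hb
    have h3 : 2 * (a * b) ≤ a ^ 2 + b ^ 2 := by
      have h4 : 2 * ((a : ℝ) * b) ≤ (a : ℝ) ^ 2 + (b : ℝ) ^ 2 := by nlinarith [sq_nonneg ((a : ℝ) - b)]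
      exact_mod_cast h4
    exact_mod_cast h3
  have h3 : 2 * ∫⁻ y, tent l y * tent l (y + h) ≤ 2 * 1 := by
    calc 2 * ∫⁻ y, tent l y * tent l (y + h)
        = ∫⁻ y, 2 * (tent l y * tent l (y + h)) := (lintegral_const_mul _ hm2).symm
      _ ≤ ∫⁻ y, (tent l y ^ 2 + tent l (y + h) ^ 2) := lintegral_mono fun y => h2 _ _
      _ = 2 * 1 := by rw [h1, mul_one]
  exact (ENNReal.mul_le_mul_iff_right (by norm_num) (by norm_num)).1 h3

theorem cubef_corr_one {N : ℕ} {l : ℝ} (hl : 0 < l) (z : E N) :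
    1 ≤ (∫⁻ x, cubef l x * cubef l (x + z)) + ENNReal.ofReal (3 / l ^ 2 * nsq z) := by
  have e1 : ∫⁻ x, cubef l x * cubef l (x + z) =
      ∏ i, ∫⁻ y, tent l y * tent l (y + z i) := by
    rw [← lintegral_fin_prod N (fun i y => tent l y * tent l (y + z i))
      fun i => (tent_meas l).mul ((tent_meas l).comp (measurable_id.add_const _))]
    refine lintegral_congr fun x => ?_
    rw [Finset.prod_mul_distrib]
    rfl
  have e2 : ENNReal.ofReal (3 / l ^ 2 * nsq z) = ∑ i, ENNReal.ofReal (3 / l ^ 2 * z i ^ 2) := by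
    unfold nsq
    rw [Finset.mul_sum, ENNReal.ofReal_sum_of_nonneg]
    intro i _
    positivity
  rw [e1, e2]
  exact one_le_prod_add_sum _ _ (fun i => tent_corr_le hl _) fun i => tent_corr_one hl _

theorem nsq_nonneg' {N : ℕ} (z : E N) : 0 ≤ nsq z := Finset.sum_nonneg fun i _ => sq_nonneg _

theorem cubef_corr {N : ℕ} {l : ℝ} (hl : 0 < l) (z : E N) :
    ENNReal.ofReal (1 - 3 / l ^ 2 * nsq z) ≤ ∫⁻ x, cubef l x * cubef l (x + z) := by
  have h0 := nsq_nonneg' z
  rw [ENNReal.ofReal_sub _ (by positivity), ENNReal.ofReal_one]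
  exact tsub_le_iff_right.2 (cubef_corr_one hl z)

end Kom92
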