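import Pool.Agent.LibKom92.Defs

/-! Task C3 (helper29). Second moment of `mu W`. -/

set_option autoImplicit false

open MeasureTheory ProbabilityTheory Set
open scoped ENNReal NNReal

namespace Kom92

private theorem C3_meas_smul {N : ℕ} (w : E N) : Measurable (fun s : ℝ => s • w) :=
  (measurable_id.smul_const w)

theorem C3_nsq_meas {N : ℕ} : Measurable (fun z : E N => ENNReal.ofReal (nsq z)) := by
  refine ENNReal.measurable_ofReal.comp ?_
  unfold nsq
  fun_prop

private theorem C3_lin_prob {N : ℕ} (v : ℝ≥0) (w : E N) : IsProbabilityMeasure (lin v w) := by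
  unfold lin
  exact Measure.isProbabilityMeasure_map (C3_meas_smul w).aemeasurable

private theorem C3_mu_prob {N : ℕ} (W : List (ℝ≥0 × E N)) : IsProbabilityMeasure (mu W) := by
  induction W with
  | nil => unfold mu; infer_instance
  | cons p W ih =>
    have := C3_lin_prob p.1 p.2
    unfold mu
    infer_instance

theorem lin_moment {N : ℕ} (v : ℝ≥0) (w : E N) :
    ∫⁻ z, ENNReal.ofReal (nsq z) ∂(lin v w) = ENNReal.ofReal (v * nsq w) := by
  unfold lin
  rw [lintegral_map C3_nsq_meas (C3_meas_smul w)]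
  have h1 : ∀ s : ℝ, ENNReal.ofReal (nsq (s • w)) = ENNReal.ofReal (s ^ 2) * ENNReal.ofReal (nsq w) := by
    intro s
    rw [← ENNReal.ofReal_mul (sq_nonneg _)]
    congr 1
    unfold nsq
    rw [Finset.mul_sum]
    refine Finset.sum_congr rfl fun i _ => ?_
    rw [Pi.smul_apply, smul_eq_mul, mul_pow]
  rw [lintegral_congr h1, lintegral_mul_const _ (by fun_prop), ENNReal.ofReal_mul (by positivity)]
  congr 1
  have h2 : ∫ s, s ^ 2 ∂(gaussianReal 0 v) = v := by
    have h3 := variance_of_integral_eq_zero (μ := gaussianReal 0 v) (X := id) measurable_id.aemeasurable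
      (by simp)
    have h4 := variance_id_gaussianReal (μ := 0) (v := v)
    rw [h3] at h4
    simpa using h4
  rw [← h2, ofReal_integral_eq_lintegral_ofReal]
  · exact (memLp_id_gaussianReal 2).integrable_sq
  · exact Filter.Eventually.of_forall fun y => sq_nonneg _

private theorem C3_lin_neg {N : ℕ} (v : ℝ≥0) (w : E N) : (lin v w).map (fun x => -x) = lin v w := by
  unfold lin
  rw [Measure.map_map measurable_neg (C3_meas_smul w)]
  have h1 : ((fun x : E N => -x) ∘ fun s : ℝ => s • w) = (fun s : ℝ => s • w) ∘ fun s : ℝ => -s := by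
    funext s
    simp
  rw [h1, ← Measure.map_map (C3_meas_smul w) measurable_neg]
  have h2 : (gaussianReal 0 v).map (fun s : ℝ => -s) = gaussianReal 0 v := by
    have := gaussianReal_map_neg (μ := 0) (v := v)
    simpa using this
  rw [h2]

private theorem C3_par {N : ℕ} (x y : E N) :
    ENNReal.ofReal (nsq (x + y)) + ENNReal.ofReal (nsq (-x + y)) =
      2 * ENNReal.ofReal (nsq x) + 2 * ENNReal.ofReal (nsq y) := by
  have h0 : ∀ z : E N, 0 ≤ nsq z := fun z => Finset.sum_nonneg fun i _ => sq_nonneg _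
  rw [← ENNReal.ofReal_add (h0 _) (h0 _), show (2 : ℝ≥0∞) = ENNReal.ofReal 2 by norm_num,
    ← ENNReal.ofReal_mul (by norm_num), ← ENNReal.ofReal_mul (by norm_num),
    ← ENNReal.ofReal_add (by have := h0 x; positivity) (by have := h0 y; positivity)]
  congr 1
  unfold nsq
  rw [← Finset.sum_add_distrib, Finset.mul_sum, Finset.mul_sum, ← Finset.sum_add_distrib]
  refine Finset.sum_congr rfl fun i _ => ?_
  simp only [Pi.add_apply, Pi.neg_apply]
  ring

theorem mu_moment {N : ℕ} (W : List (ℝ≥0 × E N)) :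
    ∫⁻ z, ENNReal.ofReal (nsq z) ∂(mu W) = ENNReal.ofReal (q W) := by
  induction W with
  | nil =>
    unfold mu q
    rw [lintegral_dirac' _ C3_nsq_meas]
    simp [nsq]
  | cons p W ih =>
    have hp := C3_lin_prob p.1 p.2
    have hW := C3_mu_prob W
    have hq : ∀ W : List (ℝ≥0 × E N), 0 ≤ q W := by
      intro W
      induction W with
      | nil => exact le_rfl
      | cons p W ih =>
        have h0 : 0 ≤ nsq p.2 := Finset.sum_nonneg fun i _ => sq_nonneg _
        unfold q
        positivity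
    have h0 : 0 ≤ nsq p.2 := Finset.sum_nonneg fun i _ => sq_nonneg _
    have hF : Measurable fun z : E N × E N => ENNReal.ofReal (nsq (z.1 + z.2)) :=
      C3_nsq_meas.comp (measurable_fst.add measurable_snd)
    have e0 : ∫⁻ z, ENNReal.ofReal (nsq z) ∂(mu (p :: W)) =
        ∫⁻ x, ∫⁻ y, ENNReal.ofReal (nsq (x + y)) ∂(mu W) ∂(lin p.1 p.2) := by
      change ∫⁻ z, ENNReal.ofReal (nsq z) ∂((lin p.1 p.2) ∗ (mu W)) = _
      rw [Measure.lintegral_conv C3_nsq_meas]
    have e1 : ∫⁻ x, ∫⁻ y, ENNReal.ofReal (nsq (x + y)) ∂(mu W) ∂(lin p.1 p.2) =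
        ∫⁻ x, ∫⁻ y, ENNReal.ofReal (nsq (-x + y)) ∂(mu W) ∂(lin p.1 p.2) := by
      conv_lhs => rw [← C3_lin_neg p.1 p.2]
      rw [lintegral_map _ measurable_neg]
      exact hF.lintegral_prod_right'
    have hA : Measurable fun x : E N => ∫⁻ y, ENNReal.ofReal (nsq (x + y)) ∂(mu W) :=
      hF.lintegral_prod_right'
    have e2 : 2 * ∫⁻ x, ∫⁻ y, ENNReal.ofReal (nsq (x + y)) ∂(mu W) ∂(lin p.1 p.2) =
        2 * (ENNReal.ofReal (p.1 * nsq p.2) + ENNReal.ofReal (q W)) := by
      calc 2 * ∫⁻ x, ∫⁻ y, ENNReal.ofReal (nsq (x + y)) ∂(mu W) ∂(lin p.1 p.2)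
          = (∫⁻ x, ∫⁻ y, ENNReal.ofReal (nsq (x + y)) ∂(mu W) ∂(lin p.1 p.2)) +
              ∫⁻ x, ∫⁻ y, ENNReal.ofReal (nsq (-x + y)) ∂(mu W) ∂(lin p.1 p.2) := by
            rw [← e1, two_mul]
        _ = ∫⁻ x, (2 * ENNReal.ofReal (nsq x) + 2 * ENNReal.ofReal (q W)) ∂(lin p.1 p.2) := by
            rw [← lintegral_add_left hA]
            refine lintegral_congr fun x => ?_
            have hx : Measurable fun y : E N => ENNReal.ofReal (nsq (x + y)) :=
              C3_nsq_meas.comp (measurable_const_add x)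
            rw [← lintegral_add_left hx, lintegral_congr (C3_par x),
              lintegral_add_left measurable_const, lintegral_const_mul _ C3_nsq_meas, ih]
            simp
        _ = _ := by
            rw [lintegral_add_right _ measurable_const, lintegral_const_mul _ C3_nsq_meas,
              lin_moment, mul_add]
            simp
    rw [e0, (ENNReal.mul_right_inj (by norm_num) (by norm_num)).1 e2, ← ENNReal.ofReal_add
      (by positivity) (hq W)]
    rfl

end Kom92
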