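import Pool.Agent.LibKom92.C2
import Pool.Agent.LibKom92.C3

/-! Task C4 (helper29). The cube is in the class. -/

set_option autoImplicit false

open MeasureTheory ProbabilityTheory Set
open scoped ENNReal NNReal

namespace Kom92

private theorem C4_mu_prob {N : ℕ} (W : List (ℝ≥0 × E N)) : IsProbabilityMeasure (mu W) := by
  induction W with
  | nil => unfold mu; infer_instance
  | cons p W ih =>
    have : IsProbabilityMeasure (lin p.1 p.2) := by
      unfold lin
      exact Measure.isProbabilityMeasure_map (measurable_id.smul_const p.2).aemeasurable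
    unfold mu
    infer_instance

theorem cubef_P {N : ℕ} {l : ℝ} (hl : 0 < l) (W : List (ℝ≥0 × E N)) :
    1 ≤ P (mu W) (cubef l) (cubef l) + ENNReal.ofReal (3 / l ^ 2 * q W) ∧
      P (mu W) (cubef l) (cubef l) ≤ 1 := by
  have hp := C4_mu_prob W
  have hm : Measurable (cubef (N := N) l) := (cubef_test hl).meas
  have hF : Measurable fun z : E N × E N => cubef l z.1 * cubef l (z.1 + z.2) :=
    (hm.comp measurable_fst).mul (hm.comp (measurable_fst.add measurable_snd))
  have hF2 : Measurable fun z : E N × E N => cubef l z.2 * cubef l (z.2 + z.1) :=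
    (hm.comp measurable_snd).mul (hm.comp (measurable_snd.add measurable_fst))
  have e1 : P (mu W) (cubef l) (cubef l) =
      ∫⁻ z, (∫⁻ x, cubef l x * cubef l (x + z)) ∂(mu W) := by
    unfold P avg
    have h1 : ∀ x : E N, cubef l x * ∫⁻ z, cubef l (x + z) ∂(mu W) =
        ∫⁻ z, cubef l x * cubef l (x + z) ∂(mu W) := fun x =>
      (lintegral_const_mul _ (hm.comp (measurable_const_add x))).symm
    rw [lintegral_congr h1]
    exact lintegral_lintegral_swap (f := fun x z => cubef l x * cubef l (x + z)) hF.aemeasurable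
  have hR : Measurable fun z : E N => ∫⁻ x, cubef l x * cubef l (x + z) :=
    hF2.lintegral_prod_right'
  have hnn : ∀ z : E N, ENNReal.ofReal (3 / l ^ 2 * nsq z) =
      ENNReal.ofReal (3 / l ^ 2) * ENNReal.ofReal (nsq z) := fun z =>
    ENNReal.ofReal_mul (by positivity)
  constructor
  · calc (1 : ℝ≥0∞) = ∫⁻ _z, 1 ∂(mu W) := by simp
      _ ≤ ∫⁻ z, ((∫⁻ x, cubef l x * cubef l (x + z)) +
            ENNReal.ofReal (3 / l ^ 2) * ENNReal.ofReal (nsq z)) ∂(mu W) := by
          refine lintegral_mono fun z => ?_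
          rw [← hnn]
          exact cubef_corr_one hl z
      _ = _ := by
          rw [lintegral_add_left hR, ← e1, lintegral_const_mul _ C3_nsq_meas, mu_moment,
            ← ENNReal.ofReal_mul (by positivity)]
  · rw [e1]
    calc ∫⁻ z, (∫⁻ x, cubef l x * cubef l (x + z)) ∂(mu W) ≤ ∫⁻ _z, 1 ∂(mu W) := by
          refine lintegral_mono fun z => ?_
          have e2 : ∫⁻ x, cubef l x * cubef l (x + z) =
              ∏ i, ∫⁻ y, tent l y * tent l (y + z i) := by
            rw [← lintegral_fin_prod N (fun i y => tent l y * tent l (y + z i))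
              fun i => (tent_meas l).mul ((tent_meas l).comp (measurable_id.add_const _))]
            refine lintegral_congr fun x => ?_
            rw [Finset.prod_mul_distrib]
            rfl
          rw [e2]
          exact Finset.prod_le_one' fun i _ => tent_corr_le hl _
      _ = 1 := by simp

theorem cube_K {N : ℕ} {l : ℝ} (hl : 0 < l) :
    K (3 / l ^ 2) {x : E N | ∀ i, |x i| < l} := by
  intro W η hη
  refine ⟨cubef l, cubef_test hl, cubef_sqn hl, ?_⟩
  obtain ⟨h1, h2⟩ := cubef_P (N := N) hl W
  have hfin : P (mu W) (cubef l) (cubef l) ≠ ∞ := ne_top_of_le_ne_top ENNReal.one_ne_top h2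
  have hq : 0 ≤ 3 / l ^ 2 * q W := by
    by_contra hc
    push Not at hc
    have h3 : ENNReal.ofReal (3 / l ^ 2 * q W) = 0 := ENNReal.ofReal_of_nonpos hc.le
    have h4 : ∀ W : List (ℝ≥0 × E N), 0 ≤ q W := by
      intro W
      induction W with
      | nil => exact le_rfl
      | cons p W ih =>
        have h0 : 0 ≤ nsq p.2 := nsq_nonneg' _
        unfold q
        positivity
    have h5 := h4 W
    have : 0 ≤ 3 / l ^ 2 * q W := by positivity
    linarith
  have h3 : (1 : ℝ) ≤ (P (mu W) (cubef l) (cubef l)).toReal + 3 / l ^ 2 * q W := by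
    have h4 := ENNReal.toReal_mono (ENNReal.add_ne_top.2 ⟨hfin, ENNReal.ofReal_ne_top⟩) h1
    rwa [ENNReal.toReal_one, ENNReal.toReal_add hfin ENNReal.ofReal_ne_top,
      ENNReal.toReal_ofReal hq] at h4
  linarith

theorem cube {N : ℕ} {l : ℝ} (hl : 0 < l) : K (3 / l ^ 2) {x : E N | ∀ i, |x i| < l} :=
  cube_K hl

theorem cube_OBC {N : ℕ} {l : ℝ} (hl : 0 < l) : OBC {x : E N | ∀ i, |x i| < l} := by
  have e : {x : E N | ∀ i, |x i| < l} = univ.pi fun _ => Ioo (-l) l := by
    ext x
    simp only [mem_setOf_eq, mem_pi, mem_univ, true_implies, mem_Ioo, abs_lt]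
  rw [e]
  refine ⟨isOpen_set_pi finite_univ fun _ _ => isOpen_Ioo,
    Bornology.IsBounded.pi fun _ => Metric.isBounded_Ioo _ _, ?_⟩
  exact convex_pi fun _ _ => convex_Ioo _ _

end Kom92
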