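import Mathlib

/-!
Komlós conjecture (proof of helper72, derivative-free version).  Definitions.
`E N = Fin N → ℝ` with Lebesgue measure `volume`; `nsq` is the squared Euclidean length.
Test functions are measurable `E N → ℝ≥0∞`, bounded by a finite constant, zero off `C`.
All integrals are lower integrals, so there are no integrability side conditions.
-/

set_option autoImplicit false

open MeasureTheory ProbabilityTheory Set
open scoped ENNReal NNReal

namespace Kom92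

abbrev E (N : ℕ) := Fin N → ℝ

/-- Squared Euclidean length. -/
def nsq {N : ℕ} (w : E N) : ℝ := ∑ i, w i ^ 2

/-- Law of `g • w`, `g` a centred Gaussian of variance `v`. -/
noncomputable def lin {N : ℕ} (v : ℝ≥0) (w : E N) : Measure (E N) :=
  (gaussianReal 0 v).map (fun s : ℝ => s • w)

/-- Law of the sum of independent `g_i • w_i`, `g_i` centred Gaussian of variance `v_i`, for the
list of the `(v_i, w_i)`. -/
noncomputable def mu {N : ℕ} : List (ℝ≥0 × E N) → Measure (E N)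
  | [] => Measure.dirac 0
  | p :: W => (lin p.1 p.2) ∗ (mu W)

/-- `∑ v_i |w_i|²`. -/
def q {N : ℕ} : List (ℝ≥0 × E N) → ℝ
  | [] => 0
  | p :: W => (p.1 : ℝ) * nsq p.2 + q W

/-- Multiply all variances by `t`. -/
def scale {N : ℕ} (t : ℝ≥0) (W : List (ℝ≥0 × E N)) : List (ℝ≥0 × E N) :=
  W.map (fun p => (t * p.1, p.2))

/-- Average of translates of `f` with respect to `μ`. -/
noncomputable def avg {N : ℕ} (μ : Measure (E N)) (f : E N → ℝ≥0∞) (x : E N) : ℝ≥0∞ :=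
  ∫⁻ z, f (x + z) ∂μ

/-- `⟨f, G_μ g⟩`. -/
noncomputable def P {N : ℕ} (μ : Measure (E N)) (f g : E N → ℝ≥0∞) : ℝ≥0∞ :=
  ∫⁻ x, f x * avg μ g x

/-- Squared `L²` norm. -/
noncomputable def sqn {N : ℕ} (f : E N → ℝ≥0∞) : ℝ≥0∞ := ∫⁻ x, f x ^ 2

/-- Test functions of the set `C`. -/
structure Test {N : ℕ} (C : Set (E N)) (f : E N → ℝ≥0∞) : Prop where
  meas : Measurable f
  supp : ∀ x, x ∉ C → f x = 0
  bdd : ∃ M : ℝ≥0, ∀ x, f x ≤ M

/-- `⟨f, G_μ f⟩` takes values arbitrarily close to `r` or larger on normalised test functions. -/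
def Adm {N : ℕ} (μ : Measure (E N)) (C : Set (E N)) (r : ℝ) : Prop :=
  ∀ η : ℝ, 0 < η → ∃ f, Test C f ∧ sqn f = 1 ∧ r - η ≤ (P μ f f).toReal

/-- The class of sets. -/
def K {N : ℕ} (Λ : ℝ) (C : Set (E N)) : Prop :=
  ∀ W : List (ℝ≥0 × E N), Adm (mu W) C (1 - Λ * q W)

/-- Open bounded convex sets. -/
structure OBC {N : ℕ} (C : Set (E N)) : Prop where
  op : IsOpen C
  bd : Bornology.IsBounded C
  cv : Convex ℝ C

/-- Banaszczyk's operation. -/
def star {N : ℕ} (C : Set (E N)) (u : E N) : Set (E N) :=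
  {p | ∃ s : ℝ, -2 ≤ s ∧ s ≤ 2 ∧ p + (s + 1) • u ∈ C ∧ p + (s - 1) • u ∈ C}

/-- Extension. -/
def ext {N : ℕ} (C : Set (E N)) (u : E N) : Set (E N) :=
  {p | ∃ t : ℝ, -3 ≤ t ∧ t ≤ 3 ∧ p + t • u ∈ C}

/-- Erosion. -/
def ero {N : ℕ} (C : Set (E N)) (u : E N) : Set (E N) :=
  {p | p + (3 : ℝ) • u ∈ C ∧ p - (3 : ℝ) • u ∈ C}

/-- The operator `h ↦ 1_C G_μ h`. -/
noncomputable def Top {N : ℕ} (μ : Measure (E N)) (C : Set (E N)) (h : E N → ℝ≥0∞) :
    E N → ℝ≥0∞ := C.indicator (avg μ h)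

end Kom92
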