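import Pool.Agent.LibKom92.A3

/-!
Task G1. Geometry of `star`, `ext`, `ero`.
`comb_sub`: `p = a/3 + 2b/3`, `a ± 3u ∈ C`, `b + t u ∈ C`, `|t| ≤ 3`: with `s = 2t/3`,
`p + (s+1) u = (a+3u)/3 + 2(b+tu)/3`, `p + (s-1) u = (a-3u)/3 + 2(b+tu)/3`.
-/

set_option autoImplicit false

open MeasureTheory ProbabilityTheory Set
open scoped ENNReal NNReal

namespace Kom92

theorem G1_seg {N : ℕ} {C : Set (E N)} (hC : Convex ℝ C) {q u : E N} {a b t : ℝ}
    (ha : q + a • u ∈ C) (hb : q + b • u ∈ C) (h1 : a ≤ t) (h2 : t ≤ b) : q + t • u ∈ C := by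
  rcases eq_or_lt_of_le (h1.trans h2) with h | h
  · have : t = a := le_antisymm (by linarith) h1
    rw [this]; exact ha
  · have hpos : 0 < b - a := by linarith
    have := hC ha hb (a := (b - t) / (b - a)) (b := (t - a) / (b - a))
      (div_nonneg (by linarith) hpos.le) (div_nonneg (by linarith) hpos.le)
      (by field_simp; ring)
    have e : ((b - t) / (b - a)) • (q + a • u) + ((t - a) / (b - a)) • (q + b • u) = q + t • u := by
      ext i
      simp only [Pi.add_apply, Pi.smul_apply, smul_eq_mul]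
      field_simp
      ring
    rwa [e] at this

theorem OBC.star {N : ℕ} {C : Set (E N)} (h : OBC C) (u : E N) : OBC (Kom92.star C u) := by
  refine ⟨?_, ?_, ?_⟩
  · have : Kom92.star C u = ⋃ s ∈ Set.Icc (-2 : ℝ) 2,
        ((fun p : E N => p + (s + 1) • u) ⁻¹' C) ∩ ((fun p : E N => p + (s - 1) • u) ⁻¹' C) := by
      ext p
      simp only [Kom92.star, Set.mem_ofPred_eq, Set.mem_iUnion, Set.mem_inter_iff, Set.mem_preimage,
        exists_prop, Set.mem_Icc, and_assoc]
    rw [this]
    refine isOpen_biUnion fun s _ => ?_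
    exact (h.op.preimage (by fun_prop)).inter (h.op.preimage (by fun_prop))
  · obtain ⟨R, hR⟩ := h.bd.exists_norm_le
    refine (Metric.isBounded_iff_subset_closedBall 0).2 ⟨R + 3 * ‖u‖, ?_⟩
    rintro p ⟨s, hs1, hs2, h1, h2⟩
    rw [mem_closedBall_zero_iff]
    have h3 := hR _ h1
    have h4 : p = (p + (s + 1) • u) - (s + 1) • u := by simp
    rw [h4]
    refine (norm_sub_le _ _).trans (add_le_add h3 ?_)
    rw [norm_smul]
    refine mul_le_mul_of_nonneg_right ?_ (norm_nonneg _)
    rw [Real.norm_eq_abs, abs_le]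
    constructor <;> linarith
  · rintro p ⟨s, hs1, hs2, h1, h2⟩ q ⟨t, ht1, ht2, k1, k2⟩ a b ha hb hab
    refine ⟨a * s + b * t, by nlinarith, by nlinarith, ?_, ?_⟩
    · have := h.cv h1 k1 ha hb hab
      have e : a • (p + (s + 1) • u) + b • (q + (t + 1) • u) =
          a • p + b • q + (a * s + b * t + 1) • u := by
        ext i
        simp only [Pi.add_apply, Pi.smul_apply, smul_eq_mul]
        have : b = 1 - a := by linarith
        subst this; ring
      rwa [e] at this
    · have := h.cv h2 k2 ha hb hab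
      have e : a • (p + (s - 1) • u) + b • (q + (t - 1) • u) =
          a • p + b • q + (a * s + b * t - 1) • u := by
        ext i
        simp only [Pi.add_apply, Pi.smul_apply, smul_eq_mul]
        have : b = 1 - a := by linarith
        subst this; ring
      rwa [e] at this

theorem OBC.ext {N : ℕ} {C : Set (E N)} (h : OBC C) (u : E N) : OBC (Kom92.ext C u) := by
  refine ⟨?_, ?_, ?_⟩
  · have : Kom92.ext C u = ⋃ s ∈ Set.Icc (-3 : ℝ) 3, ((fun p : E N => p + s • u) ⁻¹' C) := by
      ext p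
      simp only [Kom92.ext, Set.mem_ofPred_eq, Set.mem_iUnion, Set.mem_preimage, exists_prop,
        Set.mem_Icc, and_assoc]
    rw [this]
    exact isOpen_biUnion fun s _ => h.op.preimage (by fun_prop)
  · obtain ⟨R, hR⟩ := h.bd.exists_norm_le
    refine (Metric.isBounded_iff_subset_closedBall 0).2 ⟨R + 3 * ‖u‖, ?_⟩
    rintro p ⟨s, hs1, hs2, h1⟩
    rw [mem_closedBall_zero_iff]
    have h3 := hR _ h1
    have h4 : p = (p + s • u) - s • u := by simp
    rw [h4]
    refine (norm_sub_le _ _).trans (add_le_add h3 ?_)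
    rw [norm_smul]
    refine mul_le_mul_of_nonneg_right ?_ (norm_nonneg _)
    rw [Real.norm_eq_abs, abs_le]
    exact ⟨hs1, hs2⟩
  · rintro p ⟨s, hs1, hs2, h1⟩ q ⟨t, ht1, ht2, k1⟩ x y hx hy hxy
    refine ⟨x * s + y * t, by nlinarith, by nlinarith, ?_⟩
    have := h.cv h1 k1 hx hy hxy
    have e : x • (p + s • u) + y • (q + t • u) = x • p + y • q + (x * s + y * t) • u := by
      ext i
      simp only [Pi.add_apply, Pi.smul_apply, smul_eq_mul]
      ring
    rwa [e] at this

theorem OBC.ero {N : ℕ} {C : Set (E N)} (h : OBC C) (u : E N) : OBC (Kom92.ero C u) := by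
  refine ⟨?_, ?_, ?_⟩
  · exact (h.op.preimage (by fun_prop : Continuous fun p : E N => p + (3 : ℝ) • u)).inter
      (h.op.preimage (by fun_prop : Continuous fun p : E N => p - (3 : ℝ) • u))
  · refine (h.ext u).bd.subset ?_
    rintro p ⟨h1, -⟩
    exact ⟨3, by norm_num, le_rfl, h1⟩
  · rintro p ⟨h1, h2⟩ q ⟨k1, k2⟩ x y hx hy hxy
    constructor
    · have := h.cv h1 k1 hx hy hxy
      have e : x • (p + (3 : ℝ) • u) + y • (q + (3 : ℝ) • u) = x • p + y • q + (3 : ℝ) • u := by
        ext i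
        simp only [Pi.add_apply, Pi.smul_apply, smul_eq_mul]
        have : y = 1 - x := by linarith
        subst this; ring
      rwa [e] at this
    · have := h.cv h2 k2 hx hy hxy
      have e : x • (p - (3 : ℝ) • u) + y • (q - (3 : ℝ) • u) = x • p + y • q - (3 : ℝ) • u := by
        ext i
        simp only [Pi.add_apply, Pi.sub_apply, Pi.smul_apply, smul_eq_mul]
        have : y = 1 - x := by linarith
        subst this; ring
      rwa [e] at this

theorem sub_ext {N : ℕ} (C : Set (E N)) (u : E N) : C ⊆ ext C u :=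
  fun p hp => ⟨0, by norm_num, by norm_num, by simpa using hp⟩

theorem comb_sub {N : ℕ} {C : Set (E N)} (h : OBC C) (u : E N) :
    ∀ x ∈ ero C u, ∀ y ∈ ext C u, (1 / 3 : ℝ) • x + (2 / 3 : ℝ) • y ∈ star C u := by
  rintro p ⟨h1, h2⟩ q ⟨s, hs1, hs2, h3⟩
  refine ⟨(2 / 3) * s, by linarith, by linarith, ?_, ?_⟩
  · have := h.cv h1 h3 (a := 1 / 3) (b := 2 / 3) (by norm_num) (by norm_num) (by norm_num)
    convert this using 1
    ext i; simp only [Pi.add_apply, Pi.smul_apply, smul_eq_mul]; ring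
  · have := h.cv h2 h3 (a := 1 / 3) (b := 2 / 3) (by norm_num) (by norm_num) (by norm_num)
    convert this using 1
    ext i; simp only [Pi.add_apply, Pi.sub_apply, Pi.smul_apply, smul_eq_mul]; ring

theorem star_or {N : ℕ} {C : Set (E N)} (h : OBC C) {u p : E N} (hp : p ∈ star C u) :
    p + u ∈ C ∨ p - u ∈ C := by
  obtain ⟨s, hs1, hs2, h1, h2⟩ := hp
  rcases le_total 0 s with hs | hs
  · left
    have := G1_seg h.cv h2 h1 (t := 1) (by linarith) (by linarith)
    simpa using this
  · right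
    have := G1_seg h.cv h2 h1 (t := -1) (by linarith) (by linarith)
    simpa [sub_eq_add_neg] using this

theorem star_symm {N : ℕ} {C : Set (E N)} (hs : ∀ x ∈ C, -x ∈ C) (u : E N) :
    ∀ x ∈ star C u, -x ∈ star C u := by
  rintro p ⟨s, hs1, hs2, h1, h2⟩
  refine ⟨-s, by linarith, by linarith, ?_, ?_⟩
  · have := hs _ h2
    have e : -(p + (s - 1) • u) = -p + (-s + 1) • u := by
      ext i; simp only [Pi.add_apply, Pi.smul_apply, Pi.neg_apply, smul_eq_mul]; ring
    rwa [e] at this
  · have := hs _ h1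
    have e : -(p + (s + 1) • u) = -p + (-s - 1) • u := by
      ext i; simp only [Pi.add_apply, Pi.smul_apply, Pi.neg_apply, smul_eq_mul]; ring
    rwa [e] at this

theorem test_min {N : ℕ} {C : Set (E N)} {f : E N → ℝ≥0∞} (hf : Test C f) (u : E N) :
    Test (ero C u) (fun x => min (f (x + (3 : ℝ) • u)) (f (x - (3 : ℝ) • u))) := by
  obtain ⟨M, hM⟩ := hf.bdd
  refine ⟨?_, ?_, ⟨M, fun x => (min_le_left _ _).trans (hM _)⟩⟩
  · exact (hf.meas.comp (measurable_add_const _)).min (hf.meas.comp (measurable_sub_const _))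
  · intro x hx
    simp only [ero, Set.mem_ofPred_eq, not_and_or] at hx
    rcases hx with hx | hx
    · rw [hf.supp _ hx]; simp
    · rw [hf.supp _ hx]; simp

theorem test_max {N : ℕ} {C : Set (E N)} {f : E N → ℝ≥0∞} (hf : Test C f) (u : E N) :
    Test (ext C u) (fun x => max (f (x + (3 : ℝ) • u)) (f (x - (3 : ℝ) • u))) := by
  obtain ⟨M, hM⟩ := hf.bdd
  refine ⟨?_, ?_, ⟨M, fun x => max_le (hM _) (hM _)⟩⟩
  · exact (hf.meas.comp (measurable_add_const _)).max (hf.meas.comp (measurable_sub_const _))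
  · intro x hx
    have h1 : f (x + (3 : ℝ) • u) = 0 :=
      hf.supp _ fun h => hx ⟨3, by norm_num, le_rfl, h⟩
    have h2 : f (x - (3 : ℝ) • u) = 0 :=
      hf.supp _ fun h => hx ⟨-3, le_rfl, by norm_num, by
        rw [neg_smul, ← sub_eq_add_neg]; exact h⟩
    rw [h1, h2, max_self]

end Kom92
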