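import Mathlib

/-!
Task M1. The numerical inequalities of the main lemma.
`num_log`: `log(1-e) ≥ -e-e²` for `0 ≤ e ≤ 1/2` and `log r ≤ r - 1`, exponentiate (or polynomials).
`num_comb`: `s e1 + (2-s) e2 ≤ 2λ`, `e2 ≤ λ`, `2/3 ≤ s`:
`(e1+2e2)/3 = (1/(3s)) (s e1 + (2-s) e2) + ((3s-2)/(3s)) e2 ≤ λ`.
-/

set_option autoImplicit false

open MeasureTheory ProbabilityTheory Set
open scoped ENNReal NNReal

namespace Kom92

theorem exp_quad (e : ℝ) (h : 0 ≤ e) (h' : e ≤ 1 / 2) : Real.exp (-(e + e ^ 2)) ≤ 1 - e := by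
  have h1 : 1 + (e + e ^ 2) + (e + e ^ 2) ^ 2 / 2 ≤ Real.exp (e + e ^ 2) := by
    have := Real.quadratic_le_exp_of_nonneg (x := e + e ^ 2) (by positivity)
    linarith
  have h2 : 1 ≤ (1 - e) * Real.exp (e + e ^ 2) := by
    have h3 : (1 - e) * (1 + (e + e ^ 2) + (e + e ^ 2) ^ 2 / 2) ≤ (1 - e) * Real.exp (e + e ^ 2) :=
      mul_le_mul_of_nonneg_left h1 (by linarith)
    have h4 : 1 ≤ (1 - e) * (1 + (e + e ^ 2) + (e + e ^ 2) ^ 2 / 2) := by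
      nlinarith [mul_nonneg h h, mul_nonneg (mul_nonneg h h) h, mul_nonneg (mul_nonneg h h) (sub_nonneg.2 h'), pow_nonneg h 4]
    linarith
  rw [Real.exp_neg]
  have h5 := Real.exp_pos (e + e ^ 2)
  rw [inv_le_iff_one_le_mul₀ h5]
  exact h2

theorem num_log (e1 e2 : ℝ) (h1 : 0 ≤ e1) (h1' : e1 ≤ 1 / 2) (h2 : 0 ≤ e2) (h2' : e2 ≤ 1 / 2)
    (r : ℝ) (hr : 0 ≤ r) (hr' : r < 1 - (e1 + 2 * e2) / 3 - (e1 + e2) ^ 2) :
    r ^ 3 < (1 - e1) * (1 - e2) ^ 2 := by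
  set x : ℝ := (e1 + 2 * e2) / 3 + (e1 + e2) ^ 2 with hx
  have hb : r < 1 - x := by rw [hx]; linarith
  have hle : 1 - x ≤ Real.exp (-x) := by
    have := Real.add_one_le_exp (-x)
    linarith
  have hrx : r < Real.exp (-x) := lt_of_lt_of_le hb hle
  have h3 : r ^ 3 < Real.exp (-x) ^ 3 := pow_lt_pow_left₀ hrx hr (by norm_num)
  have h4 : Real.exp (-x) ^ 3 = Real.exp (-(3 * x)) := by
    rw [← Real.exp_nat_mul]
    congr 1
    push_cast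
    ring
  have h5 : Real.exp (-(3 * x)) ≤ Real.exp (-(e1 + e1 ^ 2)) * Real.exp (-(e2 + e2 ^ 2)) ^ 2 := by
    rw [← Real.exp_nat_mul, ← Real.exp_add]
    apply Real.exp_le_exp.2
    push_cast
    rw [hx]
    nlinarith [mul_nonneg h1 h2, sq_nonneg e1, sq_nonneg e2]
  have h6 : Real.exp (-(e1 + e1 ^ 2)) * Real.exp (-(e2 + e2 ^ 2)) ^ 2 ≤
      (1 - e1) * (1 - e2) ^ 2 := by
    have a1 := exp_quad e1 h1 h1'
    have a2 := exp_quad e2 h2 h2'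
    have p1 := Real.exp_pos (-(e1 + e1 ^ 2))
    have p2 := Real.exp_pos (-(e2 + e2 ^ 2))
    have a3 : Real.exp (-(e2 + e2 ^ 2)) ^ 2 ≤ (1 - e2) ^ 2 := pow_le_pow_left₀ p2.le a2 2
    exact mul_le_mul a1 a3 (by positivity) (by linarith)
  linarith

theorem num_comb (s e1 e2 l : ℝ) (hs : 2 / 3 ≤ s) (hs1 : s ≤ 1) (h2 : e2 ≤ l) (h20 : 0 ≤ e2)
    (h : s * e1 + (2 - s) * e2 ≤ 2 * l) : (e1 + 2 * e2) / 3 ≤ l ∧ e1 ≤ 3 * l := by
  have hs0 : 0 < s := by linarith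
  constructor
  · have h3 : s * ((e1 + 2 * e2) / 3) ≤ s * l := by
      nlinarith [mul_nonneg (sub_nonneg.2 h2) (by linarith : (0:ℝ) ≤ 3 * s - 2)]
    exact le_of_mul_le_mul_left h3 hs0
  · have h3 : s * e1 ≤ s * (3 * l) := by
      nlinarith [mul_nonneg h20 (by linarith : (0:ℝ) ≤ 2 - s), mul_nonneg (le_trans h20 h2) (by linarith : (0:ℝ) ≤ 3 * s - 2)]
    exact le_of_mul_le_mul_left h3 hs0

/-- Choice of `n` and `δ` at the end. -/
theorem num_end (c η : ℝ) (hc : 0 ≤ c) (hη : 0 < η) : ∃ (n : ℕ) (δ : ℝ), 1 ≤ n ∧ 0 < δ ∧ δ ≤ η ∧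
    c / n + δ ≤ 1 / 100 ∧
    n * ((c / n + δ) + 16 * (c / n + δ) ^ 2 + δ) ≤ c + η := by
  set a : ℝ := min (η / 4) 1 with ha
  have ha0 : 0 < a := lt_min (by linarith) one_pos
  have ha1 : a ≤ 1 := min_le_right _ _
  have haη : a ≤ η / 4 := min_le_left _ _
  obtain ⟨n, hn⟩ := exists_nat_ge (100 * (c + 1) + 32 * (c + 1) ^ 2 / η + 1)
  have hq : 0 ≤ 32 * (c + 1) ^ 2 / η := by positivity
  have hn1 : (1 : ℝ) ≤ n := by nlinarith
  have hn0 : (0 : ℝ) < n := by linarith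
  have hca : 0 ≤ c + a := by linarith
  have hna : 100 * (c + a) ≤ n := by linarith
  have hna2 : 16 * (c + a) ^ 2 ≤ n * (η / 2) := by
    have h1 : 32 * (c + 1) ^ 2 / η ≤ n := by linarith
    rw [div_le_iff₀ hη] at h1
    have h2 : (c + a) ^ 2 ≤ (c + 1) ^ 2 := pow_le_pow_left₀ hca (by linarith) 2
    linarith
  have hdn : c / n + a / n = (c + a) / n := by ring
  refine ⟨n, a / n, ?_, by positivity, ?_, ?_, ?_⟩
  · exact_mod_cast hn1
  · rw [div_le_iff₀ hn0]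
    nlinarith
  · rw [hdn, div_le_iff₀ hn0]
    linarith
  · rw [hdn]
    have e1 : (n : ℝ) * ((c + a) / n + 16 * ((c + a) / n) ^ 2 + a / n) =
        (c + a) + 16 * (c + a) ^ 2 / n + a := by
      field_simp
    rw [e1]
    have e2 : 16 * (c + a) ^ 2 / n ≤ η / 2 := by
      rw [div_le_iff₀ hn0]
      linarith
    linarith

end Kom92
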