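import Pool.Agent.LibKom92.B3
import Pool.Agent.LibKom92.B4
import Pool.Agent.LibKom92.B5
import Pool.Agent.LibKom92.BMstrict
import Pool.Agent.LibKom92.G1
import Pool.Agent.LibKom92.M1

/-!
Task M2 (helper83). The main lemma: if `Λ` is small, `C` open bounded convex in the class `K Λ` and
`nsq u ≤ 1`, then `star C u` is in the class `K Λ`.
-/

set_option autoImplicit false

open MeasureTheory ProbabilityTheory Set
open scoped ENNReal NNReal

namespace Kom92

theorem M2.adm_mono {N : ℕ} {μ : Measure (E N)} {C : Set (E N)} {r s : ℝ} (h : Adm μ C r)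
    (hs : s ≤ r) : Adm μ C s := by
  intro η hη
  obtain ⟨f, h1, h2, h3⟩ := h η hη
  exact ⟨f, h1, h2, by linarith⟩

theorem M2.adm_closed {N : ℕ} {μ : Measure (E N)} {C : Set (E N)} {r : ℝ}
    (h : ∀ δ : ℝ, 0 < δ → Adm μ C (r - δ)) : Adm μ C r := by
  intro η hη
  obtain ⟨f, h1, h2, h3⟩ := h (η / 2) (by linarith) (η / 2) (by linarith)
  exact ⟨f, h1, h2, by linarith⟩

theorem M2.P_ne_top {N : ℕ} (W : List (ℝ≥0 × E N)) {f : E N → ℝ≥0∞} (hf : Measurable f)
    (h : sqn f ≠ ⊤) : P (mu W) f f ≠ ⊤ := ne_top_of_le_ne_top h (P_le_sqn hf)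

theorem M2.P_toReal_le {N : ℕ} (W : List (ℝ≥0 × E N)) {f : E N → ℝ≥0∞} (hf : Measurable f)
    (h : sqn f ≠ ⊤) : (P (mu W) f f).toReal ≤ (sqn f).toReal :=
  ENNReal.toReal_mono h (P_le_sqn hf)

theorem M2.numeric_cube {t : ℝ} (h0 : 0 ≤ t) (h1 : t ≤ 1 / 4) :
    (1 - t - 4 * t ^ 2) ^ 3 ≤ 1 - 3 * t := by
  nlinarith [mul_nonneg h0 h0, mul_nonneg (mul_nonneg h0 h0) h0, pow_nonneg h0 4, pow_nonneg h0 5,
    pow_nonneg h0 6, mul_nonneg (mul_nonneg h0 h0) (sub_nonneg.2 h1),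
    mul_nonneg (pow_nonneg h0 3) (sub_nonneg.2 h1), mul_nonneg (pow_nonneg h0 4) (sub_nonneg.2 h1),
    mul_nonneg (pow_nonneg h0 5) (sub_nonneg.2 h1)]

theorem M2.numeric_bm {x y l : ℝ} (hx : 0 ≤ x) (hy : 0 ≤ y) (hy1 : y ≤ 1)
    (h : x + 2 * y ≤ 3 * l) : 1 - 3 * l ≤ (1 - x) * (1 - y) ^ 2 := by
  nlinarith [mul_nonneg hx hy, mul_nonneg (mul_nonneg hx hy) (sub_nonneg.2 hy1), mul_nonneg hy hy]

/-- `BM` in terms of `Adm`. -/
theorem M2.BM_adm {N : ℕ} (W : List (ℝ≥0 × E N)) {A B C : Set (E N)} (hA : OBC A) (hB : OBC B)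
    (hC : OBC C) {a b r : ℝ} (ha : 0 ≤ a) (hb : 0 ≤ b) (hAa : Adm (mu W) A a) (hBb : Adm (mu W) B b)
    (hsub : ∀ x ∈ A, ∀ y ∈ B, (1 / 3 : ℝ) • x + (2 / 3 : ℝ) • y ∈ C) (hr0 : 0 ≤ r)
    (hr : r ^ 3 ≤ a * b ^ 2) : Adm (mu W) C r := by
  refine M2.adm_closed fun δ hδ => ?_
  -- it is enough to treat `r' = max (r - δ) 0`
  suffices h : Adm (mu W) C (max (r - δ) 0) from M2.adm_mono h (le_max_left _ _)
  intro η hη
  set r' := max (r - δ) 0 with hr'
  rcases eq_or_lt_of_le hr0 with h0 | h0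
  · -- r = 0, r' = 0
    have hr'0 : r' = 0 := by rw [hr', ← h0]; exact max_eq_right (by linarith)
    obtain ⟨f0, hf0, n0, -⟩ := hAa 1 one_pos
    obtain ⟨f1, hf1, n1, -⟩ := hBb 1 one_pos
    -- a normalised test function of `C` exists because `C` is open and nonempty
    have hneA : A.Nonempty := by
      by_contra hne
      rw [Set.not_nonempty_iff_eq_empty] at hne
      have : sqn f0 = 0 := by
        unfold sqn
        have h0 : ∀ x, f0 x = 0 := fun x => hf0.supp x (by rw [hne]; exact Set.notMem_empty x)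
        simp [h0]
      rw [this] at n0
      exact zero_ne_one n0
    have hneB : B.Nonempty := by
      by_contra hne
      rw [Set.not_nonempty_iff_eq_empty] at hne
      have : sqn f1 = 0 := by
        unfold sqn
        have h0 : ∀ x, f1 x = 0 := fun x => hf1.supp x (by rw [hne]; exact Set.notMem_empty x)
        simp [h0]
      rw [this] at n1
      exact zero_ne_one n1
    obtain ⟨x, hx⟩ := hneA
    obtain ⟨y, hy⟩ := hneB
    have hneC : C.Nonempty := ⟨_, hsub x hx y hy⟩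
    have hT := Test.one (C := C) hC.op.measurableSet
    have hs : sqn (C.indicator (fun _ => (1 : ℝ≥0∞))) = volume C := by
      unfold sqn
      rw [← lintegral_indicator_one hC.op.measurableSet]
      congr 1
      ext x
      by_cases hx : x ∈ C <;> simp [hx]
    obtain ⟨g, hg, g1, -⟩ := normalize hT (by rw [hs]; exact (hC.op.measure_pos volume hneC).ne')
      (sqn_lt_top hC.bd hT).ne
    refine ⟨g, hg, g1, ?_⟩
    rw [hr'0]
    have : 0 ≤ (P (mu W) g g).toReal := ENNReal.toReal_nonneg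
    linarith
  · have hr'r : r' < r := max_lt (by linarith) h0
    have hr'0 : 0 ≤ r' := le_max_right _ _
    have hlt : r' ^ 3 < a * b ^ 2 := (pow_lt_pow_left₀ hr'r hr'0 (by norm_num)).trans_le hr
    -- choose ε with r'^3 < (a-ε)(b-ε)^2
    have hcont : Filter.Tendsto (fun ε : ℝ => (a - ε) * (b - ε) ^ 2) (nhdsWithin 0 (Set.Ioi 0))
        (nhds (a * b ^ 2)) := by
      have : Continuous fun ε : ℝ => (a - ε) * (b - ε) ^ 2 := by fun_prop
      have h2 := this.tendsto 0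
      simp only [sub_zero] at h2
      exact h2.mono_left nhdsWithin_le_nhds
    have hapos : 0 < a := by
      rcases eq_or_lt_of_le ha with h | h
      · rw [← h] at hlt; have := pow_nonneg hr'0 3; nlinarith
      · exact h
    have hbpos : 0 < b := by
      rcases eq_or_lt_of_le hb with h | h
      · rw [← h] at hlt; have := pow_nonneg hr'0 3; nlinarith
      · exact h
    have hev := hcont.eventually (lt_mem_nhds hlt)
    have hev2 : ∀ᶠ ε in nhdsWithin (0 : ℝ) (Set.Ioi 0), ε < min a b :=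
      nhdsWithin_le_nhds (Iio_mem_nhds (lt_min hapos hbpos))
    have hev3 : ∀ᶠ ε in nhdsWithin (0 : ℝ) (Set.Ioi 0), 0 < ε := self_mem_nhdsWithin
    obtain ⟨ε, hε1, hε2, hε3⟩ := (hev.and (hev2.and hev3)).exists
    have hεa : ε < a := hε2.trans_le (min_le_left _ _)
    have hεb : ε < b := hε2.trans_le (min_le_right _ _)
    obtain ⟨f0, hf0, n0, e0⟩ := hAa ε hε3
    obtain ⟨f1, hf1, n1, e1⟩ := hBb ε hε3
    obtain ⟨f, hf, nf, ef⟩ := BM_strict W hA hB hC hsub hf0 hf1 n0 n1 r'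
      (hε1.trans_le (mul_le_mul e0 (pow_le_pow_left₀ (by linarith) e1 2) (by positivity)
        ENNReal.toReal_nonneg))
    exact ⟨f, hf, nf, by linarith⟩

/-- One step at scale `V`. -/
theorem M2.step {κ : ℝ} (hκ : 0 < κ)
    (hsh : ∀ (N : ℕ) (u : E N) (f : E N → ℝ≥0∞), Measurable f →
      sqn f = 1 → 1 - κ * en [(1, u)] f ≤ (∫⁻ x, f x * f (x + (6 : ℝ) • u)).toReal)
    {N : ℕ} {Λ : ℝ} (hΛ : 0 ≤ Λ) (hΛ1 : 100 * κ * Λ ≤ 1) {C : Set (E N)} (hC : OBC C)
    (hK : K Λ C) {u : E N} (hu : nsq u ≤ 1) (V : List (ℝ≥0 × E N)) (hV : Λ * q V ≤ 1 / 8) :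
    Adm (mu V) (star C u) (1 - Λ * q V - 4 * (Λ * q V) ^ 2) := by
  have hq := q_nonneg V
  have hl0 : 0 ≤ Λ * q V := mul_nonneg hΛ hq
  refine M2.adm_closed fun δ hδ => ?_
  set l0 := Λ * q V with hl0def
  -- choose η
  obtain ⟨η, hη, hη1, hη2, hη3⟩ : ∃ η : ℝ, 0 < η ∧ η ≤ 1 / 8 ∧ η ≤ δ / 3 ∧ 100 * κ * η ≤ 1 := by
    refine ⟨min (1 / 8) (min (δ / 3) (1 / (100 * κ))), by positivity, min_le_left _ _,
      (min_le_right _ _).trans (min_le_left _ _), ?_⟩
    have : min (1 / 8) (min (δ / 3) (1 / (100 * κ))) ≤ 1 / (100 * κ) :=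
      (min_le_right _ _).trans (min_le_right _ _)
    calc 100 * κ * min (1 / 8) (min (δ / 3) (1 / (100 * κ))) ≤ 100 * κ * (1 / (100 * κ)) := by
          gcongr
      _ = 1 := by field_simp
  obtain ⟨ψ, hψ, hψ1, hψV, hψU⟩ := two_energies hΛ hK V [(1, u)] η hη
  have hqU : q [((1 : ℝ≥0), u)] = nsq u := by simp [q]
  rw [hqU] at hψU
  -- overlap
  have hov := hsh N u ψ hψ.meas hψ1
  have hr6 : 97 / 100 ≤ (∫⁻ x, ψ x * ψ (x + (6 : ℝ) • u)).toReal := by
    have h1 : en [(1, u)] ψ ≤ Λ + η := by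
      have : Λ * nsq u ≤ Λ * 1 := mul_le_mul_of_nonneg_left hu hΛ
      linarith
    have h2 : κ * en [(1, u)] ψ ≤ κ * (Λ + η) := mul_le_mul_of_nonneg_left h1 hκ.le
    nlinarith
  -- the two translates
  set a : E N → ℝ≥0∞ := fun x => ψ (x + (3 : ℝ) • u) with ha
  set b : E N → ℝ≥0∞ := fun x => ψ (x - (3 : ℝ) • u) with hb
  have hbeq : b = fun x => ψ (x + (-((3 : ℝ) • u))) := by
    funext x; rw [hb]; simp only [sub_eq_add_neg]
  have ham : Measurable a := hψ.meas.comp (measurable_id.add_const _)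
  have hbm : Measurable b := hψ.meas.comp (measurable_id.sub_const _)
  have ha1 : sqn a = 1 := (sqn_translate ψ _).trans hψ1
  have hb1 : sqn b = 1 := by rw [hbeq]; exact (sqn_translate ψ _).trans hψ1
  have hab : (∫⁻ x, a x * b x) = ∫⁻ x, ψ x * ψ (x + (6 : ℝ) • u) := by
    have h := lintegral_add_right_eq_self (μ := (volume : Measure (E N)))
      (fun x => ψ x * ψ (x + (6 : ℝ) • u)) (-((3 : ℝ) • u))
    rw [← h]
    refine lintegral_congr fun x => ?_
    rw [ha, hb]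
    simp only
    rw [mul_comm]
    congr 2
    ext i
    simp only [Pi.add_apply, Pi.neg_apply, Pi.smul_apply, smul_eq_mul]
    ring
  have hmb := min_big ham hbm ha1 hb1 (by rw [hab]; exact hr6)
  set m : E N → ℝ≥0∞ := fun x => min (a x) (b x) with hmdef
  set M : E N → ℝ≥0∞ := fun x => max (a x) (b x) with hMdef
  have hm : Test (ero C u) m := test_min hψ u
  have hM : Test (ext C u) M := test_max hψ u
  have hsum : sqn m + sqn M = 2 := by
    rw [minmax_sqn ham hbm, ha1, hb1]; norm_num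
  have hmtop : sqn m ≠ ⊤ := by
    have : sqn m ≤ 2 := hsum ▸ le_self_add
    exact ne_top_of_le_ne_top (by norm_num) this
  have hMtop : sqn M ≠ ⊤ := by
    have : sqn M ≤ 2 := hsum ▸ le_add_self
    exact ne_top_of_le_ne_top (by norm_num) this
  set s := (sqn m).toReal with hs
  have hsM : (sqn M).toReal = 2 - s := by
    have := congrArg ENNReal.toReal hsum
    rw [ENNReal.toReal_add hmtop hMtop] at this
    have h2 : (2 : ℝ≥0∞).toReal = 2 := by norm_num
    rw [h2] at this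
    linarith
  have hs1 : s ≤ 1 := hmb.2
  have hs23 : 2 / 3 ≤ s := le_trans (by norm_num) hmb.1
  have hspos : 0 < s := by linarith
  have hm0 : sqn m ≠ 0 := fun h => by rw [hs, h] at hspos; simp at hspos
  have hM0 : sqn M ≠ 0 := fun h => by rw [h] at hsM; simp at hsM; linarith
  -- energies
  have hPV : 2 * P (mu V) ψ ψ ≤ P (mu V) m m + P (mu V) M M := by
    have h1 := minmax_P (μ := mu V) ham hbm
    have h2 : P (mu V) a a = P (mu V) ψ ψ := P_translate ψ ψ _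
    have h3 : P (mu V) b b = P (mu V) ψ ψ := by rw [hbeq]; exact P_translate ψ ψ _
    rw [h2, h3, ← two_mul] at h1
    exact h1
  set x := 1 - (P (mu V) m m).toReal / s with hx
  have hx0 : 0 ≤ x := by
    have := M2.P_toReal_le V hm.meas hmtop
    rw [← hs] at this
    rw [hx, sub_nonneg, div_le_one hspos]
    exact this
  set T : Set ℝ := {p | ∃ g, Test (ext C u) g ∧ sqn g = 1 ∧ (P (mu V) g g).toReal = p} with hT
  have hTbd : ∀ p ∈ T, p ≤ 1 := by
    rintro p ⟨g, hg, hg1, rfl⟩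
    have := M2.P_toReal_le V hg.meas (by rw [hg1]; simp)
    rwa [hg1, ENNReal.toReal_one] at this
  have hTb : BddAbove T := ⟨1, hTbd⟩
  have hψT : (P (mu V) ψ ψ).toReal ∈ T := ⟨ψ, hψ.mono (sub_ext C u), hψ1, rfl⟩
  set β := sSup T with hβ
  have hβ1 : β ≤ 1 := csSup_le ⟨_, hψT⟩ hTbd
  have hβψ : (P (mu V) ψ ψ).toReal ≤ β := le_csSup hTb hψT
  have hψV' : 1 - (P (mu V) ψ ψ).toReal ≤ l0 + η := hψV
  have hβM : (P (mu V) M M).toReal ≤ (2 - s) * β := by
    obtain ⟨g, hg, hg1, hgP⟩ := normalize hM hM0 hMtop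
    have h1 : (P (mu V) g g).toReal ≤ β := le_csSup hTb ⟨g, hg, hg1, rfl⟩
    have h2 := hgP (mu V) inferInstance
    rw [hsM] at h2
    rw [← h2, mul_comm]
    exact mul_le_mul_of_nonneg_left h1 (by linarith)
  have hAdmE : Adm (mu V) (ero C u) (1 - x) := by
    intro ε hε
    obtain ⟨g, hg, hg1, hgP⟩ := normalize hm hm0 hmtop
    refine ⟨g, hg, hg1, ?_⟩
    have h2 := hgP (mu V) inferInstance
    rw [← hs] at h2
    rw [hx, ← h2, mul_div_assoc, div_self hspos.ne']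
    linarith
  have hAdmX : Adm (mu V) (ext C u) β := by
    intro ε hε
    obtain ⟨p, ⟨g, hg, hg1, rfl⟩, hp⟩ := exists_lt_of_lt_csSup ⟨_, hψT⟩ (by linarith : β - ε < β)
    exact ⟨g, hg, hg1, hp.le⟩
  have hPm : (P (mu V) m m).toReal = s * (1 - x) := by
    rw [hx]; field_simp; ring
  have hmain : 2 * (P (mu V) ψ ψ).toReal ≤ s * (1 - x) + (2 - s) * β := by
    have h1 := ENNReal.toReal_mono (ENNReal.add_ne_top.2 ⟨M2.P_ne_top V hm.meas hmtop,
      M2.P_ne_top V hM.meas hMtop⟩) hPV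
    rw [ENNReal.toReal_mul, ENNReal.toReal_add (M2.P_ne_top V hm.meas hmtop)
      (M2.P_ne_top V hM.meas hMtop)] at h1
    have h2 : (2 : ℝ≥0∞).toReal = 2 := by norm_num
    rw [h2, hPm] at h1
    linarith
  set l := l0 + η with hl
  have hy : 1 - β ≤ l := by linarith
  have hcomb : x + 2 * (1 - β) ≤ 3 * l := by
    have h1 : s * (x + 2 * (1 - β)) ≤ s * (3 * l) := by
      have h3 : (3 * s - 2) * (1 - β) ≤ (3 * s - 2) * l :=
        mul_le_mul_of_nonneg_left hy (by linarith)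
      nlinarith
    exact le_of_mul_le_mul_left h1 hspos
  have hx1 : x ≤ 1 := by
    rw [hx]
    have : 0 ≤ (P (mu V) m m).toReal / s := by positivity
    linarith
  have hβ0 : 0 ≤ β := by linarith
  have hbm' : 1 - 3 * l ≤ (1 - x) * β ^ 2 := by
    have h := M2.numeric_bm hx0 (by linarith : 0 ≤ 1 - β) (by linarith) hcomb
    have e : 1 - (1 - β) = β := by ring
    rwa [e] at h
  have hl1 : l ≤ 1 / 4 := by linarith
  have hl00 : 0 ≤ l := by linarith
  have hr : (1 - l - 4 * l ^ 2) ^ 3 ≤ (1 - x) * β ^ 2 := (M2.numeric_cube hl00 hl1).trans hbm'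
  have hr0 : 0 ≤ 1 - l - 4 * l ^ 2 := by nlinarith
  have hfin := M2.BM_adm V (hC.ero u) (hC.ext u) (hC.star u) (by linarith : 0 ≤ 1 - x) hβ0
    hAdmE hAdmX (comb_sub hC u) hr0 hr
  refine M2.adm_mono hfin ?_
  rw [hl]
  nlinarith [mul_nonneg hl0 hη.le, mul_le_mul hV hη1 hη.le (by norm_num),
    mul_le_mul_of_nonneg_right hV hη.le, mul_le_mul_of_nonneg_right hη1 hη.le]

theorem main_lemma : ∃ Λ₀ : ℝ, 0 < Λ₀ ∧ ∀ Λ : ℝ, 0 < Λ → Λ ≤ Λ₀ → ∀ (N : ℕ) (C : Set (E N))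
    (u : E N), OBC C → nsq u ≤ 1 → K Λ C → K Λ (star C u) := by
  obtain ⟨κ, hκ, hsh⟩ := shift_bound
  refine ⟨1 / (100 * κ), by positivity, fun Λ hΛ hΛ0 N C u hC hu hK W => ?_⟩
  have hΛ1 : 100 * κ * Λ ≤ 1 := by
    calc 100 * κ * Λ ≤ 100 * κ * (1 / (100 * κ)) := by gcongr
      _ = 1 := by field_simp
  have hc0 : 0 ≤ Λ * q W := mul_nonneg hΛ.le (q_nonneg W)
  set c := Λ * q W with hc
  intro η hη
  -- choose `n`
  obtain ⟨n, hn⟩ := exists_nat_gt (max (8 * c + 1) (8 * c ^ 2 / η + 1))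
  have hn1 : 8 * c + 1 < n := (le_max_left _ _).trans_lt hn
  have hn2 : 8 * c ^ 2 / η + 1 < n := (le_max_right _ _).trans_lt hn
  have hnpos : (0 : ℝ) < n := by linarith
  have hnN : 1 ≤ n := by exact_mod_cast hnpos
  set V := scale (1 / (n : ℝ≥0)) W with hV
  have hqV : Λ * q V = c / n := by
    rw [hV, q_scale, hc]; push_cast; ring
  have hVs : Λ * q V ≤ 1 / 8 := by
    rw [hqV, div_le_iff₀ hnpos]; linarith
  have hstep := M2.step hκ hsh hΛ.le hΛ1 hC hK hu V hVs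
  rw [hqV] at hstep
  obtain ⟨f, hf, hf1, hfP⟩ := hstep (η / (2 * n)) (by positivity)
  refine ⟨f, hf, hf1, ?_⟩
  have h2 := F2 W hf.meas hf1 n hnN
  unfold en at h2
  have h3 : 1 - (P (mu V) f f).toReal ≤ c / n + 4 * (c / n) ^ 2 + η / (2 * n) := by linarith
  have h4 : 1 - (P (mu W) f f).toReal ≤ n * (c / n + 4 * (c / n) ^ 2 + η / (2 * n)) :=
    h2.trans (mul_le_mul_of_nonneg_left h3 hnpos.le)
  have h5 : n * (c / n + 4 * (c / n) ^ 2 + η / (2 * n)) = c + 4 * c ^ 2 / n + η / 2 := by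
    field_simp
  have h6 : 4 * c ^ 2 / n ≤ η / 2 := by
    rw [div_le_iff₀ hnpos]
    have : 8 * c ^ 2 / η < n := by linarith
    rw [div_lt_iff₀ hη] at this
    linarith
  rw [h5] at h4
  linarith

end Kom92
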