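import Pool.Agent.LibKom92.M2
import Pool.Agent.LibKom92.C4

/-!
Task M3. Unrolling.  Induction on `n`: `n = 0`: `C` is nonempty (`K` for the empty list), symmetric and
convex, so `0 ∈ C`.  Step: the induction hypothesis for `star C (v 0)` and `v ∘ Fin.succ`; `star_or`.
-/

set_option autoImplicit false

open MeasureTheory ProbabilityTheory Set
open scoped ENNReal NNReal

namespace Kom92

theorem K_nonempty {N : ℕ} {C : Set (E N)} {Λ : ℝ} (hK : K Λ C) : ∃ x, x ∈ C := by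
  obtain ⟨f, hf, h1, -⟩ := hK [] 1 one_pos
  by_contra hcon
  push Not at hcon
  have h0 : sqn f = 0 := by
    unfold sqn
    have : (fun x => f x ^ 2) = fun _ => 0 := by
      funext x
      rw [hf.supp x (hcon x)]
      simp
    rw [this]
    simp
  rw [h0] at h1
  exact zero_ne_one h1

theorem unroll {Λ Λ₀ : ℝ} (hΛ : 0 < Λ) (hΛ₀ : Λ ≤ Λ₀)
    (hm : ∀ Λ : ℝ, 0 < Λ → Λ ≤ Λ₀ → ∀ (N : ℕ) (C : Set (E N))
    (u : E N), OBC C → nsq u ≤ 1 → K Λ C → K Λ (star C u)) (N n : ℕ) :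
    ∀ (C : Set (E N)), OBC C → K Λ C → (∀ x ∈ C, -x ∈ C) → ∀ v : Fin n → E N,
      (∀ i, nsq (v i) ≤ 1) → ∃ ε : Fin n → ℝ, (∀ i, ε i = 1 ∨ ε i = -1) ∧
        ∑ i, ε i • v i ∈ C := by
  induction n with
  | zero =>
    intro C hC hK hs v hv
    refine ⟨fun i => i.elim0, fun i => i.elim0, ?_⟩
    obtain ⟨x, hx⟩ := K_nonempty hK
    have h0 := hC.cv hx (hs x hx) (by norm_num : (0:ℝ) ≤ 1/2) (by norm_num : (0:ℝ) ≤ 1/2)
      (by norm_num)
    have h1 : (1/2 : ℝ) • x + (1/2 : ℝ) • (-x) = 0 := by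
      rw [smul_neg, add_neg_cancel]
    rw [h1] at h0
    simpa using h0
  | succ n ih =>
    intro C hC hK hs v hv
    have hKs := hm Λ hΛ hΛ₀ N C (v 0) hC (hv 0) hK
    obtain ⟨ε, hε, hmem⟩ := ih (star C (v 0)) (hC.star (v 0)) hKs (star_symm hs (v 0))
      (fun i => v i.succ) (fun i => hv i.succ)
    rcases star_or hC hmem with h | h
    · refine ⟨Fin.cons 1 ε, ?_, ?_⟩
      · intro i
        refine Fin.cases ?_ ?_ i
        · left; rfl
        · intro j
          simpa using hε j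
      · rw [Fin.sum_univ_succ]
        simp only [Fin.cons_zero, Fin.cons_succ, one_smul]
        rw [add_comm]
        exact h
    · refine ⟨Fin.cons (-1) ε, ?_, ?_⟩
      · intro i
        refine Fin.cases ?_ ?_ i
        · right; rfl
        · intro j
          simpa using hε j
      · rw [Fin.sum_univ_succ]
        simp only [Fin.cons_zero, Fin.cons_succ, neg_smul, one_smul]
        rw [add_comm, ← sub_eq_add_neg]
        exact h

theorem komlos : ∃ c : ℝ, 0 < c ∧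
      ∀ (n d : ℕ) (v : Fin n → Fin d → ℝ),
        (∀ i, ∑ j, (v i j) ^ 2 ≤ 1) →
        ∃ ε : Fin n → ℝ, (∀ i, ε i = 1 ∨ ε i = -1) ∧
          ∀ j : Fin d, |∑ i, ε i * v i j| ≤ c := by
  obtain ⟨Λ₀, h0, hm⟩ := main_lemma
  have hl : 0 < Real.sqrt (3 / Λ₀) := Real.sqrt_pos.mpr (by positivity)
  refine ⟨Real.sqrt (3 / Λ₀), hl, ?_⟩
  intro n d v hv
  have hsq : 3 / (Real.sqrt (3 / Λ₀)) ^ 2 = Λ₀ := by
    rw [Real.sq_sqrt (by positivity)]
    field_simp
  have hK : K Λ₀ {x : E d | ∀ i, |x i| < Real.sqrt (3 / Λ₀)} := by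
    have := cube_K (N := d) hl
    rwa [hsq] at this
  obtain ⟨ε, hε, hmem⟩ := unroll h0 le_rfl hm d n {x : E d | ∀ i, |x i| < Real.sqrt (3 / Λ₀)}
    (cube_OBC hl) hK (fun x hx i => by simpa using hx i) v (fun i => hv i)
  refine ⟨ε, hε, fun j => ?_⟩
  have h := hmem j
  simp only [Finset.sum_apply, Pi.smul_apply, smul_eq_mul] at h
  exact h.le

end Kom92
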